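import Pool.Agent.X328.LP.Norm

/-!
# Minimal counterexamples to Leopoldt's conjecture
-/

set_option autoImplicit false
set_option linter.unusedSectionVars false

namespace Pool.Agent.X328.LP

open NumberField Pool.Agent.W289.SL Pool.Agent.W332.SL6 TensorProduct Module
open Pool.Agent.X328.PB (nrm)

variable {p : ℕ} [hp : Fact p.Prime] {F : Type} [Field F] [NumberField F]

lemma finrank_fixed_lt (P : Subgroup (F ≃ₐ[ℚ] F)) (hP : (Nat.card P).Prime) :
    finrank ℚ (IntermediateField.fixedField P) < finrank ℚ F := by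
  have h1 : finrank (IntermediateField.fixedField P) F = Nat.card P :=
    IntermediateField.finrank_fixedField_eq_card P
  have h2 := Module.finrank_mul_finrank ℚ (IntermediateField.fixedField P) F
  have h3 := hP.two_le
  have h4 : 0 < finrank ℚ (IntermediateField.fixedField P) := finrank_pos
  rw [← h2, h1]
  nlinarith

/-- an automorphism which does not change the absolute values acts trivially -/
lemma conj_act {c : F ≃ₐ[ℚ] F} (hc : ∀ (w : InfinitePlace F) (x : F), w (c x) = w x) (v : UM p F) :
    rho p ℚ F c v = v := by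
  induction v using TensorProduct.induction_on with
  | zero => rw [map_zero]
  | add x y hx hy => rw [map_add, hx, hy]
  | tmul a u =>
    rw [rho_tmul]
    set ζ : (𝓞 F)ˣ := Additive.toMul (gu c u - u) with hζ
    have h1 : ζ ∈ Units.torsion F := by
      rw [Units.mem_torsion]
      intro w
      have h2 : ((ζ : 𝓞 F) : F) * ((Additive.toMul u : (𝓞 F)ˣ) : 𝓞 F) =
          c (((Additive.toMul u : (𝓞 F)ˣ) : 𝓞 F) : F) := by
        rw [← gu_coe]
        have h3 : ζ * Additive.toMul u = Additive.toMul (gu c u) := by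
          rw [hζ, ← toMul_add, sub_add_cancel]
        exact congrArg (fun z : (𝓞 F)ˣ => ((z : 𝓞 F) : F)) h3
      have h4 := congrArg w h2
      rw [map_mul, hc] at h4
      have h5 : w (((Additive.toMul u : (𝓞 F)ˣ) : 𝓞 F) : F) ≠ 0 := by
        rw [map_ne_zero]
        simp
      exact mul_right_cancel₀ h5 (by rw [h4, one_mul])
    have h2 := one_tmul_torsion (p := p) ζ h1
    have h3 : gu c u = u + Additive.ofMul ζ := by
      rw [hζ]
      change gu c u = u + (gu c u - u)
      abel
    rw [h3, TensorProduct.tmul_add]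
    have h4 : a ⊗ₜ[ℤ] (Additive.ofMul ζ : Additive (𝓞 F)ˣ) =
        a • ((1 : ℂ_[p]) ⊗ₜ[ℤ] (Additive.ofMul ζ : Additive (𝓞 F)ˣ)) := by
      rw [TensorProduct.smul_tmul', smul_eq_mul, mul_one]
    rw [h4, h2, smul_zero, add_zero]

lemma eq_zero_of_eq_neg {V : Type*} [AddCommGroup V] [Module ℚ V] {v : V} (h : v = -v) : v = 0 := by
  have h3 : (2 : ℚ) • v = 0 := by
    rw [two_smul]
    nth_rewrite 2 [h]
    rw [add_neg_cancel]
  exact (smul_eq_zero.1 h3).resolve_left two_ne_zero

/-- complex conjugation cannot act as `-1` -/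
lemma not_conj {c : F ≃ₐ[ℚ] F} (hc : ∀ (w : InfinitePlace F) (x : F), w (c x) = w x)
    (h2 : orderOf c = 2) {v : UM p F} (hv : v ≠ 0)
    (h0 : ∀ P : Subgroup (F ≃ₐ[ℚ] F), (Nat.card P).Prime → nrm (rhoQ p F) P v = 0) : False := by
  have h1 := Pool.Agent.X328.PB.involution_neg (rhoQ p F) h2
    (h0 _ (by rw [Nat.card_zpowers, h2]; exact Nat.prime_two))
  rw [rhoQ_apply, conj_act hc] at h1
  exact hv (eq_zero_of_eq_neg h1)

lemma not_cm [IsCMField F] {v : UM p F} (hv : v ≠ 0)
    (h0 : ∀ P : Subgroup (F ≃ₐ[ℚ] F), (Nat.card P).Prime → nrm (rhoQ p F) P v = 0) : False := by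
  let c : F ≃ₐ[ℚ] F := (IsCMField.complexConj F).restrictScalars ℚ
  have hc : ∀ x, c x = IsCMField.complexConj F x := fun x => rfl
  refine not_conj (c := c) (fun w x => ?_) ?_ hv h0
  · rw [hc, IsCMField.infinitePlace_complexConj]
  · refine orderOf_eq_prime_iff.mpr ⟨?_, ?_⟩
    · ext x
      change c (c x) = x
      rw [hc, hc, IsCMField.complexConj_apply_apply]
    · intro h
      apply IsCMField.complexConj_ne_one F
      ext x
      rw [← hc, h]
      rfl

/-- a Galois extension of `ℚ` with at most one automorphism of order two which is not totally real is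
a CM-field -/
lemma cm_of_unique [IsGalois ℚ F] (hr : ¬ IsTotallyReal F)
    (huniq : ∀ σ τ : F ≃ₐ[ℚ] F, orderOf σ = 2 → orderOf τ = 2 → σ = τ) : IsCMField F := by
  have h1 : ∃ w : InfinitePlace F, ¬ w.IsReal := by
    by_contra h
    push Not at h
    exact hr ⟨h⟩
  obtain ⟨w0, hw0⟩ := h1
  have h2 : ∀ w : InfinitePlace F, w.IsComplex := by
    intro w
    obtain ⟨g, rfl⟩ := InfinitePlace.exists_smul_eq_of_comap_eq (k := ℚ) (w := w0) (w' := w)
      (Subsingleton.elim _ _)
    rw [← InfinitePlace.not_isReal_iff_isComplex, InfinitePlace.isReal_smul_iff]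
    exact hw0
  have hc : IsTotallyComplex F := ⟨h2⟩
  have h3 : ∀ φ : F →+* ℂ, ∃ σ : F ≃ₐ[ℚ] F, ComplexEmbedding.IsConj φ σ ∧ orderOf σ = 2 := by
    intro φ
    obtain ⟨σ, hσ⟩ := ComplexEmbedding.exists_comp_symm_eq_of_comp_eq (k := ℚ) φ
      (ComplexEmbedding.conjugate φ) (Subsingleton.elim _ _)
    have h4 : ComplexEmbedding.IsConj φ σ.symm := hσ.symm
    refine ⟨σ.symm, h4, ComplexEmbedding.orderOf_isConj_two_of_ne_one h4 ?_⟩
    exact (ComplexEmbedding.isConj_ne_one_iff h4).mpr (IsTotallyComplex.complexEmbedding_not_isReal φ)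
  obtain ⟨c, -, hc2⟩ := h3 (Classical.choice (inferInstance : Nonempty (F →+* ℂ)))
  refine IsCMField.of_forall_isConj F (σ := c) fun φ => ?_
  obtain ⟨σ, h4, h5⟩ := h3 φ
  rw [← huniq σ c h5 hc2]
  exact h4

section hecke
variable {k : Type} [Field k] [NumberField k] [Algebra k F] [IsGalois k F]

/-- over a field with finitely many units, commutative Galois groups are excluded -/
theorem leopoldt_of_comm (hk : Units.rank k = 0)
    (hcomm : ∀ g h : F ≃ₐ[k] F, g * h = h * g) : Pool.Agent.H637R2.Leo.Leopoldt F p := by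
  have hfd : FiniteDimensional k F := Module.Finite.of_restrictScalars_finite ℚ k F
  have : NeZero (Nat.card (F ≃ₐ[k] F) : ℚ_[p]) := ⟨Nat.cast_ne_zero.2 Nat.card_pos.ne'⟩
  have w : InfinitePlace F := Classical.arbitrary _
  refine leopoldt_of_hecke hk w fun x _ hxx => ?_
  have hc : ∀ a b : MonoidAlgebra ℚ_[p] (F ≃ₐ[k] F), a * b = b * a := by
    intro a b
    induction a using MonoidAlgebra.induction_linear with
    | zero => rw [zero_mul, mul_zero]
    | add a a' ha ha' => rw [add_mul, mul_add, ha, ha']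
    | single g c =>
      induction b using MonoidAlgebra.induction_linear with
      | zero => rw [zero_mul, mul_zero]
      | add b b' hb hb' => rw [add_mul, mul_add, hb, hb']
      | single h d =>
        rw [MonoidAlgebra.single_mul_single, MonoidAlgebra.single_mul_single, hcomm, mul_comm c d]
  obtain ⟨f, hf, hff, hN⟩ := exists_idem (Ideal.span {x})
  obtain ⟨r, hr⟩ := Ideal.mem_span_singleton'.1 hf
  have h1 : f = 0 := by
    calc f = f * f := hff.symm
      _ = (r * x) * (r * x) := by rw [hr]
      _ = r * (x * r) * x := by simp only [mul_assoc]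
      _ = r * (r * x) * x := by rw [hc x r]
      _ = r * r * (x * x) := by simp only [mul_assoc]
      _ = 0 := by rw [hxx, mul_zero]
  have h2 := hN x (Ideal.subset_span rfl)
  rw [h1, mul_zero] at h2
  exact h2.symm

end hecke

end Pool.Agent.X328.LP
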