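import Pool.Agent.X328.LP.Norm

/-!
# Embeddings which extend an embedding into `ℚ_p`
-/

set_option autoImplicit false
set_option linter.unusedSectionVars false

namespace Pool.Agent.X328.LP

open NumberField Pool.Agent.W289.SL Pool.Agent.W332.SL6 TensorProduct Module
open Pool.Agent.Y419.LC.LcpP

section inv

variable {p : ℕ} [Fact p.Prime] {k H : Type} [Field k] [Field H] [CharZero k] [Algebra k H]
  [FiniteDimensional k H] [Algebra k ℂ_[p]]

/-- the matrix of the embeddings over `k` is invertible -/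
lemma eq_zero_of_emb {J : Type} [Fintype J] (b : Basis J k H) (t : J → ℂ_[p])
    (h : ∀ σ : H →ₐ[k] ℂ_[p], ∑ l, t l * σ (b l) = 0) : t = 0 := by
  classical
  have hcard : Fintype.card J = Fintype.card (H →ₐ[k] ℂ_[p]) := by
    rw [AlgHom.card k H ℂ_[p]]
    exact (Module.finrank_eq_card_basis b).symm
  let e : J ≃ (H →ₐ[k] ℂ_[p]) := Fintype.equivOfCardEq hcard
  set M : Matrix J J ℂ_[p] := Algebra.embeddingsMatrixReindex k ℂ_[p] b e with hM
  have hdet : M.det ≠ 0 := by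
    intro h0
    have h1 := Algebra.discr_eq_det_embeddingsMatrixReindex_pow_two k ℂ_[p] b e
    rw [← hM, h0] at h1
    have h2 := Algebra.discr_not_zero_of_basis k b
    apply h2
    apply (algebraMap k ℂ_[p]).injective
    rw [h1, map_zero]
    norm_num
  refine Matrix.eq_zero_of_vecMul_eq_zero hdet ?_
  funext j
  have h1 := h (e j)
  exact h1

end inv

section descent

variable {p : ℕ} [hp : Fact p.Prime] {k H : Type} [Field k] [NumberField k] [Field H] [NumberField H]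
  [Algebra k H] (i₀ : k →+* ℚ_[p])

/-- the embedding `σ` extends `i₀` -/
def Over (H : Type) [Field H] [Algebra k H] (σ : H →+* ℂ_[p]) : Prop :=
  σ.comp (algebraMap k H) = (algebraMap ℚ_[p] ℂ_[p]).comp i₀

/-- the vectors killed by the logarithms for the embeddings which extend `i₀` -/
def KerS {L : ℂ_[p] → ℂ_[p]} (hL : IsIwasawaLog p L) (x : UM p H) : Prop :=
  ∀ σ : H →+* ℂ_[p], Over i₀ H σ → logLin hL σ x = 0

lemma exists_over : ∃ σ : H →+* ℂ_[p], Over i₀ H σ := by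
  have hfd : FiniteDimensional k H := Module.Finite.of_restrictScalars_finite ℚ k H
  obtain ⟨s, hs⟩ := exists_extC (p := p) (K := H) ((algebraMap ℚ_[p] ℂ_[p]).comp i₀)
  exact ⟨s, hs⟩

/-- a functional applied to the coefficients -/
noncomputable def fmap (φ : ℂ_[p] →ₗ[ℚ_[p]] ℚ_[p]) : UM p H →ₗ[ℤ] UM p H :=
  LinearMap.rTensor (Additive (𝓞 H)ˣ)
    (((Algebra.linearMap ℚ_[p] ℂ_[p]).comp φ).restrictScalars ℤ)

lemma fmap_tmul (φ : ℂ_[p] →ₗ[ℚ_[p]] ℚ_[p]) (a : ℂ_[p]) (u : Additive (𝓞 H)ˣ) :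
    fmap φ (a ⊗ₜ u : UM p H) = (algebraMap ℚ_[p] ℂ_[p] (φ a)) ⊗ₜ u := rfl

/-- relations with coefficients in `ℚ_p` -/
lemma rel_descent {L : ℂ_[p] → ℂ_[p]} (hL : IsIwasawaLog p L) {r : ℕ} (ε y : Fin r → 𝓞 H)
    (hy : ∀ i, ε i = 1 + ((p : ℕ) : 𝓞 H) ^ 4 * y i) (a : Fin r → ℂ_[p])
    (hrel : ∀ σ : H →+* ℂ_[p], Over i₀ H σ → ∑ i, a i * L (σ (ε i : H)) = 0)
    (φ : ℂ_[p] →ₗ[ℚ_[p]] ℚ_[p]) (σ : H →+* ℂ_[p]) (hσ : Over i₀ H σ) :
    ∑ i, algebraMap ℚ_[p] ℂ_[p] (φ (a i)) * L (σ (ε i : H)) = 0 := by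
  classical
  have hfd : FiniteDimensional k H := Module.Finite.of_restrictScalars_finite ℚ k H
  have hc := fun i => exists_c hL (ε i) (y i) (hy i)
  choose c hc using hc
  let b : Basis (Fin (finrank k H)) k H := finBasis k H
  -- coordinates
  set x : J H → Fin (finrank k H) → k := fun j l => b.repr ((om H j : 𝓞 H) : H) l with hx
  have hcoord : ∀ σ : H →+* ℂ_[p], Over i₀ H σ → ∀ j, σ ((om H j : 𝓞 H) : H) =
      ∑ l, algebraMap ℚ_[p] ℂ_[p] (i₀ (x j l)) * σ (b l) := by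
    intro σ hσ j
    conv_lhs => rw [← b.sum_repr ((om H j : 𝓞 H) : H)]
    rw [map_sum]
    refine Finset.sum_congr rfl fun l _ => ?_
    rw [Algebra.smul_def, map_mul]
    congr 1
    exact congrArg (fun f : k →+* ℂ_[p] => f (x j l)) hσ
  have hexp : ∀ (t : J H → ℂ_[p]) (σ : H →+* ℂ_[p]), Over i₀ H σ →
      ∑ j, t j * σ ((om H j : 𝓞 H) : H) =
        ∑ l, (∑ j, t j * algebraMap ℚ_[p] ℂ_[p] (i₀ (x j l))) * σ (b l) := by
    intro t σ hσ
    simp only [Finset.sum_mul]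
    rw [Finset.sum_comm]
    refine Finset.sum_congr rfl fun j _ => ?_
    rw [hcoord σ hσ j, Finset.mul_sum]
    refine Finset.sum_congr rfl fun l _ => ?_
    rw [mul_assoc]
  have hlog : ∀ (a : Fin r → ℂ_[p]) (σ : H →+* ℂ_[p]), ∑ i, a i * L (σ (ε i : H)) =
      ∑ j, (∑ i, a i * algebraMap ℚ_[p] ℂ_[p] (c i j)) * σ ((om H j : 𝓞 H) : H) := by
    intro a σ
    simp only [Finset.sum_mul]
    rw [Finset.sum_comm]
    refine Finset.sum_congr rfl fun i _ => ?_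
    rw [hc i σ, Finset.mul_sum]
    refine Finset.sum_congr rfl fun j _ => ?_
    rw [mul_assoc]
  -- the relations between the coordinates
  have h1 : (fun l => ∑ j, (∑ i, a i * algebraMap ℚ_[p] ℂ_[p] (c i j)) *
      algebraMap ℚ_[p] ℂ_[p] (i₀ (x j l))) = 0 := by
    letI : Algebra k ℂ_[p] := ((algebraMap ℚ_[p] ℂ_[p]).comp i₀).toAlgebra
    refine eq_zero_of_emb b _ fun σ => ?_
    have hσ : Over i₀ H (σ : H →+* ℂ_[p]) := σ.comp_algebraMap
    have h2 := hexp (fun j => ∑ i, a i * algebraMap ℚ_[p] ℂ_[p] (c i j)) (σ : H →+* ℂ_[p]) hσ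
    exact h2.symm.trans ((hlog a _).symm.trans (hrel _ hσ))
  rw [hlog, hexp _ σ hσ]
  refine Finset.sum_eq_zero fun l _ => ?_
  have h2 := congrFun h1 l
  have h3 : ∑ j, (∑ i, φ (a i) * c i j) * i₀ (x j l) = 0 := by
    have h4 := congrArg φ h2
    rw [Pi.zero_apply, map_zero, map_sum] at h4
    rw [← h4]
    refine Finset.sum_congr rfl fun j _ => ?_
    rw [mul_comm (∑ i, a i * algebraMap ℚ_[p] ℂ_[p] (c i j)), ← Algebra.smul_def, map_smul,
      smul_eq_mul, map_sum, mul_comm]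
    congr 1
    refine Finset.sum_congr rfl fun i _ => ?_
    rw [mul_comm (a i), ← Algebra.smul_def, map_smul, smul_eq_mul, mul_comm]
  have h5 := congrArg (algebraMap ℚ_[p] ℂ_[p]) h3
  rw [map_zero, map_sum] at h5
  have h6 : ∑ j, (∑ i, algebraMap ℚ_[p] ℂ_[p] (φ (a i)) * algebraMap ℚ_[p] ℂ_[p] (c i j)) *
      algebraMap ℚ_[p] ℂ_[p] (i₀ (x j l)) = 0 := by
    rw [← h5]
    refine Finset.sum_congr rfl fun j _ => ?_
    rw [map_mul, map_sum]
    congr 1
    refine Finset.sum_congr rfl fun i _ => ?_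
    rw [map_mul]
  rw [h6, zero_mul]

/-- **The kernel is stable under functionals.** -/
theorem kerS_fmap {L : ℂ_[p] → ℂ_[p]} (hL : IsIwasawaLog p L) {x : UM p H}
    (hx : KerS i₀ hL x) (φ : ℂ_[p] →ₗ[ℚ_[p]] ℚ_[p]) : KerS i₀ hL (fmap φ x) := by
  classical
  obtain ⟨b, hb⟩ := decomp x
  obtain ⟨n, hn, hnU⟩ := exists_pow_U4 H p
  have hy := fun i => (Pool.Agent.Y419.LC.LcpP.mem_U4 _).1 (hnU (Additive.toMul (fu H i)))
  choose y hy using hy
  have hpow : ∀ (σ : H →+* ℂ_[p]) (i : Fin (Units.rank H)),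
      L (σ ((((Additive.toMul (fu H i)) ^ n : (𝓞 H)ˣ) : 𝓞 H) : H)) =
        (n : ℂ_[p]) * L (σ ((Additive.toMul (fu H i) : (𝓞 H)ˣ) : 𝓞 H)) := by
    intro σ i
    have h1 := map_nsmul (logHom hL σ) n (fu H i)
    rw [nsmul_eq_mul] at h1
    exact h1
  have hlogx : ∀ (a : Fin (Units.rank H) → ℂ_[p]) (σ : H →+* ℂ_[p]),
      (n : ℂ_[p]) * logLin hL σ (∑ i, a i • ((1 : ℂ_[p]) ⊗ₜ[ℤ] fu H i)) =
        ∑ i, a i * L (σ ((((Additive.toMul (fu H i)) ^ n : (𝓞 H)ˣ) : 𝓞 H) : H)) := by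
    intro a σ
    rw [map_sum, Finset.mul_sum]
    refine Finset.sum_congr rfl fun i _ => ?_
    rw [map_smul, logLin_tmul', one_mul, hpow, smul_eq_mul]
    ring
  have hfx : fmap φ x = ∑ i, (algebraMap ℚ_[p] ℂ_[p] (φ (b i))) • ((1 : ℂ_[p]) ⊗ₜ[ℤ] fu H i) := by
    rw [hb, map_sum]
    refine Finset.sum_congr rfl fun i _ => ?_
    rw [TensorProduct.smul_tmul', smul_eq_mul, mul_one, fmap_tmul, TensorProduct.smul_tmul',
      smul_eq_mul, mul_one]
  intro σ hσ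
  have hn' : (n : ℂ_[p]) ≠ 0 := by exact_mod_cast hn
  have h1 := rel_descent i₀ hL (fun i => (((Additive.toMul (fu H i)) ^ n : (𝓞 H)ˣ) : 𝓞 H)) y
    (fun i => by rw [← hy i]; ring) b (fun σ hσ => by
      rw [← hlogx, ← hb, hx σ hσ, mul_zero]) φ σ hσ
  have h2 := hlogx (fun i => algebraMap ℚ_[p] ℂ_[p] (φ (b i))) σ
  rw [h1, ← hfx] at h2
  exact (mul_eq_zero.1 h2).resolve_left hn'

/-- a vector is zero if all functionals kill it -/
lemma eq_zero_of_fmap {x : UM p H} (h : ∀ φ : ℂ_[p] →ₗ[ℚ_[p]] ℚ_[p], fmap φ x = 0) : x = 0 := by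
  classical
  obtain ⟨b, hb⟩ := decomp x
  have hli : LinearIndependent ℤ (fu H) := by
    rw [Fintype.linearIndependent_iff]
    intro c hc
    have h2 := congrArg Additive.toMul hc
    rw [toMul_sum, toMul_zero] at h2
    have h3 : ∏ i, (Units.fundSystem H i) ^ c i = 1 := h2
    have h7 := congrArg Prod.snd ((Units.exist_unique_eq_mul_prod H 1).unique
      (y₁ := (1, c)) (y₂ := (1, 0)) (by simp [h3]) (by simp))
    intro i
    exact congrFun h7 i
  have hli' := Module.Flat.linearIndependent_one_tmul (S := ℂ_[p]) hli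
  rw [Fintype.linearIndependent_iff] at hli'
  have hb0 : ∀ i, b i = 0 := by
    intro i
    refine (Module.forall_dual_apply_eq_zero_iff ℚ_[p] (b i)).1 fun φ => ?_
    have h1 := h φ
    have hfx : fmap φ x = ∑ i, (algebraMap ℚ_[p] ℂ_[p] (φ (b i))) •
        ((1 : ℂ_[p]) ⊗ₜ[ℤ] fu H i) := by
      rw [hb, map_sum]
      refine Finset.sum_congr rfl fun i _ => ?_
      rw [TensorProduct.smul_tmul', smul_eq_mul, mul_one, fmap_tmul, TensorProduct.smul_tmul',
        smul_eq_mul, mul_one]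
    rw [hfx] at h1
    have h2 := hli' _ h1 i
    rwa [map_eq_zero] at h2
  rw [hb]
  refine Finset.sum_eq_zero fun i _ => ?_
  rw [hb0, zero_smul]

end descent

end Pool.Agent.X328.LP
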