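import Pool.Agent.X328.LP.Sig3

/-!
# The embeddings over an imaginary quadratic field are a CM type
-/

set_option autoImplicit false
set_option linter.unusedSectionVars false

namespace Pool.Agent.X328.LP

open NumberField Pool.Agent.W289.SL Module

variable {p : ℕ} [hp : Fact p.Prime] {k K F : Type} [Field k] [NumberField k] [Field K]
  [NumberField K] [Field F] [NumberField F] [Algebra k K] [Algebra F K]

lemma exists_moved [IsTotallyComplex k] [IsTotallyReal F] (hFK : finrank F K = 2)
    {c : K ≃ₐ[F] K} (hc : c ≠ 1) : ∃ y : k, c (algebraMap k K y) ≠ algebraMap k K y := by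
  by_contra hcon
  push Not at hcon
  have hfd : FiniteDimensional F K := Module.finite_of_finrank_pos (by omega)
  set M := IntermediateField.fixedField (Subgroup.zpowers c) with hM
  have hmem : ∀ x : K, x ∈ M ↔ c x = x := by
    intro x
    rw [hM, IntermediateField.mem_fixedField_iff]
    constructor
    · intro h
      exact h c (Subgroup.mem_zpowers c)
    · intro h g hg
      obtain ⟨n, rfl⟩ := Subgroup.mem_zpowers_iff.1 hg
      have h1 : c ∈ MulAction.stabilizer (K ≃ₐ[F] K) x := h
      exact (MulAction.stabilizer (K ≃ₐ[F] K) x).zpow_mem h1 n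
  have hMtop : M ≠ ⊤ := by
    intro h
    apply hc
    ext x
    exact (hmem x).1 (h ▸ IntermediateField.mem_top)
  have hMbot : M = ⊥ := by
    have h1 := Module.finrank_mul_finrank F M K
    rw [hFK] at h1
    have h2 : finrank M K ≠ 1 := by
      intro h
      exact hMtop (IntermediateField.finrank_eq_one_iff_eq_top.1 h)
    have h3 : 0 < finrank F M := finrank_pos
    have h4 : 0 < finrank M K := finrank_pos
    have h5 : finrank F M = 1 := by
      have : 2 ≤ finrank M K := by omega
      nlinarith
    exact IntermediateField.finrank_eq_one_iff.1 h5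
  obtain ⟨ψ⟩ : Nonempty (K →+* ℂ) := inferInstance
  apply IsTotallyComplex.complexEmbedding_not_isReal (ψ.comp (algebraMap k K))
  rw [ComplexEmbedding.isReal_iff]
  ext y
  have h1 : algebraMap k K y ∈ M := (hmem _).2 (hcon y)
  rw [hMbot, IntermediateField.mem_bot] at h1
  obtain ⟨z, hz⟩ := h1
  have h2 := IsTotallyReal.complexEmbedding_isReal (ψ.comp (algebraMap F K))
  rw [ComplexEmbedding.isReal_iff] at h2
  have h3 := congrArg (fun f : F →+* ℂ => f z) h2
  change (starRingEnd ℂ) (ψ (algebraMap k K y)) = ψ (algebraMap k K y)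
  rw [← hz]
  exact h3

/-- **CM types.** -/
theorem isCMType_of [IsTotallyComplex k] [IsTotallyReal F] (hk : finrank ℚ k = 2)
    (hFK : finrank F K = 2) (i : k →+* ℂ_[p]) {S : Set (K →+* ℂ_[p])}
    (hS : ∀ τ : K →+* ℂ_[p], τ ∈ S ↔ τ.comp (algebraMap k K) = i) : IsCMType p F K S := by
  classical
  intro c hc σ
  rw [hS, hS]
  obtain ⟨y, hy⟩ := exists_moved (k := k) hFK hc
  have hne : σ.comp (algebraMap k K) ≠ (σ.comp (c : K →+* K)).comp (algebraMap k K) := by
    intro h
    apply hy
    apply σ.injective
    exact (congrArg (fun f : k →+* ℂ_[p] => f y) h).symm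
  have hcard : Fintype.card (k →+* ℂ_[p]) = 2 := by
    rw [← hk, Embeddings.card k ℂ_[p]]
  constructor
  · intro h1 h2
    exact hne (h1.trans h2.symm)
  · intro h1
    by_contra h2
    have h3 : ({i, σ.comp (algebraMap k K), (σ.comp (c : K →+* K)).comp (algebraMap k K)} :
        Finset (k →+* ℂ_[p])).card = 3 := by
      rw [Finset.card_eq_three]
      exact ⟨_, _, _, fun h => h2 h.symm, fun h => h1 h.symm, hne, rfl⟩
    have h4 := Finset.card_le_univ ({i, σ.comp (algebraMap k K),
      (σ.comp (c : K →+* K)).comp (algebraMap k K)} : Finset (k →+* ℂ_[p]))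
    omega

lemma rank_zero [IsTotallyComplex k] (hk : finrank ℚ k = 2) : Units.rank k = 0 := by
  have := rank_complex k
  omega

end Pool.Agent.X328.LP
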