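import Mathlib

/-!
# Left ideals of group algebras, Hecke algebras without nilpotent elements
-/

set_option autoImplicit false

namespace Pool.Agent.X328.LP

open MonoidAlgebra

section semisimple

variable {R : Type*} [Ring R] [IsSemisimpleRing R]

/-- a left ideal is generated by an idempotent -/
lemma exists_idem (N : Ideal R) : ∃ f ∈ N, f * f = f ∧ ∀ x ∈ N, x * f = x := by
  obtain ⟨f, hf, rfl⟩ := IsSemisimpleRing.ideal_eq_span_idempotent N
  refine ⟨f, Ideal.mem_span_singleton_self f, hf, fun x hx => ?_⟩
  obtain ⟨a, rfl⟩ := Ideal.mem_span_singleton'.1 hx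
  rw [mul_assoc, hf.eq]

/-- the two-sided ideal generated by an element, as a left ideal, is generated by a central
idempotent -/
lemma exists_central (f : R) : ∃ z : R, z * z = z ∧ (∀ r, z * r = r * z) ∧ z * f = f ∧
    z ∈ Submodule.span R (Set.range fun b : R => f * b) := by
  set J : Ideal R := Submodule.span R (Set.range fun b : R => f * b) with hJ
  have hright : ∀ w ∈ J, ∀ b : R, w * b ∈ J := by
    intro w hw b
    refine Submodule.span_induction (p := fun w _ => w * b ∈ J) ?_ ?_ ?_ ?_ hw
    · rintro _ ⟨c, rfl⟩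
      refine Submodule.subset_span ⟨c * b, ?_⟩
      simp only [mul_assoc]
    · rw [zero_mul]; exact J.zero_mem
    · intro x y _ _ hx hy
      rw [add_mul]
      exact J.add_mem hx hy
    · intro a x _ hx
      rw [smul_eq_mul, mul_assoc]
      exact J.mul_mem_left a hx
  obtain ⟨z, hzJ, hz, hz'⟩ := exists_idem J
  -- `z b = z b z`
  have h1 : ∀ b : R, z * b = z * b * z := fun b => (hz' _ (hright z hzJ b)).symm
  have h2 : ∀ b : R, z * b * (1 - z) = 0 := by
    intro b
    rw [mul_sub, mul_one, ← h1, sub_self]
  -- `(1 - z) b z` generates a nilpotent left ideal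
  have h3 : ∀ b : R, (1 - z) * b * z = 0 := by
    intro b
    obtain ⟨e, he, hee, he'⟩ := exists_idem (Ideal.span ({(1 - z) * b * z} : Set R))
    obtain ⟨a, rfl⟩ := Ideal.mem_span_singleton'.1 he
    have h4 : a * ((1 - z) * b * z) * (a * ((1 - z) * b * z)) = 0 := by
      have h5 : a * ((1 - z) * b * z) * (a * ((1 - z) * b * z)) =
          a * ((1 - z) * b) * (z * a * (1 - z)) * (b * z) := by
        simp only [mul_assoc]
      rw [h5, h2, mul_zero, zero_mul]
    rw [h4] at hee
    have h6 := he' _ (Ideal.mem_span_singleton_self _)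
    rw [← hee, mul_zero] at h6
    exact h6.symm
  refine ⟨z, hz, fun r => ?_, ?_, hzJ⟩
  · have h4 := h3 r
    rw [sub_mul, one_mul, sub_mul, sub_eq_zero] at h4
    rw [h1, ← h4]
  · have h4 : f ∈ J := Submodule.subset_span ⟨1, mul_one f⟩
    have h5 := hz' f h4
    have h6 := h3 f
    rw [sub_mul, one_mul, sub_mul, h5, sub_eq_zero] at h6
    have h7 := hz' _ (J.mul_mem_left z h4)
    rw [h7] at h6
    exact h6.symm

/-- **Left ideals and Hecke algebras.** Let `e` be an idempotent such that `e R e` has no nilpotent
elements. For every left ideal `N` there is a central idempotent `z` of `R` such that `N e = R z e`. -/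
theorem exists_central_of_hecke {e : R} (he : e * e = e)
    (hred : ∀ x : R, e * x * e = x → x * x = 0 → x = 0) (N : Ideal R) :
    ∃ z : R, z * z = z ∧ (∀ r, z * r = r * z) ∧ (∃ x ∈ N, x * e = z * e) ∧
      ∀ x ∈ N, x * e * z = x * e := by
  set Ne : Ideal R :=
    { carrier := {y | ∃ x ∈ N, x * e = y}
      add_mem' := by
        rintro _ _ ⟨x, hx, rfl⟩ ⟨y, hy, rfl⟩
        exact ⟨x + y, N.add_mem hx hy, add_mul _ _ _⟩
      zero_mem' := ⟨0, N.zero_mem, zero_mul _⟩
      smul_mem' := by
        rintro c _ ⟨x, hx, rfl⟩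
        exact ⟨c * x, N.mul_mem_left c hx, by rw [smul_eq_mul, mul_assoc]⟩ } with hNe
  obtain ⟨f0, ⟨x0, hx0, hx0'⟩, hf0, hf0'⟩ := exists_idem Ne
  have h0e : f0 * e = f0 := by rw [← hx0', mul_assoc, he]
  set f := e * f0 with hf
  have hfN : ∃ x ∈ N, x * e = f := ⟨e * x0, N.mul_mem_left e hx0, by rw [mul_assoc, hx0']⟩
  have hef : e * f = f := by rw [hf, ← mul_assoc, he]
  have hfe : f * e = f := by rw [hf, mul_assoc, h0e]
  have hff : f * f = f := by
    calc f * f = e * (f0 * e) * f0 := by rw [hf]; simp only [mul_assoc]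
      _ = f := by rw [h0e, mul_assoc, hf0]
  have hgen : ∀ x ∈ N, x * e * f = x * e := by
    intro x hx
    rw [hf, ← mul_assoc, mul_assoc x e e, he]
    exact hf0' _ ⟨x, hx, rfl⟩
  -- `f` is central in the Hecke algebra
  have hcent : ∀ h : R, e * h * e = h → f * h = h * f := by
    intro h hh
    have heh : e * h = h := by rw [← hh, ← mul_assoc, ← mul_assoc, he]
    have hhe : h * e = h := by rw [← hh, mul_assoc, he]
    have h1 : (e - f) * f = 0 := by rw [sub_mul, hef, hff, sub_self]
    have h1' : f * (e - f) = 0 := by rw [mul_sub, hfe, hff, sub_self]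
    have h2 : f * h * (e - f) = 0 := by
      apply hred
      · rw [mul_sub, mul_sub, sub_mul]
        have e1 : e * (f * h * e) * e = f * h * e := by
          rw [← mul_assoc e, ← mul_assoc e, hef, mul_assoc (f * h) e e, he]
        have e2 : e * (f * h * f) * e = f * h * f := by
          rw [← mul_assoc e, ← mul_assoc e, hef, mul_assoc (f * h) f e, hfe]
        rw [e1, e2]
      · have e1 : f * h * (e - f) * (f * h * (e - f)) = f * h * ((e - f) * f) * (h * (e - f)) := by
          simp only [mul_assoc]
        rw [e1, h1, mul_zero, zero_mul]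
    have h3 : (e - f) * h * f = 0 := by
      apply hred
      · rw [sub_mul, sub_mul, mul_sub, sub_mul]
        have e1 : e * (e * h * f) * e = e * h * f := by
          rw [← mul_assoc e, ← mul_assoc e, he, mul_assoc (e * h) f e, hfe]
        have e2 : e * (f * h * f) * e = f * h * f := by
          rw [← mul_assoc e, ← mul_assoc e, hef, mul_assoc (f * h) f e, hfe]
        rw [e1, e2]
      · have e1 : (e - f) * h * f * ((e - f) * h * f) = (e - f) * h * (f * (e - f)) * (h * f) := by
          simp only [mul_assoc]
        rw [e1, h1', mul_zero, zero_mul]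
    rw [mul_sub, mul_assoc, hhe, sub_eq_zero] at h2
    rw [sub_mul, heh, sub_mul, sub_eq_zero] at h3
    rw [h2, h3]
  obtain ⟨z, hz, hzc, hzf, hzJ⟩ := exists_central f
  have hze : z * e = f := by
    -- `e w e f = e w e` on the two-sided ideal generated by `f`
    have h1 : ∀ w ∈ Submodule.span R (Set.range fun b : R => f * b), e * w * e * f = e * w * e := by
      intro w hw
      refine Submodule.span_induction (p := fun w _ => ∀ a : R, e * (a * w) * e * f =
        e * (a * w) * e) ?_ ?_ ?_ ?_ hw 1 |> fun h => by simpa using h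
      · rintro _ ⟨b, rfl⟩ a
        have h2 : f * (e * b * e) = e * b * e * f := hcent _ (by
          rw [← mul_assoc, ← mul_assoc, he, mul_assoc (e * b) e e, he])
        have h3 : e * (a * (f * b)) * e = e * a * (f * (e * b * e)) := by
          have h4 : f * (e * b * e) = f * b * e := by
            rw [← mul_assoc f, ← mul_assoc f, hfe]
          rw [h4]
          simp only [mul_assoc]
        rw [h3, h2]
        simp only [mul_assoc, hff]
      · intro a; simp
      · intro x y _ _ hx hy a
        rw [mul_add, mul_add, add_mul, add_mul, hx, hy]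
      · intro c x _ hx a
        rw [smul_eq_mul, ← mul_assoc a c x]
        exact hx (a * c)
    have h2 := h1 z hzJ
    rw [← hzc e, mul_assoc z e e, he, mul_assoc z e f, hef, hzf] at h2
    exact h2.symm
  refine ⟨z, hz, hzc, ?_, fun x hx => ?_⟩
  · rw [hze]; exact hfN
  · rw [mul_assoc, ← hzc, hze]
    have := hgen x hx
    rw [mul_assoc, hef] at this
    exact this

end semisimple

end Pool.Agent.X328.LP
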