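import Pool.Agent.X328.LP.Alg

/-!
# Central idempotents have algebraic coefficients
-/

set_option autoImplicit false

namespace Pool.Agent.X328.LP

open MonoidAlgebra

section

variable {K : Type*} [Field K] [CharZero K]

lemma trace_alg {n : Type*} [Fintype n] [DecidableEq n] (A : Matrix n n K) (m : ℕ) (hm : 0 < m)
    (hA : A ^ (m + 1) = A) : IsAlgebraic ℚ A.trace := by
  set L := AlgebraicClosure K
  set B : Matrix n n L := A.map (algebraMap K L) with hB
  have hB1 : B ^ (m + 1) = B := by
    have h1 : B = (algebraMap K L).mapMatrix A := rfl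
    rw [h1, ← map_pow, hA]
  have hroot : ∀ r ∈ B.charpoly.roots, r ∈ algebraicClosure ℚ L := by
    intro r hr
    have h1 : r ∈ spectrum L B :=
      Matrix.mem_spectrum_of_isRoot_charpoly (Polynomial.isRoot_of_mem_roots hr)
    have h2 := spectrum.subset_polynomial_aeval B (Polynomial.X ^ (m + 1) - Polynomial.X : Polynomial L)
      ⟨r, h1, rfl⟩
    have h3 : Polynomial.aeval B (Polynomial.X ^ (m + 1) - Polynomial.X : Polynomial L) = 0 := by
      simp [hB1]
    rw [h3] at h2
    have h4 : r ^ (m + 1) - r = 0 := by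
      by_contra hne
      have h5 : (Polynomial.X ^ (m + 1) - Polynomial.X : Polynomial L).eval r ∈
          spectrum L (0 : Matrix n n L) := h2
      rw [spectrum.mem_iff, sub_zero] at h5
      apply h5
      have h6 : (Polynomial.X ^ (m + 1) - Polynomial.X : Polynomial L).eval r ≠ 0 := by
        simpa using hne
      exact (IsUnit.mk0 _ h6).map (algebraMap L (Matrix n n L))
    rw [mem_algebraicClosure_iff]
    refine ⟨Polynomial.X ^ (m + 1) - Polynomial.X, ?_, by simpa using h4⟩
    intro h0
    have h5 := congrArg (fun P : Polynomial ℚ => P.coeff (m + 1)) h0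
    simp only [Polynomial.coeff_sub, Polynomial.coeff_X_pow, if_true, Polynomial.coeff_X,
      Polynomial.coeff_zero] at h5
    rw [if_neg (by omega), sub_zero] at h5
    exact one_ne_zero h5
  have htr : B.trace ∈ algebraicClosure ℚ L := by
    rw [Matrix.trace_eq_sum_roots_charpoly]
    exact multiset_sum_mem _ hroot
  have h1 : B.trace = algebraMap K L A.trace := by
    rw [hB, Matrix.trace, Matrix.trace, map_sum]
    rfl
  rw [h1, mem_algebraicClosure_iff] at htr
  exact (isAlgebraic_algebraMap_iff (algebraMap K L).injective).1 htr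

variable {G : Type*} [Group G] [Fintype G]

lemma coeff_alg {z : MonoidAlgebra K G} (hz : z * z = z) (hc : ∀ r, z * r = r * z) (g : G) :
    IsAlgebraic ℚ (z.coeff g) := by
  classical
  set m := orderOf g with hm
  have hm0 : 0 < m := orderOf_pos g
  set y : MonoidAlgebra K G := z * single g⁻¹ 1 with hy
  have hy1 : y ^ (m + 1) = y := by
    have h1 : Commute z (single g⁻¹ 1) := hc _
    rw [hy, h1.mul_pow, single_pow, one_pow]
    have h2 : z ^ (m + 1) = z := IsIdempotentElem.pow_succ_eq m hz
    have h3 : g⁻¹ ^ (m + 1) = g⁻¹ := by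
      rw [pow_succ, inv_pow, hm, pow_orderOf_eq_one, inv_one, one_mul]
    rw [h2, h3]
  set A := Algebra.leftMulMatrix (MonoidAlgebra.basis G K) y with hA
  have hA1 : A ^ (m + 1) = A := by rw [hA, ← map_pow, hy1]
  have h1 := trace_alg A m hm0 hA1
  have h2 : A.trace = (Fintype.card G : K) * z.coeff g := by
    rw [Matrix.trace]
    have h3 : ∀ h : G, A.diag h = z.coeff g := by
      intro h
      rw [Matrix.diag_apply, hA, Algebra.leftMulMatrix_eq_repr_mul, basis_apply]
      change (y * single h 1).coeff h = _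
      rw [coeff_mul_single_apply, mul_inv_cancel, mul_one, hy, coeff_mul_single_apply, inv_inv,
        one_mul, mul_one]
    rw [Finset.sum_congr rfl fun h _ => h3 h, Finset.sum_const, Finset.card_univ, nsmul_eq_mul]
  rw [h2] at h1
  have h3 : (Fintype.card G : K) ≠ 0 := Nat.cast_ne_zero.2 Fintype.card_ne_zero
  have h4 : z.coeff g = (Fintype.card G : K)⁻¹ * ((Fintype.card G : K) * z.coeff g) := by
    rw [← mul_assoc, inv_mul_cancel₀ h3, one_mul]
  rw [h4]
  refine IsAlgebraic.mul ?_ h1
  have h5 : (Fintype.card G : K)⁻¹ = algebraMap ℚ K (Fintype.card G : ℚ)⁻¹ := by simp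
  rw [h5]
  exact isAlgebraic_algebraMap _

end

end Pool.Agent.X328.LP
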