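import Mathlib

/-!
# Group algebras over `ℚ_2` without nilpotent elements
-/

set_option autoImplicit false

namespace Pool.Agent.X328.LP

open MonoidAlgebra

lemma zmod8 : ∀ a b c d : ZMod 8, a * a + b * b + c * c + d * d = 0 → 4 * a = 0 := by
  decide +kernel

lemma unit_not_even {a : ℤ_[2]} (ha : ‖a‖ = 1) : 4 * PadicInt.toZModPow 3 a ≠ 0 := by
  intro h
  have hu : IsUnit a := PadicInt.isUnit_iff.2 ha
  have h1 : IsUnit (PadicInt.toZModPow 3 a) := hu.map _
  have h2 : (4 : ZMod (2 ^ 3)) = 0 := (h1.mul_left_eq_zero).1 h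
  exact absurd h2 (by decide)

/-- the sum of four squares is anisotropic over `ℚ_2` -/
lemma four_squares {a b c d : ℚ_[2]} (h : a * a + b * b + c * c + d * d = 0)
    (hb : ‖b‖ ≤ ‖a‖) (hc : ‖c‖ ≤ ‖a‖) (hd : ‖d‖ ≤ ‖a‖) : a = 0 := by
  by_contra ha
  have key : ∀ x : ℚ_[2], ‖x‖ ≤ ‖a‖ → ‖x / a‖ ≤ 1 := by
    intro x hx
    rw [norm_div]
    exact div_le_one_of_le₀ hx (norm_nonneg _)
  let b' : ℤ_[2] := ⟨b / a, key b hb⟩
  let c' : ℤ_[2] := ⟨c / a, key c hc⟩
  let d' : ℤ_[2] := ⟨d / a, key d hd⟩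
  have h1 : (1 : ℤ_[2]) * 1 + b' * b' + c' * c' + d' * d' = 0 := by
    apply Subtype.ext
    change (1 : ℚ_[2]) * 1 + (b / a) * (b / a) + (c / a) * (c / a) + (d / a) * (d / a) = 0
    field_simp
    linear_combination h
  have h2 := congrArg (PadicInt.toZModPow 3) h1
  simp only [map_add, map_mul, map_one, map_zero] at h2
  have h3 := zmod8 _ _ _ _ h2
  exact absurd h3 (by decide)

lemma four_squares' {a b c d : ℚ_[2]} (h : a * a + b * b + c * c + d * d = 0) :
    a = 0 ∧ b = 0 ∧ c = 0 ∧ d = 0 := by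
  -- the entry of largest norm vanishes
  have key : ∀ x y z w : ℚ_[2], x * x + y * y + z * z + w * w = 0 → ‖y‖ ≤ ‖x‖ → ‖z‖ ≤ ‖x‖ →
      ‖w‖ ≤ ‖x‖ → x = 0 ∧ y = 0 ∧ z = 0 ∧ w = 0 := by
    intro x y z w h hy hz hw
    have hx := four_squares h hy hz hw
    rw [hx, norm_zero] at hy hz hw
    exact ⟨hx, norm_le_zero_iff.1 hy, norm_le_zero_iff.1 hz, norm_le_zero_iff.1 hw⟩
  rcases le_total ‖a‖ ‖b‖ with hab | hab <;> rcases le_total ‖c‖ ‖d‖ with hcd | hcd
  · rcases le_total ‖b‖ ‖d‖ with hbd | hbd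
    · obtain ⟨h1, h2, h3, h4⟩ := key d a b c (by linear_combination h) (hab.trans hbd) hbd hcd
      exact ⟨h2, h3, h4, h1⟩
    · obtain ⟨h1, h2, h3, h4⟩ := key b a c d (by linear_combination h) hab (hcd.trans hbd) hbd
      exact ⟨h2, h1, h3, h4⟩
  · rcases le_total ‖b‖ ‖c‖ with hbc | hbc
    · obtain ⟨h1, h2, h3, h4⟩ := key c a b d (by linear_combination h) (hab.trans hbc) hbc hcd
      exact ⟨h2, h3, h1, h4⟩
    · obtain ⟨h1, h2, h3, h4⟩ := key b a c d (by linear_combination h) hab hbc (hcd.trans hbc)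
      exact ⟨h2, h1, h3, h4⟩
  · rcases le_total ‖a‖ ‖d‖ with had | had
    · obtain ⟨h1, h2, h3, h4⟩ := key d a b c (by linear_combination h) had (hab.trans had) hcd
      exact ⟨h2, h3, h4, h1⟩
    · obtain ⟨h1, h2, h3, h4⟩ := key a b c d h hab (hcd.trans had) had
      exact ⟨h1, h2, h3, h4⟩
  · rcases le_total ‖a‖ ‖c‖ with hac | hac
    · obtain ⟨h1, h2, h3, h4⟩ := key c a b d (by linear_combination h) hac (hab.trans hac) hcd
      exact ⟨h2, h3, h1, h4⟩
    · obtain ⟨h1, h2, h3, h4⟩ := key a b c d h hab hac (hcd.trans hac)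
      exact ⟨h1, h2, h3, h4⟩

section hom

variable {M : Type*} [Monoid M]

lemma pow_mod4 {I : M} (hI : I ^ 4 = 1) (n : ℕ) : I ^ n = I ^ (n % 4) := by
  conv_lhs => rw [← Nat.div_add_mod n 4, pow_add, pow_mul, hI, one_pow, one_mul]

lemma pow_val {I : M} (hI : I ^ 4 = 1) (t : ZMod (2 * 2)) (n : ℕ) (hn : (n : ZMod (2 * 2)) = t) :
    I ^ t.val = I ^ n := by
  rw [← hn, ZMod.val_natCast, pow_mod4 hI n]

lemma pow_comm3 {I J : M} (hIJ : I * J = J * I ^ 3) (n : ℕ) : I ^ n * J = J * I ^ (3 * n) := by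
  induction n with
  | zero => simp
  | succ n ih =>
    rw [pow_succ, mul_assoc, hIJ, ← mul_assoc, ih, mul_assoc, ← pow_add]
    congr 2

/-- homomorphisms from the quaternion group of order eight -/
def qhom (I J : M) (hI : I ^ 4 = 1) (hJ : J * J = I ^ 2) (hIJ : I * J = J * I ^ 3) :
    QuaternionGroup 2 →* M where
  toFun := fun q => match q with
    | .a t => I ^ t.val
    | .xa t => J * I ^ t.val
  map_one' := by
    change I ^ (0 : ZMod (2 * 2)).val = 1
    simp
  map_mul' := by
    rintro (i | i) (j | j)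
    · rw [QuaternionGroup.a_mul_a]
      change I ^ (i + j).val = I ^ i.val * I ^ j.val
      rw [← pow_add]
      exact pow_val hI _ _ (by simp)
    · rw [QuaternionGroup.a_mul_xa]
      change J * I ^ (j - i).val = I ^ i.val * (J * I ^ j.val)
      rw [← mul_assoc, pow_comm3 hIJ, mul_assoc, ← pow_add]
      congr 1
      refine pow_val hI _ _ ?_
      push_cast
      rw [ZMod.natCast_zmod_val, ZMod.natCast_zmod_val]
      have : (3 : ZMod (2 * 2)) = -1 := by decide
      rw [this]
      ring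
    · rw [QuaternionGroup.xa_mul_a]
      change J * I ^ (i + j).val = (J * I ^ i.val) * I ^ j.val
      rw [mul_assoc, ← pow_add]
      congr 1
      exact pow_val hI _ _ (by simp)
    · rw [QuaternionGroup.xa_mul_xa]
      change I ^ ((2 : ℕ) + j - i : ZMod (2 * 2)).val = (J * I ^ i.val) * (J * I ^ j.val)
      rw [mul_assoc, ← mul_assoc (I ^ i.val), pow_comm3 hIJ, mul_assoc J (I ^ (3 * i.val)),
        ← pow_add, ← mul_assoc, hJ, ← pow_add]
      refine pow_val hI _ _ ?_
      push_cast
      rw [ZMod.natCast_zmod_val, ZMod.natCast_zmod_val]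
      have : (3 : ZMod (2 * 2)) = -1 := by decide
      rw [this]
      ring

end hom

section quat

variable (K : Type*) [Field K]

/-- the quaternions over `K` -/
abbrev HQ : Type _ := QuaternionAlgebra K (-1) 0 (-1)

/-- the quaternion `i` -/
def qI : HQ K := ⟨0, 1, 0, 0⟩
/-- the quaternion `j` -/
def qJ : HQ K := ⟨0, 0, 1, 0⟩

lemma qI2 : qI K * qI K = -1 := by
  ext <;> simp [qI]

lemma qI3 : qI K ^ 3 = -qI K := by
  rw [pow_succ, pow_two, qI2, neg_one_mul]

/-- the representation of the quaternion group by quaternions -/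
def qrep : QuaternionGroup 2 →* HQ K :=
  qhom (qI K) (qJ K)
    (by
      have : qI K ^ 4 = (qI K * qI K) * (qI K * qI K) := by
        simp only [pow_succ, pow_zero, one_mul, mul_assoc]
      rw [this, qI2]; simp)
    (by rw [pow_two, qI2]; ext <;> simp [qJ])
    (by rw [qI3]; ext <;> simp [qI, qJ])

variable {K}

/-- the characters of the quaternion group -/
def qchar (α β : K) (hα : α * α = 1) (hβ : β * β = 1) : QuaternionGroup 2 →* K :=
  qhom α β (by
      have : α ^ 4 = (α * α) * (α * α) := by ring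
      rw [this, hα, one_mul])
    (by rw [hβ, pow_two, hα])
    (by
      have : β * α ^ 3 = β * α * (α * α) := by ring
      rw [this, hα, mul_one, mul_comm])

lemma univ_Q : (Finset.univ : Finset (QuaternionGroup 2)) =
    {.a 0, .a 1, .a 2, .a 3, .xa 0, .xa 1, .xa 2, .xa 3} := by decide

lemma sum_Q {A : Type*} [AddCommMonoid A] (f : QuaternionGroup 2 → A) :
    ∑ q, f q = f (.a 0) + (f (.a 1) + (f (.a 2) + (f (.a 3) + (f (.xa 0) + (f (.xa 1) +
      (f (.xa 2) + f (.xa 3))))))) := by
  rw [univ_Q, Finset.sum_insert (by decide), Finset.sum_insert (by decide),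
    Finset.sum_insert (by decide), Finset.sum_insert (by decide), Finset.sum_insert (by decide),
    Finset.sum_insert (by decide), Finset.sum_insert (by decide), Finset.sum_singleton]

/-- the five irreducible representations of the quaternion group determine a function -/
lemma quat_inj [CharZero K] (Y : QuaternionGroup 2 → K) (h0 : ∑ q, Y q • qrep K q = 0)
    (h1 : ∀ α β : K, ∀ (hα : α * α = 1) (hβ : β * β = 1), ∑ q, Y q * qchar α β hα hβ q = 0) :
    ∀ q, Y q = 0 := by
  have e1 := h1 1 1 (by simp) (by simp)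
  have e2 := h1 1 (-1) (by simp) (by simp)
  have e3 := h1 (-1) 1 (by simp) (by simp)
  have e4 := h1 (-1) (-1) (by simp) (by simp)
  rw [sum_Q] at e1 e2 e3 e4 h0
  have v0 : (0 : ZMod (2 * 2)).val = 0 := rfl
  have v1 : (1 : ZMod (2 * 2)).val = 1 := rfl
  have v2 : (2 : ZMod (2 * 2)).val = 2 := rfl
  have v3 : (3 : ZMod (2 * 2)).val = 3 := rfl
  simp only [qchar, qhom, MonoidHom.coe_mk, OneHom.coe_mk, v0, v1, v2, v3] at e1 e2 e3 e4
  simp only [qrep, qhom, MonoidHom.coe_mk, OneHom.coe_mk, v0, v1, v2, v3, pow_zero, pow_one,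
    pow_two, qI2, qI3] at h0
  have r1 := congrArg (fun q : HQ K => q.re) h0
  have r2 := congrArg (fun q : HQ K => q.imI) h0
  have r3 := congrArg (fun q : HQ K => q.imJ) h0
  have r4 := congrArg (fun q : HQ K => q.imK) h0
  simp [qI, qJ] at r1 r2 r3 r4
  have r1' : Y (.a 0) + -Y (.a 2) = 0 := r1
  have h8 : ∀ t : K, 8 * t = 0 → t = 0 := by
    intro t ht
    have : (8 : K) ≠ 0 := by norm_num
    exact (mul_eq_zero.1 ht).resolve_left this
  have hA0 : Y (.a 0) = 0 := h8 _ (by linear_combination e1 + e2 + e3 + e4 + 4 * r1')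
  have hA2 : Y (.a 2) = 0 := h8 _ (by linear_combination e1 + e2 + e3 + e4 - 4 * r1')
  have hA1 : Y (.a 1) = 0 := h8 _ (by linear_combination e1 + e2 - e3 - e4 + 4 * r2)
  have hA3 : Y (.a 3) = 0 := h8 _ (by linear_combination e1 + e2 - e3 - e4 - 4 * r2)
  have hB0 : Y (.xa 0) = 0 := h8 _ (by linear_combination e1 - e2 + e3 - e4 + 4 * r3)
  have hB2 : Y (.xa 2) = 0 := h8 _ (by linear_combination e1 - e2 + e3 - e4 - 4 * r3)
  have hB1 : Y (.xa 1) = 0 := h8 _ (by linear_combination e1 - e2 - e3 + e4 - 4 * r4)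
  have hB3 : Y (.xa 3) = 0 := h8 _ (by linear_combination e1 - e2 - e3 + e4 + 4 * r4)
  rintro (i | i) <;> fin_cases i
  · exact hA0
  · exact hA1
  · exact hA2
  · exact hA3
  · exact hB0
  · exact hB1
  · exact hB2
  · exact hB3

end quat

section reduced

variable (K : Type*) [Field K]

/-- the sign -/
def sgn : Multiplicative (ZMod 2) →* K where
  toFun t := if t = 1 then 1 else -1
  map_one' := if_pos rfl
  map_mul' := by
    have h : ∀ s t : Multiplicative (ZMod 2), (s = 1 ∧ t = 1 ∧ s * t = 1) ∨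
        (s = 1 ∧ t ≠ 1 ∧ s * t ≠ 1) ∨ (s ≠ 1 ∧ t = 1 ∧ s * t ≠ 1) ∨ (s ≠ 1 ∧ t ≠ 1 ∧ s * t = 1) := by
      decide
    intro s t
    rcases h s t with ⟨h1, h2, h3⟩ | ⟨h1, h2, h3⟩ | ⟨h1, h2, h3⟩ | ⟨h1, h2, h3⟩ <;>
      simp only [h1, h2, h3, if_true, if_false, mul_one, one_mul, mul_neg, neg_neg]

/-- the characters of the elementary abelian group -/
noncomputable def chi {m : ℕ} (s : Finset (Fin m)) : (Fin m → Multiplicative (ZMod 2)) →* K :=
  ∏ i ∈ s, (sgn K).comp (Pi.evalMonoidHom _ i)

lemma chi_apply {m : ℕ} (s : Finset (Fin m)) (h : Fin m → Multiplicative (ZMod 2)) :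
    chi K s h = ∏ i ∈ s, sgn K (h i) := by
  unfold chi
  rw [MonoidHom.finsetProd_apply]
  rfl

lemma sum_chi {m : ℕ} (h : Fin m → Multiplicative (ZMod 2)) :
    ∑ s : Finset (Fin m), chi K s h = if h = 1 then 2 ^ m else 0 := by
  simp only [chi_apply]
  rw [← Finset.powerset_univ, ← Finset.prod_one_add]
  split_ifs with hh
  · subst hh
    simp only [Pi.one_apply, map_one]
    rw [Finset.prod_const, Finset.card_univ, Fintype.card_fin]
    norm_num
  · obtain ⟨i, hi⟩ : ∃ i, h i ≠ 1 := by
      by_contra hcon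
      push Not at hcon
      exact hh (funext hcon)
    refine Finset.prod_eq_zero (Finset.mem_univ i) ?_
    change 1 + (if h i = 1 then (1 : K) else -1) = 0
    rw [if_neg hi, add_neg_cancel]

variable {K}

/-- a character times a representation -/
def twist {Q H A : Type*} [Group Q] [Group H] [Ring A] [Algebra K A] (χ : H →* K) (r : Q →* A) :
    Q × H →* A where
  toFun g := χ g.2 • r g.1
  map_one' := by simp
  map_mul' g g' := by
    change χ (g.2 * g'.2) • r (g.1 * g'.1) = χ g.2 • r g.1 * χ g'.2 • r g'.1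
    rw [map_mul, map_mul, smul_mul_smul_comm]

lemma lift_eq {G A : Type*} [Group G] [Fintype G] [Ring A] [Algebra K A] (r : G →* A)
    (x : MonoidAlgebra K G) : MonoidAlgebra.lift K A G r x = ∑ g, x.coeff g • r g := by
  classical
  have h1 : x = ∑ g, single g (x.coeff g) := by
    ext g
    rw [coeff_sum, Finset.sum_apply']
    simp only [coeff_single, Finsupp.single_apply]
    rw [Finset.sum_ite_eq']
    simp
  conv_lhs => rw [h1]
  rw [map_sum]
  refine Finset.sum_congr rfl fun g _ => ?_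
  rw [MonoidAlgebra.lift_single]

/-- the group algebra of the product of the quaternion group with an elementary abelian `2`-group
has no nilpotent elements, if the quaternions over the field have none -/
lemma reduced_prod [CharZero K] (hK : ∀ q : HQ K, q * q = 0 → q = 0) {m : ℕ}
    (x : MonoidAlgebra K (QuaternionGroup 2 × (Fin m → Multiplicative (ZMod 2)))) (hx : x * x = 0) :
    x = 0 := by
  -- the components
  have hY : ∀ (s : Finset (Fin m)) (q : QuaternionGroup 2),
      ∑ h, x.coeff (q, h) * chi K s h = 0 := by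
    intro s
    apply quat_inj
    · have h1 : MonoidAlgebra.lift K (HQ K) _ (twist (chi K s) (qrep K)) x = 0 := by
        apply hK
        rw [← map_mul, hx, map_zero]
      rw [lift_eq, Fintype.sum_prod_type] at h1
      rw [← h1]
      refine Finset.sum_congr rfl fun q _ => ?_
      rw [Finset.sum_smul]
      refine Finset.sum_congr rfl fun h _ => ?_
      rw [mul_smul]
      rfl
    · intro α β hα hβ
      have h1 : MonoidAlgebra.lift K K _ (twist (chi K s) (qchar α β hα hβ)) x = 0 := by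
        have h2 := congrArg (MonoidAlgebra.lift K K _ (twist (chi K s) (qchar α β hα hβ))) hx
        rw [map_mul, map_zero] at h2
        exact mul_self_eq_zero.1 h2
      rw [lift_eq, Fintype.sum_prod_type] at h1
      rw [← h1]
      refine Finset.sum_congr rfl fun q _ => ?_
      rw [Finset.sum_mul]
      refine Finset.sum_congr rfl fun h _ => ?_
      change _ = x.coeff (q, h) • (chi K s h • qchar α β hα hβ q)
      rw [smul_eq_mul, smul_eq_mul, mul_assoc]
  ext ⟨q, h0⟩
  have h1 : ∑ s : Finset (Fin m), chi K s h0 * ∑ h, x.coeff (q, h) * chi K s h =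
      2 ^ m * x.coeff (q, h0) := by
    simp only [Finset.mul_sum]
    rw [Finset.sum_comm]
    have h2 : ∀ h, ∑ s : Finset (Fin m), chi K s h0 * (x.coeff (q, h) * chi K s h) =
        x.coeff (q, h) * if h0 * h = 1 then 2 ^ m else 0 := by
      intro h
      rw [← sum_chi, Finset.mul_sum]
      refine Finset.sum_congr rfl fun s _ => ?_
      rw [map_mul]
      ring
    rw [Finset.sum_congr rfl fun h _ => h2 h, Finset.sum_eq_single h0]
    · have h3 : h0 * h0 = 1 := by
        funext i
        have : ∀ t : Multiplicative (ZMod 2), t * t = 1 := by decide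
        exact this _
      rw [if_pos h3, mul_comm]
    · intro h _ hne
      have h3 : h0 * h ≠ 1 := by
        intro h4
        apply hne
        funext i
        have : ∀ s t : Multiplicative (ZMod 2), s * t = 1 → t = s := by decide
        exact this _ _ (congrFun h4 i)
      rw [if_neg h3, mul_zero]
    · simp
  rw [Finset.sum_congr rfl fun s _ => by rw [hY s q, mul_zero], Finset.sum_const_zero] at h1
  have h2 := (mul_eq_zero.1 h1.symm).resolve_left (pow_ne_zero _ two_ne_zero)
  rw [h2]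
  rfl

/-- the quaternions over `ℚ_2` have no nilpotent elements -/
lemma quat_reduced (q : HQ ℚ_[2]) (h : q * q = 0) : q = 0 := by
  have r1 := congrArg (fun q : HQ ℚ_[2] => q.re) h
  have r2 := congrArg (fun q : HQ ℚ_[2] => q.imI) h
  have r3 := congrArg (fun q : HQ ℚ_[2] => q.imJ) h
  have r4 := congrArg (fun q : HQ ℚ_[2] => q.imK) h
  simp at r1 r2 r3 r4
  by_cases h0 : q.re = 0
  · obtain ⟨-, e2, e3, e4⟩ := four_squares' (a := 0) (b := q.imI) (c := q.imJ) (d := q.imK)
      (by rw [h0] at r1; linear_combination -r1)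
    exact QuaternionAlgebra.ext h0 e2 e3 e4
  · exfalso
    have e2 : q.imI = 0 := by
      have : q.re * q.imI = 0 := by linear_combination (1 / 2 : ℚ_[2]) * r2
      exact (mul_eq_zero.1 this).resolve_left h0
    have e3 : q.imJ = 0 := by
      have : q.re * q.imJ = 0 := by linear_combination (1 / 2 : ℚ_[2]) * r3
      exact (mul_eq_zero.1 this).resolve_left h0
    have e4 : q.imK = 0 := by
      have : q.re * q.imK = 0 := by linear_combination (1 / 2 : ℚ_[2]) * r4
      exact (mul_eq_zero.1 this).resolve_left h0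
    rw [e2, e3, e4] at r1
    apply h0
    have : q.re * q.re = 0 := by linear_combination r1
    exact mul_self_eq_zero.1 this

end reduced

end Pool.Agent.X328.LP
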