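import Pool.Agent.X328.LP.Loc
import Pool.Agent.X328.LP.Quat

/-!
# The group algebra of the dicyclic group of order `4 p` over `ℚ_p`, `p ≡ 3 (mod 4)`
-/

set_option autoImplicit false
set_option linter.unusedSectionVars false

namespace Pool.Agent.X328.LP

open Polynomial MonoidAlgebra

section hom

variable {M : Type*} [Monoid M] {n : ℕ}

lemma pow_modN {A : M} {N : ℕ} (hA : A ^ N = 1) (m : ℕ) : A ^ m = A ^ (m % N) := by
  conv_lhs => rw [← Nat.div_add_mod m N, pow_add, pow_mul, hA, one_pow, one_mul]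

lemma pow_valN {A : M} {N : ℕ} (hA : A ^ N = 1) (t : ZMod N) (m : ℕ) (hm : (m : ZMod N) = t) :
    A ^ t.val = A ^ m := by
  rw [← hm, ZMod.val_natCast, pow_modN hA m]

lemma pow_commN {A B : M} {N : ℕ} (hAB : A * B = B * A ^ N) (m : ℕ) :
    A ^ m * B = B * A ^ (N * m) := by
  induction m with
  | zero => simp
  | succ m ih =>
    rw [pow_succ, mul_assoc, hAB, ← mul_assoc, ih, mul_assoc, ← pow_add]
    congr 2

/-- homomorphisms from the dicyclic group -/
def dhom (hn : 0 < n) (A B : M) (hA : A ^ (2 * n) = 1) (hB : B * B = A ^ n)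
    (hAB : A * B = B * A ^ (2 * n - 1)) : QuaternionGroup n →* M where
  toFun := fun q => match q with
    | .a t => A ^ t.val
    | .xa t => B * A ^ t.val
  map_one' := by
    change A ^ (0 : ZMod (2 * n)).val = 1
    simp
  map_mul' := by
    have : NeZero (2 * n) := ⟨by omega⟩
    have hneg : ((2 * n - 1 : ℕ) : ZMod (2 * n)) = -1 := by
      have h1 : (((2 * n - 1 : ℕ) + 1 : ℕ) : ZMod (2 * n)) = 0 := by
        rw [Nat.sub_add_cancel (by omega), ZMod.natCast_self]
      rw [Nat.cast_add, Nat.cast_one] at h1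
      exact eq_neg_of_add_eq_zero_left h1
    rintro (i | i) (j | j)
    · rw [QuaternionGroup.a_mul_a]
      change A ^ (i + j).val = A ^ i.val * A ^ j.val
      rw [← pow_add]
      exact pow_valN hA _ _ (by simp)
    · rw [QuaternionGroup.a_mul_xa]
      change B * A ^ (j - i).val = A ^ i.val * (B * A ^ j.val)
      rw [← mul_assoc, pow_commN hAB, mul_assoc, ← pow_add]
      congr 1
      refine pow_valN hA _ _ ?_
      rw [Nat.cast_add, Nat.cast_mul, ZMod.natCast_zmod_val, ZMod.natCast_zmod_val, hneg]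
      ring
    · rw [QuaternionGroup.xa_mul_a]
      change B * A ^ (i + j).val = (B * A ^ i.val) * A ^ j.val
      rw [mul_assoc, ← pow_add]
      congr 1
      exact pow_valN hA _ _ (by simp)
    · rw [QuaternionGroup.xa_mul_xa]
      change A ^ ((n : ZMod (2 * n)) + j - i).val = (B * A ^ i.val) * (B * A ^ j.val)
      rw [mul_assoc, ← mul_assoc (A ^ i.val), pow_commN hAB, mul_assoc B (A ^ _),
        ← pow_add, ← mul_assoc, hB, ← pow_add]
      refine pow_valN hA _ _ ?_
      rw [Nat.cast_add, Nat.cast_add, Nat.cast_mul, ZMod.natCast_zmod_val, ZMod.natCast_zmod_val,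
        hneg]
      ring

/-- the elements of the dicyclic group -/
def qe (n : ℕ) : ZMod (2 * n) ⊕ ZMod (2 * n) ≃ QuaternionGroup n where
  toFun := Sum.elim QuaternionGroup.a QuaternionGroup.xa
  invFun := fun q => match q with
    | .a t => Sum.inl t
    | .xa t => Sum.inr t
  left_inv := fun i => by cases i <;> rfl
  right_inv := fun i => by cases i <;> rfl

lemma sum_dic {n : ℕ} [NeZero n] {V : Type*} [AddCommMonoid V] (f : QuaternionGroup n → V) :
    ∑ q, f q = ∑ i : ZMod (2 * n), f (.a i) + ∑ i : ZMod (2 * n), f (.xa i) := by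
  rw [← (qe n).sum_comp, Fintype.sum_sum_type]
  rfl

end hom

section sums

lemma sum_even_odd {V : Type*} [AddCommMonoid V] (f : ℕ → V) (n : ℕ) :
    ∑ l ∈ Finset.range (2 * n), f l =
      ∑ j ∈ Finset.range n, f (2 * j) + ∑ j ∈ Finset.range n, f (2 * j + 1) := by
  induction n with
  | zero => simp
  | succ n ih =>
    have h1 : 2 * (n + 1) = 2 * n + 1 + 1 := by ring
    rw [h1, Finset.sum_range_succ, Finset.sum_range_succ, ih, Finset.sum_range_succ,
      Finset.sum_range_succ]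
    abel

lemma sum_half {V : Type*} [AddCommMonoid V] (f : ℕ → V) (n : ℕ) :
    ∑ l ∈ Finset.range (2 * n), f l =
      ∑ l ∈ Finset.range n, f l + ∑ l ∈ Finset.range n, f (n + l) := by
  rw [two_mul, Finset.sum_range_add]

lemma sum_zmod {V : Type*} [AddCommMonoid V] (N : ℕ) [NeZero N] (f : ZMod N → V) :
    ∑ i : ZMod N, f i = ∑ l ∈ Finset.range N, f (l : ZMod N) := by
  symm
  refine Finset.sum_bij' (fun l _ => (l : ZMod N)) (fun i _ => i.val) ?_ ?_ ?_ ?_ ?_
  · intro l _; simp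
  · intro i _; simpa using ZMod.val_lt i
  · intro l hl
    exact ZMod.val_cast_of_lt (Finset.mem_range.1 hl)
  · intro i _; simp
  · intro l _; rfl

end sums

variable {p : ℕ} [hp : Fact p.Prime]

section poly

variable (x : ZMod (2 * p) → ℚ_[p])

/-- the polynomial belonging to the coefficients -/
noncomputable def pol : ℚ_[p][X] :=
  ∑ l ∈ Finset.range p, C (2 * (-1) ^ l * x (l : ZMod (2 * p))) * X ^ l

lemma pol_coeff (l : ℕ) (hl : l < p) : (pol x).coeff l = 2 * (-1) ^ l * x (l : ZMod (2 * p)) := by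
  unfold pol
  rw [finsetSum_coeff, Finset.sum_eq_single l]
  · rw [coeff_C_mul_X_pow, if_pos rfl]
  · intro m _ hm
    rw [coeff_C_mul_X_pow, if_neg (Ne.symm hm)]
  · intro h
    exact absurd (Finset.mem_range.2 hl) h

lemma pol_coeff' (l : ℕ) (hl : p ≤ l) : (pol x).coeff l = 0 := by
  unfold pol
  rw [finsetSum_coeff]
  refine Finset.sum_eq_zero fun m hm => ?_
  rw [Finset.mem_range] at hm
  rw [coeff_C_mul_X_pow, if_neg (by omega)]

variable {x}

lemma neg_half (hx : ∀ i, x (i + p) = -x i) (l : ℕ) :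
    x ((p + l : ℕ) : ZMod (2 * p)) = -x (l : ZMod (2 * p)) := by
  rw [← hx]
  congr 1
  push_cast
  ring

/-- the values -/
lemma pol_aeval (h2 : p ≠ 2) (hx : ∀ i, x (i + p) = -x i) {z : ℂ_[p]} (hz : z ^ p = 1) :
    aeval z (pol x) = ∑ i : ZMod (2 * p), algebraMap ℚ_[p] ℂ_[p] (x i) * (-z) ^ i.val := by
  have : NeZero (2 * p) := ⟨by have := hp.out.pos; omega⟩
  have hodd : Odd p := hp.out.odd_of_ne_two h2
  have hzp : (-z) ^ p = -1 := by rw [hodd.neg_pow, hz]
  have h1 : ∑ i : ZMod (2 * p), algebraMap ℚ_[p] ℂ_[p] (x i) * (-z) ^ i.val =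
      ∑ l ∈ Finset.range (2 * p), algebraMap ℚ_[p] ℂ_[p] (x (l : ZMod (2 * p))) * (-z) ^ l := by
    rw [sum_zmod]
    refine Finset.sum_congr rfl fun l hl => ?_
    rw [ZMod.val_cast_of_lt (Finset.mem_range.1 hl)]
  rw [h1, sum_half, ← Finset.sum_add_distrib]
  unfold pol
  rw [map_sum]
  refine Finset.sum_congr rfl fun l _ => ?_
  rw [neg_half hx, pow_add, hzp, map_mul, aeval_C, map_pow, aeval_X, neg_pow z l]
  simp only [map_mul, map_neg, map_pow, map_one, map_ofNat]
  ring

/-- the value at `1` -/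
lemma pol_eval_one (h2 : p ≠ 2) (hx : ∀ i, x (i + p) = -x i)
    (hs : ∀ i, ∑ j ∈ Finset.range p, x (i + 2 * (j : ZMod (2 * p))) = 0) :
    (pol x).eval 1 = 0 := by
  have hodd : Odd p := hp.out.odd_of_ne_two h2
  have h1 : (pol x).eval 1 = ∑ l ∈ Finset.range (2 * p), (-1) ^ l * x (l : ZMod (2 * p)) := by
    rw [sum_half, ← Finset.sum_add_distrib]
    unfold pol
    rw [eval_finsetSum]
    refine Finset.sum_congr rfl fun l _ => ?_
    rw [neg_half hx, pow_add, hodd.neg_one_pow, eval_mul, eval_C, eval_pow, eval_X, one_pow]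
    ring
  rw [h1, sum_even_odd]
  have h3 : ∑ j ∈ Finset.range p, (-1 : ℚ_[p]) ^ (2 * j) * x ((2 * j : ℕ) : ZMod (2 * p)) = 0 := by
    rw [← hs 0]
    refine Finset.sum_congr rfl fun j _ => ?_
    rw [pow_mul, neg_one_sq, one_pow, one_mul]
    congr 1
    push_cast
    ring
  have h4 : ∑ j ∈ Finset.range p, (-1 : ℚ_[p]) ^ (2 * j + 1) *
      x ((2 * j + 1 : ℕ) : ZMod (2 * p)) = 0 := by
    have h5 := hs 1
    rw [← neg_eq_zero, ← Finset.sum_neg_distrib] at h5
    rw [← h5]
    refine Finset.sum_congr rfl fun j _ => ?_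
    rw [pow_succ, pow_mul, neg_one_sq, one_pow, one_mul, neg_one_mul]
    congr 2
    push_cast
    ring
  rw [h3, h4, add_zero]

/-- the reduced polynomial -/
noncomputable def red (x : ZMod (2 * p) → ℚ_[p]) : ℚ_[p][X] :=
  pol x - C ((pol x).coeff (p - 1)) * ∑ l ∈ Finset.range p, X ^ l

lemma red_deg (h2 : p ≠ 2) (x : ZMod (2 * p) → ℚ_[p]) : (red x).natDegree < p - 1 := by
  have hp3 : 0 < p - 1 := by have := hp.out.two_le; omega
  have hc : ∀ l, p - 1 ≤ l → (red x).coeff l = 0 := by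
    intro l hl
    unfold red
    rw [Polynomial.coeff_sub, coeff_C_mul, finsetSum_coeff]
    simp only [coeff_X_pow]
    rcases eq_or_lt_of_le hl with h | h
    · rw [← h, Finset.sum_eq_single (p - 1)]
      · simp
      · intro m _ hm
        rw [if_neg (Ne.symm hm)]
      · intro h'
        exact absurd (Finset.mem_range.2 (by omega)) h'
    · rw [pol_coeff' x l (by omega), Finset.sum_eq_zero]
      · simp
      · intro m hm
        rw [Finset.mem_range] at hm
        rw [if_neg (by omega)]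
  by_contra hcon
  push Not at hcon
  have h3 := hc _ hcon
  rw [coeff_natDegree, leadingCoeff_eq_zero] at h3
  rw [h3, natDegree_zero] at hcon
  omega

lemma red_aeval (x : ZMod (2 * p) → ℚ_[p]) {z : ℂ_[p]} (hz : IsPrimitiveRoot z p) :
    aeval z (red x) = aeval z (pol x) := by
  unfold red
  rw [map_sub, map_mul, map_sum]
  simp only [map_pow, aeval_X]
  rw [hz.geom_sum_eq_zero hp.out.one_lt, mul_zero, sub_zero]

lemma eq_zero_of_red (h2 : p ≠ 2) (hx : ∀ i, x (i + p) = -x i)
    (hs : ∀ i, ∑ j ∈ Finset.range p, x (i + 2 * (j : ZMod (2 * p))) = 0) (h : red x = 0) :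
    x = 0 := by
  have : NeZero (2 * p) := ⟨by have := hp.out.pos; omega⟩
  have hp0 : (p : ℚ_[p]) ≠ 0 := Nat.cast_ne_zero.2 hp.out.ne_zero
  have h1 : pol x = C ((pol x).coeff (p - 1)) * ∑ l ∈ Finset.range p, X ^ l := by
    unfold red at h
    exact sub_eq_zero.1 h
  have h3 := congrArg (eval 1) h1
  rw [pol_eval_one h2 hx hs, eval_mul, eval_C, eval_finsetSum] at h3
  simp only [eval_pow, eval_X, one_pow, Finset.sum_const, Finset.card_range, nsmul_eq_mul,
    mul_one] at h3
  have h4 : (pol x).coeff (p - 1) = 0 := (mul_eq_zero.1 h3.symm).resolve_right hp0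
  rw [h4, C_0, zero_mul] at h1
  have h5 : ∀ l : ℕ, l < p → x (l : ZMod (2 * p)) = 0 := by
    intro l hl
    have h6 := pol_coeff x l hl
    rw [h1, Polynomial.coeff_zero] at h6
    have h7 : (2 * (-1) ^ l : ℚ_[p]) ≠ 0 := mul_ne_zero two_ne_zero (pow_ne_zero _ (by norm_num))
    exact (mul_eq_zero.1 h6.symm).resolve_left h7
  funext i
  have h6 : i = (i.val : ZMod (2 * p)) := (ZMod.natCast_zmod_val i).symm
  rw [h6, Pi.zero_apply]
  by_cases hi : i.val < p
  · exact h5 _ hi
  · have h7 : i.val = p + (i.val - p) := by omega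
    have h8 := ZMod.val_lt i
    rw [h7, neg_half hx, h5 _ (by omega), neg_zero]

end poly

section group

/-- the matrix of the generator of order `2 p` -/
noncomputable def mA (z : ℂ_[p]) : Matrix (Fin 2) (Fin 2) ℂ_[p] := !![-z, 0; 0, -z⁻¹]

/-- the matrix of the generator of order `4` -/
noncomputable def mB (p : ℕ) [Fact p.Prime] : Matrix (Fin 2) (Fin 2) ℂ_[p] := !![0, -1; 1, 0]

lemma mA_pow (z : ℂ_[p]) (m : ℕ) : mA z ^ m = !![(-z) ^ m, 0; 0, (-z⁻¹) ^ m] := by
  induction m with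
  | zero => rw [pow_zero, pow_zero, pow_zero, Matrix.one_fin_two]
  | succ m ih =>
    rw [pow_succ, ih]
    unfold mA
    rw [Matrix.mul_fin_two]
    simp only [mul_zero, zero_mul, add_zero, zero_add, pow_succ]

/-- the representation -/
noncomputable def drep (h2 : p ≠ 2) {z : ℂ_[p]} (hz : z ^ p = 1) :
    QuaternionGroup p →* Matrix (Fin 2) (Fin 2) ℂ_[p] :=
  have hodd : Odd p := hp.out.odd_of_ne_two h2
  have hzi : z⁻¹ ^ p = 1 := by rw [inv_pow, hz, inv_one]
  have hz0 : z ≠ 0 := by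
    rintro rfl
    rw [zero_pow hp.out.ne_zero] at hz
    exact zero_ne_one hz
  have hpp : (-z) ^ p = -1 := by rw [hodd.neg_pow, hz]
  have hppi : (-z⁻¹) ^ p = -1 := by rw [hodd.neg_pow, hzi]
  dhom hp.out.pos (mA z) (mB p)
    (by
      rw [mA_pow, two_mul, pow_add, pow_add, hpp, hppi, Matrix.one_fin_two]
      norm_num)
    (by
      rw [mA_pow, hpp, hppi]
      unfold mB
      rw [Matrix.mul_fin_two]
      norm_num)
    (by
      have h3 : ∀ {y : ℂ_[p]}, y ≠ 0 → (-y) ^ p = -1 → (-y) ^ (2 * p - 1) = -y⁻¹ := by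
        intro y hy hyp
        have h4 : (-y) ^ (2 * p - 1) * (-y) = 1 := by
          rw [← pow_succ, Nat.sub_add_cancel (by have := hp.out.pos; omega), two_mul, pow_add, hyp]
          norm_num
        have h5 : (-y) ≠ 0 := neg_ne_zero.2 hy
        rw [eq_div_of_mul_eq h5 h4, div_neg, one_div]
      rw [mA_pow, h3 hz0 hpp, h3 (inv_ne_zero hz0) hppi]
      unfold mA mB
      rw [Matrix.mul_fin_two, Matrix.mul_fin_two]
      simp)

/-- **No nilpotent elements.** -/
theorem dic_reduced (h34 : p % 4 = 3) (X : MonoidAlgebra ℚ_[p] (QuaternionGroup p))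
    (h1 : ∀ i, X.coeff (.a (i + p)) = -X.coeff (.a i))
    (h2 : ∀ i, X.coeff (.xa (i + p)) = -X.coeff (.xa i))
    (h3 : ∀ i, ∑ j ∈ Finset.range p, X.coeff (.a (i + 2 * (j : ZMod (2 * p)))) = 0)
    (h4 : ∀ i, ∑ j ∈ Finset.range p, X.coeff (.xa (i + 2 * (j : ZMod (2 * p)))) = 0)
    (hX : X * X = 0) : X = 0 := by
  have hp2 : p ≠ 2 := by rintro rfl; omega
  have : NeZero (2 * p) := ⟨by have := hp.out.pos; omega⟩
  have : NeZero p := ⟨hp.out.ne_zero⟩
  obtain ⟨z, hz⟩ : ∃ z : ℂ_[p], IsPrimitiveRoot z p :=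
    HasEnoughRootsOfUnity.exists_primitiveRoot ℂ_[p] p
  set x : ZMod (2 * p) → ℚ_[p] := fun i => X.coeff (.a i) with hx
  set y : ZMod (2 * p) → ℚ_[p] := fun i => X.coeff (.xa i) with hy
  set R : Matrix (Fin 2) (Fin 2) ℂ_[p] :=
    MonoidAlgebra.lift ℚ_[p] _ _ (drep hp2 hz.pow_eq_one) X with hR
  have hRR : R * R = 0 := by rw [hR, ← map_mul, hX, map_zero]
  have hRs : R = !![aeval z (pol x), -aeval z⁻¹ (pol y); aeval z (pol y), aeval z⁻¹ (pol x)] := by
    have hzi : z⁻¹ ^ p = 1 := by rw [inv_pow, hz.pow_eq_one, inv_one]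
    rw [hR, lift_eq, sum_dic, pol_aeval (x := x) hp2 h1 hz.pow_eq_one,
      pol_aeval (x := y) hp2 h2 hz.pow_eq_one, pol_aeval (x := x) hp2 h1 hzi,
      pol_aeval (x := y) hp2 h2 hzi]
    have e1 : ∀ i : ZMod (2 * p), (drep hp2 hz.pow_eq_one) (.a i) =
        !![(-z) ^ i.val, 0; 0, (-z⁻¹) ^ i.val] := fun i => mA_pow z i.val
    have e2 : ∀ i : ZMod (2 * p), (drep hp2 hz.pow_eq_one) (.xa i) =
        !![0, -(-z⁻¹) ^ i.val; (-z) ^ i.val, 0] := by
      intro i
      change mB p * mA z ^ i.val = _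
      rw [mA_pow]
      unfold mB
      rw [Matrix.mul_fin_two]
      simp
    ext a b
    rw [Matrix.add_apply, Matrix.sum_apply, Matrix.sum_apply]
    simp only [Matrix.smul_apply, e1, e2]
    fin_cases a <;> fin_cases b <;>
      simp [Algebra.smul_def, hx, hy]
  rw [hRs, Matrix.mul_fin_two] at hRR
  have e1 := congrFun (congrFun hRR 0) 0
  have e2 := congrFun (congrFun hRR 0) 1
  have e3 := congrFun (congrFun hRR 1) 0
  have e4 := congrFun (congrFun hRR 1) 1
  simp only [Matrix.of_apply, Matrix.cons_val', Matrix.cons_val_zero, Matrix.cons_val_one,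
    Matrix.empty_val', Matrix.cons_val_fin_one, Matrix.zero_apply] at e1 e2 e3 e4
  have hdet : aeval z (red x) * aeval z⁻¹ (red x) + aeval z (red y) * aeval z⁻¹ (red y) = 0 := by
    rw [red_aeval x hz, red_aeval x hz.inv, red_aeval y hz, red_aeval y hz.inv]
    by_cases h0 : aeval z (pol x) + aeval z⁻¹ (pol x) = 0
    · linear_combination -e1 + aeval z (pol x) * h0
    · have f1 : aeval z (pol y) = 0 := by
        have : aeval z (pol y) * (aeval z (pol x) + aeval z⁻¹ (pol x)) = 0 := by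
          linear_combination e3
        exact (mul_eq_zero.1 this).resolve_right h0
      rw [f1] at e1 e4 ⊢
      have f2 : aeval z (pol x) = 0 := by
        have : aeval z (pol x) * aeval z (pol x) = 0 := by linear_combination e1
        exact mul_self_eq_zero.1 this
      rw [f2]
      ring
  obtain ⟨g1, g2⟩ := anisotropic h34 hz (red_deg hp2 x) (red_deg hp2 y) hdet
  have g3 := eq_zero_of_red hp2 h1 h3 g1
  have g4 := eq_zero_of_red hp2 h2 h4 g2
  ext q
  rcases q with i | i
  · exact congrFun g3 i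
  · exact congrFun g4 i

end group

end Pool.Agent.X328.LP
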