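import Pool.Agent.X328.LP.Dic

/-!
# The idempotent of the faithful representations of the dicyclic group of order `4 p`
-/

set_option autoImplicit false
set_option linter.unusedSectionVars false

namespace Pool.Agent.X328.LP

open MonoidAlgebra

section idem

variable {p : ℕ} [hp : Fact p.Prime] {G : Type*} [Group G]

/-- the idempotent of an involution -/
noncomputable def E1 (p : ℕ) [Fact p.Prime] (z : G) : MonoidAlgebra ℚ_[p] G :=
  (2⁻¹ : ℚ_[p]) • (1 - single z 1)

/-- the sum of the powers -/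
noncomputable def sc (p : ℕ) [Fact p.Prime] (c : G) : MonoidAlgebra ℚ_[p] G :=
  ∑ j : ZMod p, single (c ^ j.val) 1

/-- the idempotent of an element of order `p` -/
noncomputable def E2 (p : ℕ) [Fact p.Prime] (c : G) : MonoidAlgebra ℚ_[p] G :=
  1 - (p : ℚ_[p])⁻¹ • sc p c

lemma single_z_sq {z : G} (hz : z * z = 1) :
    (single z 1 * single z 1 : MonoidAlgebra ℚ_[p] G) = 1 := by
  rw [single_mul_single, hz, one_mul]
  rfl

lemma E1_mul_self {z : G} (hz : z * z = 1) : E1 p z * E1 p z = E1 p z := by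
  unfold E1
  rw [smul_mul_smul_comm]
  have h1 : (1 - single z 1 : MonoidAlgebra ℚ_[p] G) * (1 - single z 1) =
      (2 : ℚ_[p]) • (1 - single z 1) := by
    rw [sub_mul, mul_sub, mul_sub, single_z_sq hz, two_smul]
    simp only [one_mul, mul_one]
    abel
  rw [h1, smul_smul]
  congr 1
  norm_num

lemma single_mul_sc {c : G} (hc : c ^ p = 1) (i : ℕ) :
    (single (c ^ i) 1 : MonoidAlgebra ℚ_[p] G) * sc p c = sc p c := by
  unfold sc
  rw [Finset.mul_sum]
  have hpn : NeZero p := ⟨hp.out.ne_zero⟩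
  refine Fintype.sum_equiv (Equiv.addLeft ((i : ℕ) : ZMod p)) _ _ fun j => ?_
  rw [single_mul_single, one_mul, ← pow_add]
  congr 1
  symm
  refine pow_valN hc _ _ ?_
  rw [Nat.cast_add, ZMod.natCast_zmod_val]
  rfl

lemma sc_mul_self {c : G} (hc : c ^ p = 1) : sc p c * sc p c = (p : ℚ_[p]) • sc p c := by
  nth_rewrite 1 [sc]
  rw [Finset.sum_mul, Finset.sum_congr rfl fun j _ => single_mul_sc hc j.val, Finset.sum_const,
    Finset.card_univ, ZMod.card, ← Nat.cast_smul_eq_nsmul ℚ_[p]]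

lemma E2_mul_self {c : G} (hc : c ^ p = 1) : E2 p c * E2 p c = E2 p c := by
  have hp0 : (p : ℚ_[p]) ≠ 0 := Nat.cast_ne_zero.2 hp.out.ne_zero
  unfold E2
  have h1 : ((p : ℚ_[p])⁻¹ • sc p c) * ((p : ℚ_[p])⁻¹ • sc p c) = (p : ℚ_[p])⁻¹ • sc p c := by
    rw [smul_mul_smul_comm, sc_mul_self hc, smul_smul, mul_assoc, inv_mul_cancel₀ hp0, mul_one]
  rw [sub_mul, mul_sub, mul_sub, h1]
  simp only [one_mul, mul_one]
  abel

lemma E1_comm {z : G} (hz : ∀ g, z * g = g * z) (r : MonoidAlgebra ℚ_[p] G) :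
    E1 p z * r = r * E1 p z := by
  have h1 : ∀ r : MonoidAlgebra ℚ_[p] G, single z 1 * r = r * single z 1 := by
    intro r
    induction r using MonoidAlgebra.induction_linear with
    | zero => rw [zero_mul, mul_zero]
    | add a b ha hb => rw [mul_add, add_mul, ha, hb]
    | single g b => rw [single_mul_single, single_mul_single, hz, one_mul, mul_one]
  unfold E1
  rw [smul_mul_assoc, mul_smul_comm, sub_mul, mul_sub, h1, one_mul, mul_one]

lemma sc_comm {c : G} (hc : c ^ p = 1) (hg : ∀ g : G, g * c = c * g ∨ g * c = c⁻¹ * g)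
    (r : MonoidAlgebra ℚ_[p] G) : sc p c * r = r * sc p c := by
  have hpn : NeZero p := ⟨hp.out.ne_zero⟩
  induction r using MonoidAlgebra.induction_linear with
  | zero => rw [zero_mul, mul_zero]
  | add a b ha hb => rw [mul_add, add_mul, ha, hb]
  | single g b =>
    unfold sc
    rw [Finset.sum_mul, Finset.mul_sum]
    rcases hg g with h | h
    · refine Finset.sum_congr rfl fun j _ => ?_
      have h2 : g * c ^ j.val = c ^ j.val * g := (show Commute g c from h).pow_right _
      rw [single_mul_single, single_mul_single, h2, one_mul, mul_one]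
    · refine Fintype.sum_equiv (Equiv.neg (ZMod p)) _ _ fun j => ?_
      rw [single_mul_single, single_mul_single, one_mul, mul_one]
      congr 1
      change c ^ j.val * g = g * c ^ (-j).val
      have h2 : SemiconjBy g c c⁻¹ := h
      have h3 := h2.pow_right (-j).val
      rw [h3.eq]
      congr 1
      rw [inv_pow, eq_inv_iff_mul_eq_one, ← pow_add, ← pow_valN hc (0 : ZMod p)]
      · simp
      · rw [Nat.cast_add, ZMod.natCast_zmod_val, ZMod.natCast_zmod_val]
        ring

lemma E2_comm {c : G} (hc : c ^ p = 1) (hg : ∀ g : G, g * c = c * g ∨ g * c = c⁻¹ * g)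
    (r : MonoidAlgebra ℚ_[p] G) : E2 p c * r = r * E2 p c := by
  unfold E2
  rw [sub_mul, mul_sub, smul_mul_assoc, mul_smul_comm, sc_comm hc hg, one_mul, mul_one]

/-- the consequences of `f x = x` -/
lemma of_E1 {z : G} (hz : z * z = 1) {x : MonoidAlgebra ℚ_[p] G} (h : E1 p z * x = x) :
    single z 1 * x = -x := by
  have h1 : single z 1 * (E1 p z * x) = -(E1 p z * x) := by
    rw [← mul_assoc, ← neg_mul]
    congr 1
    unfold E1
    rw [mul_smul_comm, mul_sub, single_z_sq hz, mul_one, ← smul_neg, neg_sub]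
  rwa [h] at h1

lemma of_E2 {c : G} (hc : c ^ p = 1) {x : MonoidAlgebra ℚ_[p] G} (h : E2 p c * x = x) :
    sc p c * x = 0 := by
  have hp0 : (p : ℚ_[p]) ≠ 0 := Nat.cast_ne_zero.2 hp.out.ne_zero
  have h1 : sc p c * (E2 p c * x) = 0 := by
    rw [← mul_assoc]
    have : sc p c * E2 p c = 0 := by
      unfold E2
      rw [mul_sub, mul_smul_comm, sc_mul_self hc, smul_smul, inv_mul_cancel₀ hp0, one_smul, mul_one,
        sub_self]
    rw [this, zero_mul]
  rwa [h] at h1

end idem

section dic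

variable {p : ℕ} [hp : Fact p.Prime]

open QuaternionGroup (a xa)

lemma a_pow (i : ZMod (2 * p)) (m : ℕ) :
    (a i : QuaternionGroup p) ^ m = a ((m : ZMod (2 * p)) * i) := by
  induction m with
  | zero => simp
  | succ m ih =>
    rw [pow_succ, ih, QuaternionGroup.a_mul_a]
    congr 1
    push_cast
    ring

lemma two_p : ((p : ZMod (2 * p)) + p) = 0 := by
  have h : ((2 * p : ℕ) : ZMod (2 * p)) = 0 := ZMod.natCast_self _
  rw [← h]
  push_cast
  ring

lemma z_sq : (a (p : ZMod (2 * p)) : QuaternionGroup p) * a (p : ZMod (2 * p)) = 1 := by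
  rw [QuaternionGroup.a_mul_a, two_p]
  rfl

lemma z_central (g : QuaternionGroup p) :
    a (p : ZMod (2 * p)) * g = g * a (p : ZMod (2 * p)) := by
  rcases g with i | i
  · rw [QuaternionGroup.a_mul_a, QuaternionGroup.a_mul_a, add_comm]
  · rw [QuaternionGroup.a_mul_xa, QuaternionGroup.xa_mul_a]
    congr 1
    linear_combination -two_p (p := p)

lemma c_pow : (a (2 : ZMod (2 * p)) : QuaternionGroup p) ^ p = 1 := by
  rw [a_pow]
  have h : (p : ZMod (2 * p)) * 2 = 0 := by linear_combination two_p (p := p)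
  rw [h]
  rfl

lemma c_conj (g : QuaternionGroup p) :
    g * a (2 : ZMod (2 * p)) = a 2 * g ∨ g * a (2 : ZMod (2 * p)) = (a 2)⁻¹ * g := by
  rcases g with i | i
  · left
    rw [QuaternionGroup.a_mul_a, QuaternionGroup.a_mul_a, add_comm]
  · right
    have h1 : (a (2 : ZMod (2 * p)) : QuaternionGroup p)⁻¹ = a (-2) := by
      rw [inv_eq_iff_mul_eq_one, QuaternionGroup.a_mul_a, add_neg_cancel]
      rfl
    rw [h1, QuaternionGroup.xa_mul_a, QuaternionGroup.a_mul_xa]
    congr 1
    ring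

/-- the idempotent -/
noncomputable def fD {G : Type*} [Group G] (φ : G ≃* QuaternionGroup p) : MonoidAlgebra ℚ_[p] G :=
  E1 p (φ.symm (a (p : ZMod (2 * p)))) * E2 p (φ.symm (a (2 : ZMod (2 * p))))

variable {G : Type*} [Group G] (φ : G ≃* QuaternionGroup p)

lemma z_sq' : φ.symm (a (p : ZMod (2 * p))) * φ.symm (a (p : ZMod (2 * p))) = 1 := by
  rw [← map_mul, z_sq, map_one]

lemma z_central' (g : G) :
    φ.symm (a (p : ZMod (2 * p))) * g = g * φ.symm (a (p : ZMod (2 * p))) := by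
  apply φ.injective
  rw [map_mul, map_mul, φ.apply_symm_apply, z_central]

lemma c_pow' : φ.symm (a (2 : ZMod (2 * p))) ^ p = 1 := by
  rw [← map_pow, c_pow, map_one]

lemma c_conj' (g : G) :
    g * φ.symm (a (2 : ZMod (2 * p))) = φ.symm (a 2) * g ∨
      g * φ.symm (a (2 : ZMod (2 * p))) = (φ.symm (a 2))⁻¹ * g := by
  rcases c_conj (φ g) with h | h
  · left
    apply φ.injective
    rw [map_mul, map_mul, φ.apply_symm_apply, h]
  · right
    apply φ.injective
    rw [map_mul, map_mul, map_inv, φ.apply_symm_apply, h]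

lemma fD_mul_self : fD φ * fD φ = fD φ := by
  unfold fD
  set e1 := E1 p (φ.symm (a (p : ZMod (2 * p))))
  set e2 := E2 p (φ.symm (a (2 : ZMod (2 * p))))
  have h1 : e1 * e1 = e1 := E1_mul_self (z_sq' φ)
  have h2 : e2 * e2 = e2 := E2_mul_self (c_pow' φ)
  have h3 : e1 * e2 = e2 * e1 := E1_comm (z_central' φ) e2
  calc e1 * e2 * (e1 * e2) = e1 * (e2 * e1) * e2 := by simp only [mul_assoc]
    _ = e1 * (e1 * e2) * e2 := by rw [h3]
    _ = (e1 * e1) * (e2 * e2) := by simp only [mul_assoc]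
    _ = e1 * e2 := by rw [h1, h2]

lemma fD_comm (r : MonoidAlgebra ℚ_[p] G) : fD φ * r = r * fD φ := by
  unfold fD
  rw [mul_assoc, E2_comm (c_pow' φ) (c_conj' φ), ← mul_assoc, E1_comm (z_central' φ), mul_assoc]

lemma coeff_single_mul' {G : Type*} [Group G] (g h : G) (x : MonoidAlgebra ℚ_[p] G) :
    (single g 1 * x).coeff (g * h) = x.coeff h := by
  rw [coeff_single_mul_eq_mul_coeff h (fun m' _ => by rw [mul_right_inj]), one_mul]

lemma two_val (j : ZMod p) :
    2 * ((j.val : ℕ) : ZMod (2 * p)) + 2 * (((-j).val : ℕ) : ZMod (2 * p)) = 0 := by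
  have hpn : NeZero p := ⟨hp.out.ne_zero⟩
  have h1 : ((j.val + (-j).val : ℕ) : ZMod p) = 0 := by
    rw [Nat.cast_add, ZMod.natCast_zmod_val, ZMod.natCast_zmod_val, add_neg_cancel]
  rw [ZMod.natCast_eq_zero_iff] at h1
  obtain ⟨k, hk⟩ := h1
  have h2 : ((j.val : ℕ) : ZMod (2 * p)) + (((-j).val : ℕ) : ZMod (2 * p)) =
      (p : ZMod (2 * p)) * k := by
    rw [← Nat.cast_add, hk, Nat.cast_mul]
  linear_combination 2 * h2 + (k : ZMod (2 * p)) * two_p (p := p)

/-- **No nilpotent elements.** -/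
theorem fD_reduced (h34 : p % 4 = 3) {x : MonoidAlgebra ℚ_[p] G} (hx : fD φ * x = x)
    (hxx : x * x = 0) : x = 0 := by
  classical
  have hpn : NeZero p := ⟨hp.out.ne_zero⟩
  have h3 : E1 p (φ.symm (a (p : ZMod (2 * p)))) * E2 p (φ.symm (a (2 : ZMod (2 * p)))) =
      E2 p (φ.symm (a (2 : ZMod (2 * p)))) * E1 p (φ.symm (a (p : ZMod (2 * p)))) :=
    E1_comm (z_central' φ) _
  have hx1 : E1 p (φ.symm (a (p : ZMod (2 * p)))) * x = x := by
    rw [← hx]
    unfold fD
    rw [← mul_assoc, ← mul_assoc, E1_mul_self (z_sq' φ)]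
  have hx2 : E2 p (φ.symm (a (2 : ZMod (2 * p)))) * x = x := by
    rw [← hx]
    unfold fD
    rw [h3, ← mul_assoc, ← mul_assoc, E2_mul_self (c_pow' φ)]
  have hx1' := of_E1 (z_sq' φ) hx1
  have hx2' := of_E2 (c_pow' φ) hx2
  set Y : MonoidAlgebra ℚ_[p] (QuaternionGroup p) :=
    MonoidAlgebra.mapDomainRingHom ℚ_[p] φ.toMonoidHom x with hY
  have hs : ∀ g : G, MonoidAlgebra.mapDomainRingHom ℚ_[p] φ.toMonoidHom
      (single g (1 : ℚ_[p])) = single (φ g) 1 := by
    intro g
    simp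
  have hY1 : single (a (p : ZMod (2 * p))) 1 * Y = -Y := by
    have h1 := congrArg (MonoidAlgebra.mapDomainRingHom ℚ_[p] φ.toMonoidHom) hx1'
    rw [map_mul, map_neg, hs, φ.apply_symm_apply] at h1
    exact h1
  have hY2 : sc p (a (2 : ZMod (2 * p)) : QuaternionGroup p) * Y = 0 := by
    have h1 := congrArg (MonoidAlgebra.mapDomainRingHom ℚ_[p] φ.toMonoidHom) hx2'
    rw [map_mul, map_zero] at h1
    unfold sc at h1 ⊢
    rw [map_sum] at h1
    simp only [hs, map_pow, φ.apply_symm_apply] at h1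
    exact h1
  have hYY : Y * Y = 0 := by rw [hY, ← map_mul, hxx, map_zero]
  have hcoef : ∀ h : QuaternionGroup p,
      Y.coeff (a (p : ZMod (2 * p)) * h) = -Y.coeff h := by
    intro h
    have h1 := coeff_single_mul' (a (p : ZMod (2 * p))) h Y
    rw [hY1] at h1
    rw [← h1]
    simp
  -- the sums over the cosets of the group of order `p`
  have hsum : ∀ h : QuaternionGroup p, ∑ j : ZMod p, Y.coeff ((a 2 ^ j.val)⁻¹ * h) = 0 := by
    intro h
    have h1 : (sc p (a (2 : ZMod (2 * p)) : QuaternionGroup p) * Y).coeff h =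
        ∑ j : ZMod p, Y.coeff ((a 2 ^ j.val)⁻¹ * h) := by
      unfold sc
      rw [Finset.sum_mul, coeff_sum, Finset.sum_apply']
      refine Finset.sum_congr rfl fun j _ => ?_
      rw [← coeff_single_mul' (a 2 ^ j.val) _ Y, mul_inv_cancel_left]
    rw [← h1, hY2]
    rfl
  have hinv : ∀ j : ZMod p, (a (2 : ZMod (2 * p)) ^ j.val : QuaternionGroup p)⁻¹ =
      a (2 * (((-j).val : ℕ) : ZMod (2 * p))) := by
    intro j
    rw [a_pow, inv_eq_iff_mul_eq_one, QuaternionGroup.a_mul_a]
    have := two_val j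
    rw [show ((j.val : ℕ) : ZMod (2 * p)) * 2 + 2 * (((-j).val : ℕ) : ZMod (2 * p)) = 0 by
      linear_combination this]
    rfl
  have hinv' : ∀ j : ZMod p, (a (2 : ZMod (2 * p)) ^ j.val : QuaternionGroup p)⁻¹ =
      a (-(2 * ((j.val : ℕ) : ZMod (2 * p)))) := by
    intro j
    rw [hinv]
    congr 1
    linear_combination two_val j
  have hX : Y = 0 := by
    refine dic_reduced h34 Y ?_ ?_ ?_ ?_ hYY
    · intro i
      rw [← hcoef, QuaternionGroup.a_mul_a, add_comm]
    · intro i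
      rw [← hcoef, QuaternionGroup.a_mul_xa]
      congr 2
      linear_combination two_p (p := p)
    · intro i
      have h1 := hsum (a i)
      have h2 : ∑ j : ZMod p, Y.coeff ((a 2 ^ j.val)⁻¹ * a i) =
          ∑ j : ZMod p, Y.coeff (a (i + 2 * ((j.val : ℕ) : ZMod (2 * p)))) := by
        refine Fintype.sum_equiv (Equiv.neg (ZMod p)) _ _ fun j => ?_
        rw [hinv, QuaternionGroup.a_mul_a, add_comm]
        rfl
      rw [h2, sum_zmod] at h1
      rw [← h1]
      refine Finset.sum_congr rfl fun j hj => ?_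
      rw [ZMod.val_cast_of_lt (Finset.mem_range.1 hj)]
    · intro i
      have h1 := hsum (xa i)
      have h2 : ∑ j : ZMod p, Y.coeff ((a 2 ^ j.val)⁻¹ * xa i) =
          ∑ j : ZMod p, Y.coeff (xa (i + 2 * ((j.val : ℕ) : ZMod (2 * p)))) := by
        refine Finset.sum_congr rfl fun j _ => ?_
        rw [hinv', QuaternionGroup.a_mul_xa, sub_neg_eq_add]
      rw [h2, sum_zmod] at h1
      rw [← h1]
      refine Finset.sum_congr rfl fun j hj => ?_
      rw [ZMod.val_cast_of_lt (Finset.mem_range.1 hj)]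
  exact (MonoidAlgebra.mapDomain_injective φ.injective) (by simpa [hY] using hX)

end dic

end Pool.Agent.X328.LP
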