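import Pool.Agent.H707R3.OneSubZeta

/-!
# The quaternion algebra `(ℚ_p(ζ_p) / ℚ_p(ζ_p)⁺, -1)`, `p ≡ 3 (mod 4)`
-/

set_option autoImplicit false
set_option linter.unusedSectionVars false

namespace Pool.Agent.X328.LP

open Polynomial Pool.Agent.H707R3

variable {p : ℕ} [hp : Fact p.Prime]

lemma norm_sum_lt {ι : Type*} (s : Finset ι) (f : ι → ℂ_[p]) {C : ℝ} (hC : 0 < C)
    (h : ∀ i ∈ s, ‖f i‖ < C) : ‖∑ i ∈ s, f i‖ < C := by
  classical
  induction s using Finset.induction_on with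
  | empty => simpa using hC
  | insert a s ha ih =>
    rw [Finset.sum_insert ha]
    refine (IsUltrametricDist.norm_add_le_max _ _).trans_lt (max_lt (h a (by simp)) ?_)
    exact ih fun i hi => h i (by simp [hi])

/-- the absolute values of the terms are different -/
lemma distinct {r : ℝ} (hr : 0 < r) (hrp : r ^ (p - 1) = (p : ℝ)⁻¹) {b c : ℚ_[p]} (hb : b ≠ 0)
    (hc : c ≠ 0) {l m : ℕ} (hl : l < p - 1) (hm : m < p - 1) (h : ‖b‖ * r ^ l = ‖c‖ * r ^ m) :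
    l = m := by
  have hp1 : (1 : ℝ) < p := by exact_mod_cast hp.out.one_lt
  have hp0 : (p : ℝ) ≠ 0 := by linarith
  have h1 := congrArg (fun x => x ^ (p - 1)) h
  simp only [mul_pow] at h1
  have h2 : ∀ l : ℕ, (r ^ l) ^ (p - 1) = (p : ℝ) ^ (-(l : ℤ)) := by
    intro l
    rw [← pow_mul, mul_comm, pow_mul, hrp, inv_pow, zpow_neg, zpow_natCast]
  have h3 : ∀ {b : ℚ_[p]}, b ≠ 0 → ‖b‖ ^ (p - 1) = (p : ℝ) ^ (-b.valuation * ((p - 1 : ℕ) : ℤ)) := by
    intro b hb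
    rw [Padic.norm_eq_zpow_neg_valuation hb, zpow_mul, zpow_natCast]
  rw [h2, h2, h3 hb, h3 hc, ← zpow_add₀ hp0, ← zpow_add₀ hp0] at h1
  have h4 := zpow_right_injective₀ (by linarith) hp1.ne' h1
  have h5 : ((p - 1 : ℕ) : ℤ) ∣ (m : ℤ) - (l : ℤ) := ⟨b.valuation - c.valuation, by
    linear_combination h4⟩
  have h6 : |(m : ℤ) - (l : ℤ)| < ((p - 1 : ℕ) : ℤ) := by
    rw [abs_lt]
    constructor <;> omega
  have := Int.eq_zero_of_abs_lt_dvd h5 h6
  omega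

/-- the leading term -/
lemma lead {z : ℂ_[p]} (hz : IsPrimitiveRoot z p) {P : ℚ_[p][X]} (hP : P ≠ 0)
    (hdeg : P.natDegree < p - 1) : ∃ (b : ℚ_[p]) (i : ℕ), b ≠ 0 ∧ i < p - 1 ∧
      ∀ y : ℂ_[p], IsPrimitiveRoot y p →
        ‖aeval y P - algebraMap ℚ_[p] ℂ_[p] b * (y - 1) ^ i‖ < ‖b‖ * ‖z - 1‖ ^ i := by
  classical
  have hr : 0 < ‖z - 1‖ := by
    rw [norm_pos_iff, sub_ne_zero]
    exact hz.ne_one hp.out.one_lt
  have hrp : ‖z - 1‖ ^ (p - 1) = (p : ℝ)⁻¹ := by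
    have h := norm_one_sub_pow_totient (p := p) (n := 0) (z := z) (by simpa using hz)
    rw [zero_add, pow_one, Nat.totient_prime hp.out, norm_sub_rev] at h
    exact h
  set Q : ℚ_[p][X] := P.comp (X + C 1) with hQ
  have hQ0 : Q ≠ 0 := by
    intro h
    apply hP
    have h2 : Q.comp (X - C 1) = P := by
      rw [hQ, comp_assoc]
      simp
    rw [← h2, h, zero_comp]
  have hQd : Q.natDegree < p - 1 := by
    rw [hQ, natDegree_comp, natDegree_X_add_C, mul_one]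
    exact hdeg
  obtain ⟨i, hi, hmax⟩ := Finset.exists_max_image (Finset.range (p - 1))
    (fun l => ‖Q.coeff l‖ * ‖z - 1‖ ^ l) ⟨0, by simp; omega⟩
  rw [Finset.mem_range] at hi
  have hb : Q.coeff i ≠ 0 := by
    intro h0
    apply hQ0
    ext l
    by_cases hl : l < p - 1
    · have h1 := hmax l (Finset.mem_range.2 hl)
      rw [h0, norm_zero, zero_mul] at h1
      have h2 : ‖Q.coeff l‖ ≤ 0 := by
        by_contra h3
        push Not at h3
        exact absurd h1 (not_le.2 (mul_pos h3 (pow_pos hr _)))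
      rw [coeff_zero]
      exact norm_le_zero_iff.1 h2
    · rw [coeff_zero]
      exact coeff_eq_zero_of_natDegree_lt (by omega)
  refine ⟨Q.coeff i, i, hb, hi, fun y hy => ?_⟩
  have hyn : ‖y - 1‖ = ‖z - 1‖ := by
    rw [norm_sub_rev, norm_sub_rev z]
    exact norm_one_sub_eq hp.out.ne_zero hy hz
  have h1 : aeval y P = ∑ l ∈ Finset.range (p - 1),
      algebraMap ℚ_[p] ℂ_[p] (Q.coeff l) * (y - 1) ^ l := by
    have h2 : aeval y P = aeval (y - 1) Q := by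
      rw [hQ, aeval_comp]
      simp
    rw [h2, aeval_eq_sum_range' hQd]
    refine Finset.sum_congr rfl fun l _ => ?_
    rw [Algebra.smul_def]
  rw [h1, ← Finset.add_sum_erase _ _ (Finset.mem_range.2 hi), add_sub_cancel_left]
  refine norm_sum_lt _ _ (mul_pos (norm_pos_iff.2 hb) (pow_pos hr _)) fun l hl => ?_
  rw [Finset.mem_erase, Finset.mem_range] at hl
  rw [norm_mul, norm_pow, hyn, norm_algebraMap']
  refine lt_of_le_of_ne (hmax l (Finset.mem_range.2 hl.2)) fun h => ?_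
  by_cases h0 : Q.coeff l = 0
  · rw [h0, norm_zero, zero_mul] at h
    exact absurd h.symm (mul_pos (norm_pos_iff.2 hb) (pow_pos hr _)).ne'
  · exact hl.1 (distinct hr hrp h0 hb hl.2 hi h)

lemma norm_eq_of_sub_lt {a b : ℂ_[p]} (h : ‖a - b‖ < ‖b‖) : ‖a‖ = ‖b‖ := by
  have h1 : a = (a - b) + b := by ring
  rw [h1]
  rw [IsUltrametricDist.norm_add_eq_max_of_norm_ne_norm h.ne, max_eq_right h.le]

/-- an approximation of a product -/
lemma mul_approx {a a' b b' : ℂ_[p]} {C : ℝ} (hb : ‖b‖ = C) (hb' : ‖b'‖ = C)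
    (h : ‖a - b‖ < C) (h' : ‖a' - b'‖ < C) : ‖a * a' - b * b'‖ < C * C := by
  have hC : 0 < C := (norm_nonneg _).trans_lt h
  have ha : ‖a‖ = C := by rw [norm_eq_of_sub_lt (by rw [hb]; exact h), hb]
  have h1 : a * a' - b * b' = a * (a' - b') + (a - b) * b' := by ring
  rw [h1]
  refine (IsUltrametricDist.norm_add_le_max _ _).trans_lt (max_lt ?_ ?_)
  · rw [norm_mul, ha]
    exact mul_lt_mul_of_pos_left h' hC
  · rw [norm_mul, hb']
    exact mul_lt_mul_of_pos_right h hC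

/-- `-1` is not a square modulo `p` -/
lemma no_root (h34 : p % 4 = 3) {b c : ℚ_[p]} (hb : b ≠ 0) (hbc : ‖b‖ = ‖c‖)
    (h : ‖b * b + c * c‖ < ‖b‖ * ‖b‖) : False := by
  have hb0 : ‖b‖ ≠ 0 := by rwa [norm_ne_zero_iff]
  have ht : ‖c / b‖ ≤ 1 := by rw [norm_div, hbc, div_self (by rw [← hbc]; exact hb0)]
  let t : ℤ_[p] := ⟨c / b, ht⟩
  have h1 : ‖(1 : ℤ_[p]) + t * t‖ < 1 := by
    rw [PadicInt.norm_def]
    have h2 : (((1 : ℤ_[p]) + t * t : ℤ_[p]) : ℚ_[p]) = (b * b + c * c) / (b * b) := by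
      push_cast
      change 1 + c / b * (c / b) = _
      field_simp
    rw [h2, norm_div, norm_mul, div_lt_one (by positivity)]
    exact h
  have h2 : (1 : ℤ_[p]) + t * t ∈ RingHom.ker (PadicInt.toZMod (p := p)) := by
    rw [PadicInt.ker_toZMod]
    exact (IsLocalRing.mem_maximalIdeal _).2 (PadicInt.mem_nonunits.2 h1)
  rw [RingHom.mem_ker, map_add, map_mul, map_one] at h2
  have h3 : IsSquare (-1 : ZMod p) := ⟨PadicInt.toZMod t, by linear_combination -h2⟩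
  exact ZMod.exists_sq_eq_neg_one_iff.1 h3 h34

/-- **The norm form is anisotropic.** -/
theorem anisotropic (h34 : p % 4 = 3) {z : ℂ_[p]} (hz : IsPrimitiveRoot z p) {P Q : ℚ_[p][X]}
    (hP : P.natDegree < p - 1) (hQ : Q.natDegree < p - 1)
    (h : aeval z P * aeval z⁻¹ P + aeval z Q * aeval z⁻¹ Q = 0) : P = 0 ∧ Q = 0 := by
  have hz' : IsPrimitiveRoot z⁻¹ p := hz.inv
  have hr : 0 < ‖z - 1‖ := by
    rw [norm_pos_iff, sub_ne_zero]
    exact hz.ne_one hp.out.one_lt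
  have hrp : ‖z - 1‖ ^ (p - 1) = (p : ℝ)⁻¹ := by
    have h := norm_one_sub_pow_totient (p := p) (n := 0) (z := z) (by simpa using hz)
    rw [zero_add, pow_one, Nat.totient_prime hp.out, norm_sub_rev] at h
    exact h
  have hn : ∀ {y : ℂ_[p]}, IsPrimitiveRoot y p → ‖y - 1‖ = ‖z - 1‖ := by
    intro y hy
    rw [norm_sub_rev, norm_sub_rev z]
    exact norm_one_sub_eq hp.out.ne_zero hy hz
  have hnt : ∀ (b : ℚ_[p]) (i : ℕ) {y : ℂ_[p]}, IsPrimitiveRoot y p →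
      ‖algebraMap ℚ_[p] ℂ_[p] b * (y - 1) ^ i‖ = ‖b‖ * ‖z - 1‖ ^ i := by
    intro b i y hy
    rw [norm_mul, norm_pow, hn hy, norm_algebraMap']
  -- nonzero polynomials have nonzero values
  have hne : ∀ {P : ℚ_[p][X]}, P.natDegree < p - 1 → P ≠ 0 → ∀ {y : ℂ_[p]}, IsPrimitiveRoot y p →
      aeval y P ≠ 0 := by
    intro P hP hP0 y hy h0
    obtain ⟨b, i, hb, hi, hbi⟩ := lead hz hP0 hP
    have h1 := hbi y hy
    rw [h0, zero_sub, norm_neg, hnt b i hy] at h1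
    exact lt_irrefl _ h1
  by_cases hP0 : P = 0
  · refine ⟨hP0, ?_⟩
    by_contra hQ0
    rw [hP0, map_zero, zero_mul, zero_add] at h
    rcases mul_eq_zero.1 h with h1 | h1
    · exact hne hQ hQ0 hz h1
    · exact hne hQ hQ0 hz' h1
  by_cases hQ0 : Q = 0
  · exfalso
    rw [hQ0, map_zero, zero_mul, add_zero] at h
    rcases mul_eq_zero.1 h with h1 | h1
    · exact hne hP hP0 hz h1
    · exact hne hP hP0 hz' h1
  exfalso
  obtain ⟨b, i, hb, hi, hbi⟩ := lead hz hP0 hP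
  obtain ⟨c, j, hc, hj, hcj⟩ := lead hz hQ0 hQ
  have h1 := mul_approx (hnt b i hz) (hnt b i hz') (hbi z hz) (hbi z⁻¹ hz')
  have h2 := mul_approx (hnt c j hz) (hnt c j hz') (hcj z hz) (hcj z⁻¹ hz')
  have h1' : ‖aeval z P * aeval z⁻¹ P‖ = (‖b‖ * ‖z - 1‖ ^ i) * (‖b‖ * ‖z - 1‖ ^ i) := by
    rw [← hnt b i hz]
    nth_rewrite 2 [hnt b i hz]
    rw [← hnt b i hz', ← norm_mul]
    refine norm_eq_of_sub_lt ?_
    rw [norm_mul, hnt b i hz, hnt b i hz']
    exact h1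
  have h2' : ‖aeval z Q * aeval z⁻¹ Q‖ = (‖c‖ * ‖z - 1‖ ^ j) * (‖c‖ * ‖z - 1‖ ^ j) := by
    rw [← hnt c j hz]
    nth_rewrite 2 [hnt c j hz]
    rw [← hnt c j hz', ← norm_mul]
    refine norm_eq_of_sub_lt ?_
    rw [norm_mul, hnt c j hz, hnt c j hz']
    exact h2
  have h3 : aeval z P * aeval z⁻¹ P = -(aeval z Q * aeval z⁻¹ Q) := by linear_combination h
  rw [h3, norm_neg, h2'] at h1'
  have hbp : 0 ≤ ‖b‖ * ‖z - 1‖ ^ i := by positivity
  have hcp : 0 ≤ ‖c‖ * ‖z - 1‖ ^ j := by positivity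
  have h4 : ‖b‖ * ‖z - 1‖ ^ i = ‖c‖ * ‖z - 1‖ ^ j := by nlinarith [mul_self_inj hcp hbp |>.1 h1']
  have hij := distinct hr hrp hb hc hi hj h4
  subst hij
  have hri : 0 < ‖z - 1‖ ^ i := pow_pos hr _
  have hbc : ‖b‖ = ‖c‖ := mul_right_cancel₀ hri.ne' h4
  refine no_root h34 hb hbc ?_
  have h5 : algebraMap ℚ_[p] ℂ_[p] (b * b + c * c) * ((z - 1) ^ i * (z⁻¹ - 1) ^ i) =
      -((aeval z P * aeval z⁻¹ P - algebraMap ℚ_[p] ℂ_[p] b * (z - 1) ^ i *
        (algebraMap ℚ_[p] ℂ_[p] b * (z⁻¹ - 1) ^ i)) +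
      (aeval z Q * aeval z⁻¹ Q - algebraMap ℚ_[p] ℂ_[p] c * (z - 1) ^ i *
        (algebraMap ℚ_[p] ℂ_[p] c * (z⁻¹ - 1) ^ i))) := by
    rw [map_add, map_mul, map_mul]
    linear_combination h
  have h6 := congrArg norm h5
  rw [norm_neg, norm_mul, norm_mul, norm_pow, norm_pow, hn hz', norm_algebraMap'] at h6
  have h7 : ‖b * b + c * c‖ * (‖z - 1‖ ^ i * ‖z - 1‖ ^ i) <
      (‖b‖ * ‖b‖) * (‖z - 1‖ ^ i * ‖z - 1‖ ^ i) := by
    rw [h6]
    refine (IsUltrametricDist.norm_add_le_max _ _).trans_lt (max_lt ?_ ?_)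
    · calc _ < _ := h1
        _ = _ := by ring
    · calc _ < _ := h2
        _ = _ := by rw [hbc]; ring
  exact lt_of_mul_lt_mul_right h7 (by positivity)

end Pool.Agent.X328.LP
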