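import Pool.Agent.W332.SL6.Units

/-!
# Minkowski units in Galois extensions of fields with finitely many units
-/

set_option autoImplicit false
set_option linter.unusedSectionVars false

namespace Pool.Agent.X328.LP

open NumberField Pool.Agent.W289.SL Pool.Agent.W332.SL6
open NumberField.Units NumberField.Units.dirichletUnitTheorem Module Finset

variable {k F : Type} [Field k] [NumberField k] [Field F] [NumberField F] [Algebra k F]

/-- the action of the Galois group on the units, written additively -/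
noncomputable def gu (g : F ≃ₐ[k] F) : Additive (𝓞 F)ˣ →+ Additive (𝓞 F)ˣ := uMap (g : F →+* F)

lemma gu_coe (g : F ≃ₐ[k] F) (u : Additive (𝓞 F)ˣ) :
    (((Additive.toMul (gu g u) : (𝓞 F)ˣ) : 𝓞 F) : F) = g ((Additive.toMul u : (𝓞 F)ˣ) : 𝓞 F) := rfl

lemma gu_mul (g h : F ≃ₐ[k] F) (u : Additive (𝓞 F)ˣ) : gu (g * h) u = gu g (gu h u) := by
  unfold gu
  rw [uMap_comp]
  rfl

lemma gu_one (u : Additive (𝓞 F)ˣ) : gu (1 : F ≃ₐ[k] F) u = u := by
  apply Additive.toMul.injective
  apply Units.ext
  apply RingOfIntegers.ext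
  rfl

/-- the logarithm of the absolute value of a unit at an infinite place -/
noncomputable def lw (w : InfinitePlace F) (u : Additive (𝓞 F)ˣ) : ℝ :=
  Real.log (w ((Additive.toMul u : (𝓞 F)ˣ) : 𝓞 F))

lemma lw_add (w : InfinitePlace F) (u v : Additive (𝓞 F)ˣ) : lw w (u + v) = lw w u + lw w v := by
  have h1 : w (((Additive.toMul (u + v) : (𝓞 F)ˣ) : 𝓞 F) : F) =
      w ((Additive.toMul u : (𝓞 F)ˣ) : 𝓞 F) * w ((Additive.toMul v : (𝓞 F)ˣ) : 𝓞 F) := by
    rw [← map_mul]
    rfl
  unfold lw
  rw [h1, Real.log_mul (pos_at_place _ w).ne' (pos_at_place _ w).ne']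

lemma lw_zero (w : InfinitePlace F) : lw w (0 : Additive (𝓞 F)ˣ) = 0 := by
  have h := lw_add w 0 (0 : Additive (𝓞 F)ˣ)
  rw [add_zero] at h
  linarith

lemma lw_sum {ι : Type*} (w : InfinitePlace F) (s : Finset ι) (f : ι → Additive (𝓞 F)ˣ) :
    lw w (∑ i ∈ s, f i) = ∑ i ∈ s, lw w (f i) := by
  classical
  induction s using Finset.induction_on with
  | empty => simp [lw_zero]
  | insert a s ha ih => rw [Finset.sum_insert ha, Finset.sum_insert ha, lw_add, ih]

lemma lw_gu (g : F ≃ₐ[k] F) (w : InfinitePlace F) (u : Additive (𝓞 F)ˣ) :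
    lw w (gu g u) = lw (g⁻¹ • w) u := by
  unfold lw
  rw [gu_coe, InfinitePlace.smul_apply]
  rfl

variable [IsGalois k F]

lemma exists_place (hk : Units.rank k = 0) (w w' : InfinitePlace F) : ∃ g : F ≃ₐ[k] F, g • w = w' := by
  apply InfinitePlace.exists_smul_eq_of_comap_eq
  have h1 : Fintype.card (InfinitePlace k) ≤ 1 := by
    unfold Units.rank at hk
    omega
  exact (Fintype.card_le_one_iff.1 h1) _ _

open Classical in
/-- a unit which is large at one place only and invariant under the stabiliser of the place -/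
lemma exists_u (w₁ : InfinitePlace F) : ∃ u : Additive (𝓞 F)ˣ, (∀ w, w ≠ w₁ → lw w u < 0) ∧
    ∀ d : F ≃ₐ[k] F, d • w₁ = w₁ → gu d u = u := by
  obtain ⟨u, hu⟩ := exists_unit F w₁
  have : FiniteDimensional k F := Module.Finite.of_restrictScalars_finite ℚ k F
  refine ⟨∑ d : F ≃ₐ[k] F with d • w₁ = w₁, gu d (Additive.ofMul u), ?_, ?_⟩
  · intro w hw
    rw [lw_sum]
    refine Finset.sum_neg (fun d hd => ?_) ⟨1, by simp⟩
    rw [lw_gu]
    refine hu _ ?_
    intro h
    apply hw
    simp only [Finset.mem_filter, Finset.mem_univ, true_and] at hd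
    rw [← hd, ← h, smul_inv_smul]
  · intro d hd
    rw [map_sum]
    refine Finset.sum_bij' (fun x _ => d * x) (fun x _ => d⁻¹ * x) ?_ ?_ ?_ ?_ ?_
    · intro x hx
      simp only [Finset.mem_filter, Finset.mem_univ, true_and] at hx ⊢
      rw [mul_smul, hx, hd]
    · intro x hx
      simp only [Finset.mem_filter, Finset.mem_univ, true_and] at hx ⊢
      rw [mul_smul, hx]
      exact inv_smul_eq_iff.2 hd.symm
    · intro x _; simp
    · intro x _; simp
    · intro x _
      rw [gu_mul]

/-- **Minkowski units.** -/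
theorem exists_minkowski (hk : Units.rank k = 0) (w₁ : InfinitePlace F) :
    ∃ u : Additive (𝓞 F)ˣ, (∀ d : F ≃ₐ[k] F, d • w₁ = w₁ → gu d u = u) ∧
      ∀ ε : Additive (𝓞 F)ˣ, ∃ (m : ℤ) (x : (F ≃ₐ[k] F) → ℤ), m ≠ 0 ∧
        m • ε = ∑ g, x g • gu g u := by
  classical
  have : FiniteDimensional k F := Module.Finite.of_restrictScalars_finite ℚ k F
  obtain ⟨u, hu, hd⟩ := exists_u (k := k) w₁
  refine ⟨u, hd, fun ε => ?_⟩
  choose γ hγ using fun w : {w : InfinitePlace F // w ≠ w₀} => exists_place (k := k) hk w₁ w.1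
  let v : {w : InfinitePlace F // w ≠ w₀} → Additive (𝓞 F)ˣ := fun w => gu (γ w) u
  have hneg : ∀ (w : {w : InfinitePlace F // w ≠ w₀}) (w' : InfinitePlace F), w' ≠ w.1 →
      lw w' (v w) < 0 := by
    intro w w' hw'
    change lw w' (gu (γ w) u) < 0
    rw [lw_gu]
    refine hu _ fun h => hw' ?_
    rw [← hγ w, ← h, smul_inv_smul]
  -- the determinant
  have hdet : LinearIndependent ℝ (fun w => logEmbedding F (v w)) := by
    let A : Matrix {w : InfinitePlace F // w ≠ w₀} {w : InfinitePlace F // w ≠ w₀} ℝ :=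
      Matrix.of fun w x => logEmbedding F (v w) x
    have hcomp : ∀ w x, A w x = InfinitePlace.mult x.1 * lw x.1 (v w) := fun w x => rfl
    have hsum : ∀ w, ∑ x, A w x = -(InfinitePlace.mult (w₀ : InfinitePlace F) *
        lw w₀ (v w)) := by
      intro w
      have := sum_logEmbedding_component (Additive.toMul (v w))
      rw [ofMul_toMul] at this
      rw [← neg_mul]
      exact this
    have hpos : ∀ x : InfinitePlace F, (0 : ℝ) < InfinitePlace.mult x := fun x => by
      exact_mod_cast InfinitePlace.mult_pos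
    have h1 : A.det ≠ 0 := by
      refine det_ne_zero_of_sum_row_lt_diag (fun w ↦ ?_)
      simp_rw [Real.norm_eq_abs]
      rw [← sub_pos, sum_congr rfl (fun x hx ↦ abs_of_neg ?_), sum_neg_distrib, sub_neg_eq_add,
        sum_erase_eq_sub (mem_univ _), ← add_comm_sub]
      · refine add_pos_of_nonneg_of_pos ?_ ?_
        · rw [sub_nonneg]
          exact le_abs_self _
        · rw [hsum, neg_pos]
          exact mul_neg_of_pos_of_neg (hpos _) (hneg w w₀ w.2.symm)
      · rw [hcomp]
        exact mul_neg_of_pos_of_neg (hpos _) (hneg w x.1 (Subtype.ext_iff.not.mp (ne_of_mem_erase hx)))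
    exact Matrix.linearIndependent_rows_of_det_ne_zero h1
  have hv : LinearIndependent ℤ v := by
    have h1 : LinearIndependent ℤ (fun w => logEmbedding F (v w)) := by
      rw [Fintype.linearIndependent_iff] at hdet ⊢
      intro c hc w
      have h2 := hdet (fun w => (c w : ℝ)) (by
        rw [← hc]
        refine Finset.sum_congr rfl fun w _ => ?_
        rw [Int.cast_smul_eq_zsmul]) w
      exact_mod_cast h2
    exact LinearIndependent.of_comp (logEmbedding F).toIntLinearMap h1
  -- the family with one more unit is dependent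
  have hdep : ¬ LinearIndependent ℤ (fun o : Option {w : InfinitePlace F // w ≠ w₀} =>
      o.elim ε v) := by
    intro h
    have h2 := h.fintype_card_le_finrank
    rw [Units.finrank_eq, Fintype.card_option, ← Units.finrank_eq_rank,
      Module.finrank_fintype_fun_eq_card] at h2
    omega
  rw [Fintype.not_linearIndependent_iff] at hdep
  obtain ⟨c, hc, o, ho⟩ := hdep
  rw [Fintype.sum_option] at hc
  simp only [Option.elim] at hc
  have hc0 : c none ≠ 0 := by
    intro h0
    rw [h0, zero_smul, zero_add] at hc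
    have h1 := (Fintype.linearIndependent_iff.1 hv) (fun w => c (some w)) hc
    rcases o with _ | w
    · exact ho h0
    · exact ho (h1 w)
  refine ⟨c none, fun g => -∑ w : {w : InfinitePlace F // w ≠ w₀}, if γ w = g then c (some w) else 0,
    hc0, ?_⟩
  have h1 : c none • ε = -∑ w, c (some w) • v w := by
    rw [eq_neg_iff_add_eq_zero]
    exact hc
  rw [h1]
  have h2 : ∑ g, (-∑ w : {w : InfinitePlace F // w ≠ w₀}, if γ w = g then c (some w) else 0) •
      gu g u = -∑ g, ∑ w : {w : InfinitePlace F // w ≠ w₀}, (if γ w = g then c (some w) else 0) •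
      gu g u := by
    rw [← Finset.sum_neg_distrib]
    refine Finset.sum_congr rfl fun g _ => ?_
    rw [neg_smul, Finset.sum_smul]
  rw [h2, Finset.sum_comm]
  congr 1
  refine Finset.sum_congr rfl fun w _ => ?_
  rw [Finset.sum_eq_single (γ w)]
  · rw [if_pos rfl]
  · intro g _ hg
    rw [if_neg (Ne.symm hg), zero_smul]
  · simp

end Pool.Agent.X328.LP
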