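import Pool.Agent.X328.LP.Alg2
import Pool.Agent.X328.LP.Unit
import Pool.Agent.W332.SL6.LogC
import Pool.Agent.Y944.LC.BRU

/-!
# Leopoldt's conjecture and Hecke algebras without nilpotent elements
-/

set_option autoImplicit false
set_option linter.unusedSectionVars false

namespace Pool.Agent.X328.LP

open NumberField Pool.Agent.W289.SL Pool.Agent.W332.SL6 MonoidAlgebra TensorProduct

section avg

variable {K : Type*} [Field K] [CharZero K] {G : Type*} [Group G] [Fintype G]

open Classical in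
/-- the average of the elements of a subgroup, in the group algebra -/
noncomputable def avg (K : Type*) [Field K] {G : Type*} [Group G] [Fintype G] (D : Subgroup G) :
    MonoidAlgebra K G :=
  (Nat.card D : K)⁻¹ • ∑ d : G with d ∈ D, single d 1

open Classical in
lemma card_filter (D : Subgroup G) : (Finset.univ.filter fun d : G => d ∈ D).card = Nat.card D := by
  rw [Nat.card_eq_fintype_card, Fintype.card_subtype]

open Classical in
lemma avg_mul_self (D : Subgroup G) : avg K D * avg K D = avg K D := by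
  have hn : (Nat.card D : K) ≠ 0 := Nat.cast_ne_zero.2 Nat.card_pos.ne'
  have h1 : ∀ d ∈ D, single d (1 : K) * ∑ e : G with e ∈ D, single e 1 =
      ∑ e : G with e ∈ D, single e 1 := by
    intro d hd
    rw [Finset.mul_sum]
    refine Finset.sum_bij' (fun x _ => d * x) (fun x _ => d⁻¹ * x) ?_ ?_ ?_ ?_ ?_
    · intro x hx
      simp only [Finset.mem_filter, Finset.mem_univ, true_and] at hx ⊢
      exact D.mul_mem hd hx
    · intro x hx
      simp only [Finset.mem_filter, Finset.mem_univ, true_and] at hx ⊢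
      exact D.mul_mem (D.inv_mem hd) hx
    · intro x _; simp
    · intro x _; simp
    · intro x _
      rw [single_mul_single, one_mul]
  unfold avg
  rw [smul_mul_smul_comm, Finset.sum_mul, Finset.sum_congr rfl (g := fun _ =>
    ∑ e : G with e ∈ D, single e (1 : K)), Finset.sum_const, card_filter,
    ← Nat.cast_smul_eq_nsmul K, smul_smul, mul_assoc, inv_mul_cancel₀ hn, mul_one]
  intro d hd
  exact h1 d (Finset.mem_filter.1 hd).2

end avg

variable {p : ℕ} [hp : Fact p.Prime]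
variable {k F : Type} [Field k] [NumberField k] [Field F] [NumberField F] [Algebra k F]

/-- the action of the Galois group on `ℂ_p ⊗ 𝓞_F^×` -/
noncomputable def rho (p : ℕ) [Fact p.Prime] (k F : Type) [Field k] [NumberField k] [Field F]
    [NumberField F] [Algebra k F] : (F ≃ₐ[k] F) →* Module.End ℚ_[p] (UM p F) where
  toFun g := (actLin p (g : F →+* F)).restrictScalars ℚ_[p]
  map_one' := by
    refine LinearMap.ext fun x => ?_
    change actLin p (RingHom.id F) x = x
    induction x using TensorProduct.induction_on with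
    | zero => rw [map_zero]
    | tmul c u => rfl
    | add x y hx hy => rw [map_add, hx, hy]
  map_mul' g h := by
    refine LinearMap.ext fun x => ?_
    change actLin p ((g * h : F ≃ₐ[k] F) : F →+* F) x =
      actLin p (g : F →+* F) (actLin p (h : F →+* F) x)
    rw [actLin_eq, actLin_eq, actLin_eq, push_push]
    rfl

lemma rho_tmul (g : F ≃ₐ[k] F) (c : ℂ_[p]) (u : Additive (𝓞 F)ˣ) :
    rho p k F g (c ⊗ₜ u : UM p F) = c ⊗ₜ gu g u := rfl

lemma logLin_rho {L : ℂ_[p] → ℂ_[p]} (hL : IsIwasawaLog p L) (σ : F →+* ℂ_[p]) (g : F ≃ₐ[k] F)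
    (x : UM p F) : logLin hL σ (rho p k F g x) = logLin hL (σ.comp (g : F →+* F)) x :=
  logLin_push hL _ σ x

/-- the action of the group algebra -/
noncomputable def act (p : ℕ) [Fact p.Prime] (k F : Type) [Field k] [NumberField k] [Field F]
    [NumberField F] [Algebra k F] : MonoidAlgebra ℚ_[p] (F ≃ₐ[k] F) →ₐ[ℚ_[p]]
      Module.End ℚ_[p] (UM p F) := MonoidAlgebra.lift ℚ_[p] _ _ (rho p k F)

lemma act_single (g : F ≃ₐ[k] F) (c : ℚ_[p]) (x : UM p F) :
    act p k F (single g c) x = c • rho p k F g x := by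
  unfold act
  rw [MonoidAlgebra.lift_single]
  rfl

lemma act_mul (a b : MonoidAlgebra ℚ_[p] (F ≃ₐ[k] F)) (x : UM p F) :
    act p k F (a * b) x = act p k F a (act p k F b x) := by
  rw [map_mul]
  rfl

/-- the vectors killed by all logarithms -/
def Ker {L : ℂ_[p] → ℂ_[p]} (hL : IsIwasawaLog p L) (x : UM p F) : Prop :=
  ∀ σ : F →+* ℂ_[p], logLin hL σ x = 0

lemma logLin_smulQ {L : ℂ_[p] → ℂ_[p]} (hL : IsIwasawaLog p L) (σ : F →+* ℂ_[p]) (c : ℚ_[p])
    (x : UM p F) : logLin hL σ (c • x) = algebraMap ℚ_[p] ℂ_[p] c * logLin hL σ x := by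
  rw [← algebraMap_smul ℂ_[p] c x, map_smul, smul_eq_mul]

lemma ker_act {L : ℂ_[p] → ℂ_[p]} (hL : IsIwasawaLog p L) {x : UM p F} (hx : Ker hL x)
    (a : MonoidAlgebra ℚ_[p] (F ≃ₐ[k] F)) : Ker hL (act p k F a x) := by
  induction a using MonoidAlgebra.induction_linear with
  | zero =>
    intro σ
    rw [map_zero, LinearMap.zero_apply, map_zero]
  | add a b ha hb =>
    intro σ
    rw [map_add, LinearMap.add_apply, map_add, ha σ, hb σ, add_zero]
  | single g c =>
    intro σ
    rw [act_single, logLin_smulQ, logLin_rho, hx, mul_zero]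

lemma act_mem_AU {a : MonoidAlgebra ℚ_[p] (F ≃ₐ[k] F)} (ha : ∀ g, IsAlgebraic ℚ (a.coeff g))
    (u : Additive (𝓞 F)ˣ) [FiniteDimensional k F] :
    act p k F a ((1 : ℂ_[p]) ⊗ₜ[ℤ] u) ∈ AU p F := by
  classical
  have h1 : a = ∑ g, single g (a.coeff g) := by
    ext g
    rw [coeff_sum, Finset.sum_apply']
    simp only [coeff_single, Finsupp.single_apply]
    rw [Finset.sum_ite_eq']
    simp
  rw [h1, map_sum, LinearMap.sum_apply]
  refine Submodule.sum_mem _ fun g _ => ?_
  rw [act_single, ← algebraMap_smul ℂ_[p]]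
  exact smul_mem_AU (one_tmul_mem _) ((ha g).algebraMap)


variable [IsGalois k F]

open Classical in
lemma act_avg {w : InfinitePlace F} {u : Additive (𝓞 F)ˣ}
    (hu : ∀ d : F ≃ₐ[k] F, d • w = w → gu d u = u) :
    act p k F (avg ℚ_[p] (MulAction.stabilizer (F ≃ₐ[k] F) w)) ((1 : ℂ_[p]) ⊗ₜ[ℤ] u) =
      (1 : ℂ_[p]) ⊗ₜ[ℤ] u := by
  have hn : (Nat.card (MulAction.stabilizer (F ≃ₐ[k] F) w) : ℚ_[p]) ≠ 0 :=
    Nat.cast_ne_zero.2 Nat.card_pos.ne'
  unfold avg
  rw [map_smul, map_sum, LinearMap.smul_apply, LinearMap.sum_apply, Finset.sum_congr rfl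
    (g := fun _ => (1 : ℂ_[p]) ⊗ₜ[ℤ] u), Finset.sum_const, card_filter,
    ← Nat.cast_smul_eq_nsmul ℚ_[p], smul_smul, inv_mul_cancel₀ hn, one_smul]
  intro d hd
  rw [Finset.mem_filter] at hd
  rw [act_single, one_smul, rho_tmul, hu d hd.2]

/-- **The kernel of the logarithms on the module generated by a unit**, if the Hecke algebra of the
decomposition group of an infinite place has no nilpotent elements. -/
theorem ker_trivial {L : ℂ_[p] → ℂ_[p]} (hL : IsIwasawaLog p L) (w : InfinitePlace F)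
    (hred : ∀ x : MonoidAlgebra ℚ_[p] (F ≃ₐ[k] F),
      avg ℚ_[p] (MulAction.stabilizer (F ≃ₐ[k] F) w) * x *
        avg ℚ_[p] (MulAction.stabilizer (F ≃ₐ[k] F) w) = x → x * x = 0 → x = 0)
    {u : Additive (𝓞 F)ˣ} (hu : ∀ d : F ≃ₐ[k] F, d • w = w → gu d u = u)
    {x : MonoidAlgebra ℚ_[p] (F ≃ₐ[k] F)}
    (hx : Ker hL (act p k F x ((1 : ℂ_[p]) ⊗ₜ[ℤ] u))) :
    act p k F x ((1 : ℂ_[p]) ⊗ₜ[ℤ] u) = 0 := by
  have hfd : FiniteDimensional k F := Module.Finite.of_restrictScalars_finite ℚ k F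
  set e := avg ℚ_[p] (MulAction.stabilizer (F ≃ₐ[k] F) w) with he
  set η : UM p F := (1 : ℂ_[p]) ⊗ₜ[ℤ] u with hη
  have heη : act p k F e η = η := act_avg hu
  let N : Ideal (MonoidAlgebra ℚ_[p] (F ≃ₐ[k] F)) :=
    { carrier := {a | Ker hL (act p k F a η)}
      add_mem' := by
        intro a b ha hb σ
        rw [map_add, LinearMap.add_apply, map_add, ha σ, hb σ, add_zero]
      zero_mem' := by
        intro σ
        rw [map_zero, LinearMap.zero_apply, map_zero]
      smul_mem' := by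
        intro c a ha
        change Ker hL (act p k F (c * a) η)
        rw [act_mul]
        exact ker_act hL ha c }
  have : NeZero (Nat.card (F ≃ₐ[k] F) : ℚ_[p]) := ⟨Nat.cast_ne_zero.2 Nat.card_pos.ne'⟩
  obtain ⟨z, hz, hzc, ⟨x0, hx0, hx0'⟩, hN⟩ :=
    exists_central_of_hecke (avg_mul_self (K := ℚ_[p]) (MulAction.stabilizer (F ≃ₐ[k] F) w))
      hred N
  rw [← he] at hx0' hN
  -- the central idempotent kills the unit, by Brumer's theorem
  have hzη : act p k F z η = 0 := by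
    have h1 : Ker hL (act p k F z η) := by
      have h2 : act p k F z η = act p k F x0 η := by
        calc act p k F z η = act p k F (z * e) η := by rw [act_mul, heη]
          _ = act p k F x0 η := by rw [← hx0', act_mul, heη]
      rw [h2]
      exact hx0
    have h2 : act p k F z η ∈ AU p F := act_mem_AU (coeff_alg hz hzc) u
    have hσ : Nonempty (F →+* ℂ_[p]) := inferInstance
    exact eq_zero_of_log hL hσ.some h2 (h1 _)
  have h3 := hN x hx
  calc act p k F x η = act p k F (x * e) η := by rw [act_mul, heη]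
    _ = act p k F (x * e * z) η := by rw [h3]
    _ = 0 := by rw [act_mul, hzη, map_zero]

lemma tmul_zsmul' (n : ℤ) (y : Additive (𝓞 F)ˣ) :
    (1 : ℂ_[p]) ⊗ₜ[ℤ] (n • y) = (n : ℚ_[p]) • ((1 : ℂ_[p]) ⊗ₜ[ℤ] y : UM p F) := by
  have h := map_zsmul ((TensorProduct.mk ℤ ℂ_[p] (Additive (𝓞 F)ˣ)) 1) n y
  rw [Int.cast_smul_eq_zsmul]
  exact h

/-- **Leopoldt's conjecture and Hecke algebras.** -/
theorem leopoldt_of_hecke (hk : Units.rank k = 0) (w : InfinitePlace F)
    (hred : ∀ x : MonoidAlgebra ℚ_[p] (F ≃ₐ[k] F),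
      avg ℚ_[p] (MulAction.stabilizer (F ≃ₐ[k] F) w) * x *
        avg ℚ_[p] (MulAction.stabilizer (F ≃ₐ[k] F) w) = x → x * x = 0 → x = 0) :
    Pool.Agent.H637R2.Leo.Leopoldt F p := by
  classical
  intro n ε _ hind a m hma hdiv
  obtain ⟨L, hL⟩ := exists_iwasawaLog p
  obtain ⟨u, hu, hspan⟩ := exists_minkowski (k := k) hk w
  choose m0 x0 hm0 hx0 using fun i => hspan (Additive.ofMul (ε i))
  set v : UM p F := ∑ i, (a i : ℚ_[p]) • ((1 : ℂ_[p]) ⊗ₜ[ℤ] Additive.ofMul (ε i)) with hv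
  have hker : Ker hL v := by
    intro σ
    rw [hv, map_sum, ← Pool.Agent.Y944.LC.rel_of_lim hL n ε a m hma hdiv σ]
    refine Finset.sum_congr rfl fun i _ => ?_
    rw [logLin_smulQ, logLin_tmul', one_mul]
    rfl
  set x : MonoidAlgebra ℚ_[p] (F ≃ₐ[k] F) :=
    ∑ i, ∑ g, single g ((a i : ℚ_[p]) * ((m0 i : ℚ_[p])⁻¹ * (x0 i g : ℚ_[p]))) with hx
  have hxv : act p k F x ((1 : ℂ_[p]) ⊗ₜ[ℤ] u) = v := by
    rw [hx, map_sum, LinearMap.sum_apply, hv]
    refine Finset.sum_congr rfl fun i _ => ?_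
    rw [map_sum, LinearMap.sum_apply]
    have h1 : ∀ g, act p k F (single g ((a i : ℚ_[p]) * ((m0 i : ℚ_[p])⁻¹ * (x0 i g : ℚ_[p]))))
        ((1 : ℂ_[p]) ⊗ₜ[ℤ] u) = ((a i : ℚ_[p]) * (m0 i : ℚ_[p])⁻¹) •
          ((1 : ℂ_[p]) ⊗ₜ[ℤ] (x0 i g • gu g u)) := by
      intro g
      rw [act_single, rho_tmul, tmul_zsmul', ← mul_assoc, mul_smul]
    have h2 : (1 : ℂ_[p]) ⊗ₜ[ℤ] (m0 i • Additive.ofMul (ε i)) =
        ∑ g, (1 : ℂ_[p]) ⊗ₜ[ℤ] (x0 i g • gu g u) := by
      rw [hx0 i, TensorProduct.tmul_sum]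
    rw [Finset.sum_congr rfl fun g _ => h1 g, ← Finset.smul_sum, ← h2, tmul_zsmul', smul_smul,
      mul_assoc, inv_mul_cancel₀ (by exact_mod_cast hm0 i), mul_one]
  have hv0 : v = 0 := by
    rw [← hxv]
    exact ker_trivial hL w hred hu (by rw [hxv]; exact hker)
  -- independence
  have hli : LinearIndependent ℤ (fun i => (Additive.ofMul (ε i) : Additive (𝓞 F)ˣ)) := by
    rw [Fintype.linearIndependent_iff]
    intro c hc
    have h1 : ∏ i, ε i ^ c i = 1 := by
      have h2 := congrArg Additive.toMul hc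
      rw [toMul_sum, toMul_zero] at h2
      exact h2
    exact congrFun (hind c h1)
  have hli' := Module.Flat.linearIndependent_one_tmul (S := ℂ_[p]) hli
  rw [Fintype.linearIndependent_iff] at hli'
  funext i
  have h1 := hli' (fun i => algebraMap ℚ_[p] ℂ_[p] (a i : ℚ_[p])) (by
    rw [← hv0, hv]
    refine Finset.sum_congr rfl fun i _ => ?_
    rw [algebraMap_smul]) i
  rw [map_eq_zero] at h1
  exact PadicInt.coe_eq_zero.1 h1

end Pool.Agent.X328.LP
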