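import Pool.Agent.X328.LP.Main
import Pool.Agent.X328.LP.Quat
import Pool.Agent.Y758.LC.DSC

/-!
# Leopoldt's conjecture and Hecke algebras: intermediate fields
-/

set_option autoImplicit false
set_option linter.unusedSectionVars false

namespace Pool.Agent.X328.LP

open NumberField Pool.Agent.W289.SL Pool.Agent.W332.SL6 MonoidAlgebra TensorProduct

section ring

variable {R : Type*} [Ring R] [IsSemisimpleRing R]

/-- the two-sided ideal generated by an idempotent `h`, and an idempotent `e` -/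
theorem exists_pair {e h : R} (he : e * e = e) (N : Ideal R)
    (hred : ∀ x : R, (∃ (n : ℕ) (a b : Fin n → R), x = ∑ i, e * a i * h * b i * e) → x * x = 0 →
      x = 0) :
    ∃ y z : R, y * y = y ∧ (∀ r, y * r = r * y) ∧ y * h = h ∧ z * z = z ∧ (∀ r, z * r = r * z) ∧
      (∃ x ∈ N, x * y * e = z * y * e) ∧ ∀ x ∈ N, x * y * e * z = x * y * e := by
  obtain ⟨y, hy, hyc, hyh, hyJ⟩ := exists_central h
  -- every element of `y R` is a sum of products `a h b`
  have hsum : ∀ w ∈ Submodule.span R (Set.range fun b : R => h * b),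
      ∃ (n : ℕ) (a b : Fin n → R), w = ∑ i, a i * h * b i := by
    intro w hw
    refine Submodule.span_induction (p := fun w _ => ∃ (n : ℕ) (a b : Fin n → R),
      w = ∑ i, a i * h * b i) ?_ ?_ ?_ ?_ hw
    · rintro _ ⟨b, rfl⟩
      exact ⟨1, fun _ => 1, fun _ => b, by simp⟩
    · exact ⟨0, fun _ => 0, fun _ => 0, by simp⟩
    · rintro x x' - - ⟨n, a, b, rfl⟩ ⟨n', a', b', rfl⟩
      refine ⟨n + n', Fin.append a a', Fin.append b b', ?_⟩
      rw [Fin.sum_univ_add]
      simp
    · rintro c x - ⟨n, a, b, rfl⟩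
      refine ⟨n, fun i => c * a i, b, ?_⟩
      rw [smul_eq_mul, Finset.mul_sum]
      refine Finset.sum_congr rfl fun i _ => ?_
      simp only [mul_assoc]
  obtain ⟨n, a, b, hab⟩ := hsum y hyJ
  have hye : (y * e) * (y * e) = y * e := by
    rw [hyc e, mul_assoc e y, ← mul_assoc y e y, hyc e, mul_assoc e y y, hy, ← mul_assoc, he]
  obtain ⟨z, hz, hzc, ⟨x, hx, hx'⟩, hN⟩ := exists_central_of_hecke hye (fun x hx hxx => by
    refine hred x ⟨n, a, fun i => b i * e * x, ?_⟩ hxx
    have h1 : x = e * (y * e * x) * e := by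
      have h2 : e * (y * e * x) * e = (y * e) * x * e := by
        rw [← mul_assoc, ← mul_assoc, ← hyc e, mul_assoc y e e, he]
      have h3 : x * e = x := by
        rw [← hx, mul_assoc _ (y * e) e, mul_assoc y e e, he]
      have h4 : y * e * x = x := by
        calc y * e * x = y * e * (y * e * x * (y * e)) := by rw [hx]
          _ = y * e * (y * e) * x * (y * e) := by simp only [mul_assoc]
          _ = x := by rw [hye, hx]
      rw [h2, h4, h3]
    conv_lhs => rw [h1, hab]
    rw [Finset.sum_mul, Finset.sum_mul, Finset.mul_sum, Finset.sum_mul]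
    refine Finset.sum_congr rfl fun i _ => ?_
    simp only [mul_assoc]) N
  refine ⟨y, z, hy, hyc, hyh, hz, hzc, ⟨x, hx, ?_⟩, fun x hx => ?_⟩
  · rw [mul_assoc, mul_assoc]
    exact hx'
  · have h1 := hN x hx
    rw [← mul_assoc] at h1
    exact h1

end ring

variable {p : ℕ} [hp : Fact p.Prime]
variable {k F : Type} [Field k] [NumberField k] [Field F] [NumberField F] [Algebra k F]
variable [IsGalois k F]

lemma act_avg_of_fixed {D : Subgroup (F ≃ₐ[k] F)} {v : UM p F}
    (hv : ∀ d ∈ D, rho p k F d v = v) : act p k F (avg ℚ_[p] D) v = v := by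
  classical
  have hn : (Nat.card D : ℚ_[p]) ≠ 0 := Nat.cast_ne_zero.2 Nat.card_pos.ne'
  unfold avg
  rw [map_smul, map_sum, LinearMap.smul_apply, LinearMap.sum_apply, Finset.sum_congr rfl
    (g := fun _ => v), Finset.sum_const, card_filter,
    ← Nat.cast_smul_eq_nsmul ℚ_[p], smul_smul, inv_mul_cancel₀ hn, one_smul]
  intro d hd
  rw [Finset.mem_filter] at hd
  rw [act_single, one_smul, hv d hd.2]

/-- **The kernel of the logarithms**, for the vectors invariant under a subgroup. -/
theorem ker_trivial' {L : ℂ_[p] → ℂ_[p]} (hL : IsIwasawaLog p L) (w : InfinitePlace F)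
    (H : Subgroup (F ≃ₐ[k] F))
    (hred : ∀ x : MonoidAlgebra ℚ_[p] (F ≃ₐ[k] F), (∃ (n : ℕ) (a b : Fin n → _),
      x = ∑ i, avg ℚ_[p] (MulAction.stabilizer (F ≃ₐ[k] F) w) * a i * avg ℚ_[p] H * b i *
        avg ℚ_[p] (MulAction.stabilizer (F ≃ₐ[k] F) w)) → x * x = 0 → x = 0)
    {u : Additive (𝓞 F)ˣ} (hu : ∀ d : F ≃ₐ[k] F, d • w = w → gu d u = u)
    {x : MonoidAlgebra ℚ_[p] (F ≃ₐ[k] F)} (hxH : avg ℚ_[p] H * x = x)
    (hx : Ker hL (act p k F x ((1 : ℂ_[p]) ⊗ₜ[ℤ] u))) :
    act p k F x ((1 : ℂ_[p]) ⊗ₜ[ℤ] u) = 0 := by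
  have hfd : FiniteDimensional k F := Module.Finite.of_restrictScalars_finite ℚ k F
  set e := avg ℚ_[p] (MulAction.stabilizer (F ≃ₐ[k] F) w) with he
  set η : UM p F := (1 : ℂ_[p]) ⊗ₜ[ℤ] u with hη
  have heη : act p k F e η = η := act_avg hu
  let N : Ideal (MonoidAlgebra ℚ_[p] (F ≃ₐ[k] F)) :=
    { carrier := {a | Ker hL (act p k F a η)}
      add_mem' := by
        intro a b ha hb σ
        rw [map_add, LinearMap.add_apply, map_add, ha σ, hb σ, add_zero]
      zero_mem' := by
        intro σ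
        rw [map_zero, LinearMap.zero_apply, map_zero]
      smul_mem' := by
        intro c a ha
        change Ker hL (act p k F (c * a) η)
        rw [act_mul]
        exact ker_act hL ha c }
  have : NeZero (Nat.card (F ≃ₐ[k] F) : ℚ_[p]) := ⟨Nat.cast_ne_zero.2 Nat.card_pos.ne'⟩
  obtain ⟨y, z, hy, hyc, hyh, hz, hzc, ⟨x0, hx0, hx0'⟩, hN⟩ :=
    exists_pair (avg_mul_self (K := ℚ_[p]) (MulAction.stabilizer (F ≃ₐ[k] F) w)) N hred
  rw [← he] at hx0' hN
  -- the central idempotent kills the unit, by Brumer's theorem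
  have hzη : act p k F (z * y) η = 0 := by
    have h1 : Ker hL (act p k F (z * y) η) := by
      have h2 : act p k F (z * y) η = act p k F y (act p k F x0 η) := by
        calc act p k F (z * y) η = act p k F (z * y * e) η := by rw [act_mul (z * y), heη]
          _ = act p k F (x0 * y) η := by rw [← hx0', act_mul (x0 * y), heη]
          _ = act p k F y (act p k F x0 η) := by rw [← hyc, act_mul]
      rw [h2]
      exact ker_act hL hx0 y
    have hzy : z * y * (z * y) = z * y := by
      rw [mul_assoc, ← mul_assoc y, hyc z, mul_assoc z y y, hy, ← mul_assoc, hz]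
    have hzyc : ∀ r, z * y * r = r * (z * y) := by
      intro r
      rw [mul_assoc, hyc, ← mul_assoc, hzc, mul_assoc]
    have h2 : act p k F (z * y) η ∈ AU p F := act_mem_AU (coeff_alg hzy hzyc) u
    have hσ : Nonempty (F →+* ℂ_[p]) := inferInstance
    exact eq_zero_of_log hL hσ.some h2 (h1 _)
  have hxy : x * y = x := by
    calc x * y = y * x := (hyc x).symm
      _ = y * (avg ℚ_[p] H * x) := by rw [hxH]
      _ = x := by rw [← mul_assoc, hyh, hxH]
  have h3 := hN x hx
  rw [hxy] at h3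
  calc act p k F x η = act p k F (x * e) η := by rw [act_mul, heη]
    _ = act p k F (x * e * z) η := by rw [h3]
    _ = act p k F (x * z * e) η := by rw [mul_assoc x e z, ← hzc e, ← mul_assoc]
    _ = act p k F (x * z) η := by rw [act_mul (x * z), heη]
    _ = act p k F (x * (z * y)) η := by
        have h4 : x * (z * y) = x * z := by
          rw [hzc y, ← mul_assoc, hxy]
        rw [h4]
    _ = 0 := by rw [act_mul, hzη, map_zero]

/-- **Leopoldt's conjecture for an intermediate field.** -/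
theorem leopoldt_of_hecke' (hk : Units.rank k = 0) (w : InfinitePlace F)
    (K : IntermediateField k F) [NumberField K]
    (hred : ∀ x : MonoidAlgebra ℚ_[p] (F ≃ₐ[k] F), (∃ (n : ℕ) (a b : Fin n → _),
      x = ∑ i, avg ℚ_[p] (MulAction.stabilizer (F ≃ₐ[k] F) w) * a i *
        avg ℚ_[p] K.fixingSubgroup * b i *
        avg ℚ_[p] (MulAction.stabilizer (F ≃ₐ[k] F) w)) → x * x = 0 → x = 0) :
    Pool.Agent.H637R2.Leo.Leopoldt K p := by
  classical
  intro n ε _ hind a m hma hdiv
  obtain ⟨L, hL⟩ := exists_iwasawaLog p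
  obtain ⟨u, hu, hspan⟩ := exists_minkowski (k := k) hk w
  -- the units of `K` as units of `F`
  let f : K →+* F := algebraMap K F
  let ε' : Fin n → Additive (𝓞 F)ˣ := fun i => uMap f (Additive.ofMul (ε i))
  have hfix : ∀ g ∈ K.fixingSubgroup, ∀ i, gu g (ε' i) = ε' i := by
    intro g hg i
    change uMap (g : F →+* F) (uMap f _) = uMap f _
    rw [uMap_comp]
    congr 1
    congr 1
    refine RingHom.ext fun y => ?_
    exact (IntermediateField.mem_fixingSubgroup_iff K g).1 hg y y.2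
  choose m0 x0 hm0 hx0 using fun i => hspan (ε' i)
  set v : UM p F := ∑ i, (a i : ℚ_[p]) • ((1 : ℂ_[p]) ⊗ₜ[ℤ] ε' i) with hv
  have hker : Ker hL v := by
    intro σ
    have h0 := Pool.Agent.Y944.LC.rel_of_lim hL n ε a m hma hdiv (σ.comp f)
    rw [hv, map_sum, ← h0]
    refine Finset.sum_congr rfl fun i _ => ?_
    rw [logLin_smulQ, logLin_tmul', one_mul]
    rfl
  set x : MonoidAlgebra ℚ_[p] (F ≃ₐ[k] F) :=
    ∑ i, ∑ g, single g ((a i : ℚ_[p]) * ((m0 i : ℚ_[p])⁻¹ * (x0 i g : ℚ_[p]))) with hx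
  have hxv : act p k F x ((1 : ℂ_[p]) ⊗ₜ[ℤ] u) = v := by
    rw [hx, map_sum, LinearMap.sum_apply, hv]
    refine Finset.sum_congr rfl fun i _ => ?_
    rw [map_sum, LinearMap.sum_apply]
    have h1 : ∀ g, act p k F (single g ((a i : ℚ_[p]) * ((m0 i : ℚ_[p])⁻¹ * (x0 i g : ℚ_[p]))))
        ((1 : ℂ_[p]) ⊗ₜ[ℤ] u) = ((a i : ℚ_[p]) * (m0 i : ℚ_[p])⁻¹) •
          ((1 : ℂ_[p]) ⊗ₜ[ℤ] (x0 i g • gu g u)) := by
      intro g
      rw [act_single, rho_tmul, tmul_zsmul', ← mul_assoc, mul_smul]
    have h2 : (1 : ℂ_[p]) ⊗ₜ[ℤ] (m0 i • ε' i) =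
        ∑ g, (1 : ℂ_[p]) ⊗ₜ[ℤ] (x0 i g • gu g u) := by
      rw [hx0 i, TensorProduct.tmul_sum]
    rw [Finset.sum_congr rfl fun g _ => h1 g, ← Finset.smul_sum, ← h2, tmul_zsmul', smul_smul,
      mul_assoc, inv_mul_cancel₀ (by exact_mod_cast hm0 i), mul_one]
  -- invariance
  have hvH : act p k F (avg ℚ_[p] K.fixingSubgroup) v = v := by
    refine act_avg_of_fixed fun d hd => ?_
    rw [hv, map_sum]
    refine Finset.sum_congr rfl fun i _ => ?_
    rw [map_smul, rho_tmul, hfix d hd]
  have hv0 : v = 0 := by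
    have h1 : act p k F (avg ℚ_[p] K.fixingSubgroup * x) ((1 : ℂ_[p]) ⊗ₜ[ℤ] u) = v := by
      rw [act_mul, hxv, hvH]
    rw [← h1]
    refine ker_trivial' hL w K.fixingSubgroup hred hu ?_ (by rw [h1]; exact hker)
    rw [← mul_assoc, avg_mul_self]
  -- independence
  have hli : LinearIndependent ℤ ε' := by
    rw [Fintype.linearIndependent_iff]
    intro c hc
    have h1 : ∏ i, ε i ^ c i = 1 := by
      have h2 : uMap f (∑ i, c i • (Additive.ofMul (ε i) : Additive (𝓞 K)ˣ)) = 0 := by
        rw [map_sum, ← hc]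
        refine Finset.sum_congr rfl fun i _ => ?_
        rw [map_zsmul]
      have h3 : (∑ i, c i • (Additive.ofMul (ε i) : Additive (𝓞 K)ˣ)) = 0 := by
        have h4 := uMap_coe f (∑ i, c i • (Additive.ofMul (ε i) : Additive (𝓞 K)ˣ))
        rw [h2] at h4
        apply Additive.toMul.injective
        apply Units.ext
        apply RingOfIntegers.ext
        apply f.injective
        exact h4.symm.trans (by simp)
      have h2 := congrArg Additive.toMul h3
      rw [toMul_sum, toMul_zero] at h2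
      exact h2
    exact congrFun (hind c h1)
  have hli' := Module.Flat.linearIndependent_one_tmul (S := ℂ_[p]) hli
  rw [Fintype.linearIndependent_iff] at hli'
  funext i
  have h1 := hli' (fun i => algebraMap ℚ_[p] ℂ_[p] (a i : ℚ_[p])) (by
    rw [← hv0, hv]
    refine Finset.sum_congr rfl fun i _ => ?_
    rw [algebraMap_smul]) i
  rw [map_eq_zero] at h1
  exact PadicInt.coe_eq_zero.1 h1

end Pool.Agent.X328.LP
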