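import Pool.Agent.X328.LP.Main2
import Pool.Agent.X328.PB.Alg
import Pool.Agent.Y419.LC.LCP

/-!
# Leopoldt's conjecture and norms
-/

set_option autoImplicit false
set_option linter.unusedSectionVars false

namespace Pool.Agent.X328.LP

open NumberField Pool.Agent.W289.SL Pool.Agent.W332.SL6 TensorProduct
open Pool.Agent.X328.PB (nrm)

lemma exists_extC {p : ℕ} [Fact p.Prime] {F K : Type} [Field F] [Field K] [Algebra F K]
    [Algebra.IsAlgebraic F K] (τ : F →+* ℂ_[p]) :
    ∃ s : K →+* ℂ_[p], s.comp (algebraMap F K) = τ := by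
  let := τ.toAlgebra
  let f : K →ₐ[F] ℂ_[p] := IsAlgClosed.lift
  exact ⟨f, f.comp_algebraMap⟩

/-- the logarithms have no common zeros on `ℂ_p ⊗ 𝓞_E^×` -/
def Inj (p : ℕ) [Fact p.Prime] (E : Type) [Field E] [NumberField E] : Prop :=
  ∀ (L : ℂ_[p] → ℂ_[p]) (hL : IsIwasawaLog p L) (x : UM p E),
    (∀ σ : E →+* ℂ_[p], logLin hL σ x = 0) → x = 0

/-- Leopoldt's conjecture is the injectivity of the logarithms on `ℂ_p ⊗ 𝓞_E^×`. -/
theorem leopoldt_iff (p : ℕ) [hp : Fact p.Prime] (E : Type) [Field E] [NumberField E] :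
    Pool.Agent.H637R2.Leo.Leopoldt E p ↔ Inj p E := by
  constructor
  · exact fun h => Pool.Agent.Y419.LC.lcp p E h
  · intro hinj n ε _ hind a m hma hdiv
    obtain ⟨L, hL⟩ := exists_iwasawaLog p
    have hv0 : ∑ i, (a i : ℚ_[p]) • ((1 : ℂ_[p]) ⊗ₜ[ℤ] Additive.ofMul (ε i)) = (0 : UM p E) := by
      refine hinj L hL _ fun σ => ?_
      rw [map_sum, ← Pool.Agent.Y944.LC.rel_of_lim hL n ε a m hma hdiv σ]
      refine Finset.sum_congr rfl fun i _ => ?_
      rw [logLin_smulQ, logLin_tmul', one_mul]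
      rfl
    have hli : LinearIndependent ℤ (fun i => (Additive.ofMul (ε i) : Additive (𝓞 E)ˣ)) := by
      rw [Fintype.linearIndependent_iff]
      intro c hc
      have h1 : ∏ i, ε i ^ c i = 1 := by
        have h2 := congrArg Additive.toMul hc
        rw [toMul_sum, toMul_zero] at h2
        exact h2
      exact congrFun (hind c h1)
    have hli' := Module.Flat.linearIndependent_one_tmul (S := ℂ_[p]) hli
    rw [Fintype.linearIndependent_iff] at hli'
    funext i
    have h1 := hli' (fun i => algebraMap ℚ_[p] ℂ_[p] (a i : ℚ_[p])) (by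
      rw [← hv0]
      refine Finset.sum_congr rfl fun i _ => ?_
      rw [algebraMap_smul]) i
    rw [map_eq_zero] at h1
    exact PadicInt.coe_eq_zero.1 h1

variable {p : ℕ} [hp : Fact p.Prime] {F : Type} [Field F] [NumberField F]

/-- a unit of `F` invariant under the group `P` is a unit of the fixed field -/
lemma exists_unit (P : Subgroup (F ≃ₐ[ℚ] F)) (u : Additive (𝓞 F)ˣ) (hu : ∀ g ∈ P, gu g u = u) :
    ∃ v : Additive (𝓞 (IntermediateField.fixedField P))ˣ,
      uMap (algebraMap (IntermediateField.fixedField P) F) v = u := by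
  set E := IntermediateField.fixedField P with hE
  have hmem : ∀ u : Additive (𝓞 F)ˣ, (∀ g ∈ P, gu g u = u) →
      (((Additive.toMul u : (𝓞 F)ˣ) : 𝓞 F) : F) ∈ E := by
    intro u hu
    rw [hE, IntermediateField.mem_fixedField_iff]
    intro g hg
    rw [← gu_coe, hu g hg]
  have h1 := hmem u hu
  have h2 := hmem (-u) (fun g hg => by rw [map_neg, hu g hg])
  have hint : ∀ x : 𝓞 F, (x : F) ∈ E → ∃ y : 𝓞 E, algebraMap E F y = x := by
    intro x hx
    refine ⟨⟨⟨x, hx⟩, ?_⟩, rfl⟩
    have h3 : IsIntegral ℤ (algebraMap E F ⟨x, hx⟩) := x.2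
    exact (isIntegral_algebraMap_iff (algebraMap E F).injective).1 h3
  obtain ⟨y, hy⟩ := hint _ h1
  obtain ⟨z, hz⟩ := hint _ h2
  have hyz : y * z = 1 := by
    apply RingOfIntegers.ext
    apply (algebraMap E F).injective
    have h3 : ((Additive.toMul u : (𝓞 F)ˣ) : 𝓞 F) * ((Additive.toMul (-u) : (𝓞 F)ˣ) : 𝓞 F) = 1 := by
      rw [toMul_neg, Units.mul_inv]
    have h4 := congrArg (fun x : 𝓞 F => (x : F)) h3
    change algebraMap E F ((y : E) * (z : E)) = algebraMap E F 1
    rw [map_mul, hy, hz, map_one]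
    exact h4
  refine ⟨Additive.ofMul ⟨y, z, hyz, by rw [mul_comm, hyz]⟩, ?_⟩
  apply Additive.toMul.injective
  apply Units.ext
  apply RingOfIntegers.ext
  exact hy

lemma uMap_inj {E M : Type} [Field E] [NumberField E] [Field M] [NumberField M] (f : E →+* M) :
    Function.Injective (uMap f) := by
  intro u v huv
  apply Additive.toMul.injective
  apply Units.ext
  apply RingOfIntegers.ext
  apply f.injective
  rw [← uMap_coe, ← uMap_coe, huv]

open Classical in
/-- the norm of units to the fixed field -/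
lemma exists_norm (P : Subgroup (F ≃ₐ[ℚ] F)) :
    ∃ ν : Additive (𝓞 F)ˣ →+ Additive (𝓞 (IntermediateField.fixedField P))ˣ, ∀ u,
      uMap (algebraMap (IntermediateField.fixedField P) F) (ν u) = ∑ g : F ≃ₐ[ℚ] F with g ∈ P, gu g u := by
  have h1 : ∀ u : Additive (𝓞 F)ˣ, ∀ h ∈ P,
      gu h (∑ g : F ≃ₐ[ℚ] F with g ∈ P, gu g u) = ∑ g : F ≃ₐ[ℚ] F with g ∈ P, gu g u := by
    intro u h hh
    rw [map_sum]
    refine Finset.sum_bij' (fun x _ => h * x) (fun x _ => h⁻¹ * x) ?_ ?_ ?_ ?_ ?_
    · intro x hx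
      simp only [Finset.mem_filter, Finset.mem_univ, true_and] at hx ⊢
      exact P.mul_mem hh hx
    · intro x hx
      simp only [Finset.mem_filter, Finset.mem_univ, true_and] at hx ⊢
      exact P.mul_mem (P.inv_mem hh) hx
    · intro x _; simp
    · intro x _; simp
    · intro x _
      rw [gu_mul]
  choose ν hν using fun u => exists_unit P _ (h1 u)
  refine ⟨AddMonoidHom.mk' ν fun a b => ?_, hν⟩
  apply uMap_inj (algebraMap (IntermediateField.fixedField P) F)
  rw [map_add, hν, hν, hν, ← Finset.sum_add_distrib]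
  refine Finset.sum_congr rfl fun g _ => ?_
  rw [map_add]

/-- the action of the automorphisms, over `ℚ` -/
noncomputable def rhoQ (p : ℕ) [Fact p.Prime] (F : Type) [Field F] [NumberField F] :
    (F ≃ₐ[ℚ] F) →* Module.End ℚ (UM p F) where
  toFun g := (actLin p (g : F →+* F)).toAddMonoidHom.toRatLinearMap
  map_one' := by
    refine LinearMap.ext fun x => ?_
    have h := congrArg (fun f => f x) (map_one (rho p ℚ F))
    exact h
  map_mul' g h := by
    refine LinearMap.ext fun x => ?_
    have h := congrArg (fun f => f x) (map_mul (rho p ℚ F) g h)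
    exact h

lemma rhoQ_apply (g : F ≃ₐ[ℚ] F) (x : UM p F) : rhoQ p F g x = rho p ℚ F g x := rfl

/-- **Norms of vectors in the kernel of the logarithms vanish if Leopoldt's conjecture holds for the
fixed field.** -/
theorem nrm_eq_zero (P : Subgroup (F ≃ₐ[ℚ] F)) (hP : Inj p (IntermediateField.fixedField P))
    {L : ℂ_[p] → ℂ_[p]} (hL : IsIwasawaLog p L) {v : UM p F} (hv : Ker hL v) :
    nrm (rhoQ p F) P v = 0 := by
  classical
  obtain ⟨ν, hν⟩ := exists_norm P
  set j : IntermediateField.fixedField P →+* F := algebraMap (IntermediateField.fixedField P) F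
  let N : UM p F →ₗ[ℂ_[p]] UM p (IntermediateField.fixedField P) :=
    ν.toIntLinearMap.baseChange ℂ_[p]
  have h1 : ∀ x : UM p F, push j (N x) = nrm (rhoQ p F) P x := by
    intro x
    unfold nrm
    induction x using TensorProduct.induction_on with
    | zero => simp
    | tmul c u =>
      have h2 : N (c ⊗ₜ u) = c ⊗ₜ ν u := rfl
      rw [h2, push_tmul, hν, TensorProduct.tmul_sum]
      rfl
    | add x y hx hy =>
      rw [map_add, map_add, hx, hy, ← Finset.sum_add_distrib]
      refine Finset.sum_congr rfl fun g _ => ?_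
      rw [map_add]
  have h3 : N v = 0 := by
    refine hP L hL _ fun σ' => ?_
    obtain ⟨σ, h4⟩ := exists_extC (F := IntermediateField.fixedField P) (K := F) σ'
    rw [← h4, ← logLin_push, h1]
    unfold nrm
    rw [map_sum]
    refine Finset.sum_eq_zero fun g _ => ?_
    rw [rhoQ_apply, logLin_rho]
    exact hv _
  rw [← h1, h3, map_zero]

/-- **The structure of the automorphism group** of a number field for which Leopoldt's conjecture
fails, if it holds for the fixed fields of the groups of prime order. -/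
theorem structure_of_failure (hF : ¬ Inj p F)
    (h0 : ∀ P : Subgroup (F ≃ₐ[ℚ] F), (Nat.card P).Prime →
      Inj p (IntermediateField.fixedField P)) :
    ∃ (L : ℂ_[p] → ℂ_[p]) (hL : IsIwasawaLog p L) (v : UM p F), v ≠ 0 ∧ Ker hL v ∧
      (∀ P : Subgroup (F ≃ₐ[ℚ] F), (Nat.card P).Prime → nrm (rhoQ p F) P v = 0) := by
  unfold Inj at hF
  push Not at hF
  obtain ⟨L, hL, v, hv, hv0⟩ := hF
  exact ⟨L, hL, v, hv0, hv, fun P hP => nrm_eq_zero P (h0 P hP) hL hv⟩

end Pool.Agent.X328.LP
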