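import Pool.Agent.X328.LP.Sig

/-!
# A criterion for the Sigma-Leopoldt conjecture
-/

set_option autoImplicit false
set_option linter.unusedSectionVars false

namespace Pool.Agent.X328.LP

open NumberField Pool.Agent.W289.SL Pool.Agent.W332.SL6 TensorProduct Module MonoidAlgebra

variable {p : ℕ} [hp : Fact p.Prime] {k F : Type} [Field k] [NumberField k] [Field F] [NumberField F]
  [Algebra k F] (i₀ : k →+* ℚ_[p])

lemma kerS_act {L : ℂ_[p] → ℂ_[p]} (hL : IsIwasawaLog p L) {x : UM p F} (hx : KerS i₀ hL x)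
    (a : MonoidAlgebra ℚ_[p] (F ≃ₐ[k] F)) : KerS i₀ hL (act p k F a x) := by
  induction a using MonoidAlgebra.induction_linear with
  | zero =>
    intro σ _
    rw [map_zero, LinearMap.zero_apply, map_zero]
  | add a b ha hb =>
    intro σ hσ
    rw [map_add, LinearMap.add_apply, map_add, ha σ hσ, hb σ hσ, add_zero]
  | single g c =>
    intro σ hσ
    rw [act_single, logLin_smulQ, logLin_rho, hx, mul_zero]
    unfold Over at hσ ⊢
    rw [← hσ]
    ext y
    change σ (g (algebraMap k F y)) = σ (algebraMap k F y)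
    rw [g.commutes]

lemma fmap_act (φ : ℂ_[p] →ₗ[ℚ_[p]] ℚ_[p]) (a : MonoidAlgebra ℚ_[p] (F ≃ₐ[k] F)) (x : UM p F) :
    fmap φ (act p k F a x) = act p k F a (fmap φ x) := by
  induction a using MonoidAlgebra.induction_linear with
  | zero => rw [map_zero, LinearMap.zero_apply, LinearMap.zero_apply, map_zero]
  | add a b ha hb => rw [map_add, LinearMap.add_apply, LinearMap.add_apply, map_add, ha, hb]
  | single g c =>
    rw [act_single, act_single]
    induction x using TensorProduct.induction_on with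
    | zero => simp only [map_zero, smul_zero]
    | add x y hx hy => simp only [map_add, smul_add] at hx hy ⊢; rw [hx, hy]
    | tmul b u =>
      rw [fmap_tmul, rho_tmul, rho_tmul]
      have h1 : c • (b ⊗ₜ[ℤ] gu g u : UM p F) = (c • b) ⊗ₜ[ℤ] gu g u := rfl
      have h2 : c • ((algebraMap ℚ_[p] ℂ_[p] (φ b)) ⊗ₜ[ℤ] gu g u : UM p F) =
        (c • (algebraMap ℚ_[p] ℂ_[p] (φ b))) ⊗ₜ[ℤ] gu g u := rfl
      rw [h1, h2, fmap_tmul, map_smul, smul_eq_mul, map_mul, Algebra.smul_def]

variable [IsGalois k F]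

/-- **The kernel on the module generated by a unit.** -/
theorem kerS_trivial {L : ℂ_[p] → ℂ_[p]} (hL : IsIwasawaLog p L) (w : InfinitePlace F)
    {f : MonoidAlgebra ℚ_[p] (F ≃ₐ[k] F)} (hf : f * f = f) (hfc : ∀ r, f * r = r * f)
    (hred : ∀ x : MonoidAlgebra ℚ_[p] (F ≃ₐ[k] F),
      avg ℚ_[p] (MulAction.stabilizer (F ≃ₐ[k] F) w) * x *
        avg ℚ_[p] (MulAction.stabilizer (F ≃ₐ[k] F) w) = x → f * x = x → x * x = 0 → x = 0)
    {u : Additive (𝓞 F)ˣ} (hu : ∀ d : F ≃ₐ[k] F, d • w = w → gu d u = u)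
    {x : MonoidAlgebra ℚ_[p] (F ≃ₐ[k] F)} (hfx : f * x = x)
    (hx : KerS i₀ hL (act p k F x ((1 : ℂ_[p]) ⊗ₜ[ℤ] u))) :
    act p k F x ((1 : ℂ_[p]) ⊗ₜ[ℤ] u) = 0 := by
  have hfd : FiniteDimensional k F := Module.Finite.of_restrictScalars_finite ℚ k F
  set e := avg ℚ_[p] (MulAction.stabilizer (F ≃ₐ[k] F) w) with he
  set η : UM p F := (1 : ℂ_[p]) ⊗ₜ[ℤ] u with hη
  have heη : act p k F e η = η := act_avg hu
  have hee : e * e = e := avg_mul_self _
  let N : Ideal (MonoidAlgebra ℚ_[p] (F ≃ₐ[k] F)) :=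
    { carrier := {a | KerS i₀ hL (act p k F a η)}
      add_mem' := by
        intro a b ha hb σ hσ
        rw [map_add, LinearMap.add_apply, map_add, ha σ hσ, hb σ hσ, add_zero]
      zero_mem' := by
        intro σ _
        rw [map_zero, LinearMap.zero_apply, map_zero]
      smul_mem' := by
        intro c a ha
        change KerS i₀ hL (act p k F (c * a) η)
        rw [act_mul]
        exact kerS_act i₀ hL ha c }
  have : NeZero (Nat.card (F ≃ₐ[k] F) : ℚ_[p]) := ⟨Nat.cast_ne_zero.2 Nat.card_pos.ne'⟩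
  have hfe : (f * e) * (f * e) = f * e := by
    calc (f * e) * (f * e) = f * (e * f) * e := by simp only [mul_assoc]
      _ = f * (f * e) * e := by rw [hfc e]
      _ = (f * f) * (e * e) := by simp only [mul_assoc]
      _ = f * e := by rw [hf, hee]
  obtain ⟨z, hz, hzc, ⟨x0, hx0, hx0'⟩, hN⟩ := exists_central_of_hecke hfe (fun y hy hyy => by
    have h2 : (f * e) * y = y := by
      rw [← hy]
      calc (f * e) * ((f * e) * y * (f * e)) = ((f * e) * (f * e)) * y * (f * e) := by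
            simp only [mul_assoc]
        _ = (f * e) * y * (f * e) := by rw [hfe]
    have h3 : y * (f * e) = y := by
      rw [← hy]
      calc ((f * e) * y * (f * e)) * (f * e) = (f * e) * y * ((f * e) * (f * e)) := by
            simp only [mul_assoc]
        _ = (f * e) * y * (f * e) := by rw [hfe]
    have h4 : f * y = y := by
      rw [← h2]
      calc f * (f * e * y) = (f * f) * e * y := by simp only [mul_assoc]
        _ = f * e * y := by rw [hf]
    have h5 : e * y = y := by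
      rw [← h2]
      calc e * (f * e * y) = (e * f) * e * y := by simp only [mul_assoc]
        _ = (f * e) * e * y := by rw [hfc e]
        _ = f * (e * e) * y := by simp only [mul_assoc]
        _ = f * e * y := by rw [hee]
    have h6 : y * e = y := by
      rw [← h3]
      calc y * (f * e) * e = y * (f * (e * e)) := by simp only [mul_assoc]
        _ = y * (f * e) := by rw [hee]
    exact hred y (by rw [h5, h6]) h4 hyy) N
  -- the central idempotent kills the unit, by Brumer's theorem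
  have hzη : act p k F (z * f) η = 0 := by
    have h1 : KerS i₀ hL (act p k F (z * f) η) := by
      have h2 : act p k F (z * f) η = act p k F f (act p k F x0 η) := by
        calc act p k F (z * f) η = act p k F (z * f * e) η := by rw [act_mul (z * f), heη]
          _ = act p k F (x0 * f) η := by rw [mul_assoc, ← hx0', ← mul_assoc, act_mul (x0 * f), heη]
          _ = act p k F f (act p k F x0 η) := by rw [← hfc, act_mul]
      rw [h2]
      exact kerS_act i₀ hL hx0 f
    have hzf : z * f * (z * f) = z * f := by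
      rw [mul_assoc, ← mul_assoc f, hfc z, mul_assoc z f f, hf, ← mul_assoc, hz]
    have hzfc : ∀ r, z * f * r = r * (z * f) := by
      intro r
      rw [mul_assoc, hfc, ← mul_assoc, hzc, mul_assoc]
    have h2 : act p k F (z * f) η ∈ AU p F := act_mem_AU (coeff_alg hzf hzfc) u
    obtain ⟨σ, hσ⟩ := exists_over (H := F) i₀
    exact eq_zero_of_log hL σ h2 (h1 σ hσ)
  have hxf : x * f = x := by rw [← hfc, hfx]
  have h3 := hN x hx
  calc act p k F x η = act p k F (x * (f * e)) η := by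
        rw [← mul_assoc, hxf, act_mul x e, heη]
    _ = act p k F (x * (f * e * z)) η := by rw [← mul_assoc x (f * e) z, h3]
    _ = act p k F (x * (z * f) * e) η := by
        congr 2
        rw [← hzc (f * e)]
        simp only [mul_assoc]
    _ = 0 := by rw [act_mul _ e, heη, act_mul, hzη, map_zero]

/-- **The criterion.** -/
theorem sigma_crit (hk : Units.rank k = 0) {L : ℂ_[p] → ℂ_[p]} (hL : IsIwasawaLog p L)
    (w : InfinitePlace F)
    {f : MonoidAlgebra ℚ_[p] (F ≃ₐ[k] F)} (hf : f * f = f) (hfc : ∀ r, f * r = r * f)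
    (hred : ∀ x : MonoidAlgebra ℚ_[p] (F ≃ₐ[k] F),
      avg ℚ_[p] (MulAction.stabilizer (F ≃ₐ[k] F) w) * x *
        avg ℚ_[p] (MulAction.stabilizer (F ≃ₐ[k] F) w) = x → f * x = x → x * x = 0 → x = 0)
    {x : UM p F} (hx : KerS i₀ hL x) (hfx : act p k F f x = x) : x = 0 := by
  classical
  obtain ⟨u, hu, hspan⟩ := exists_minkowski (k := k) hk w
  refine eq_zero_of_fmap fun φ => ?_
  have h1 : KerS i₀ hL (fmap φ x) := kerS_fmap i₀ hL hx φ
  have h2 : act p k F f (fmap φ x) = fmap φ x := by rw [← fmap_act, hfx]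
  -- the vector comes from the group algebra
  obtain ⟨X, hX⟩ : ∃ X : MonoidAlgebra ℚ_[p] (F ≃ₐ[k] F),
      act p k F X ((1 : ℂ_[p]) ⊗ₜ[ℤ] u) = fmap φ x := by
    obtain ⟨b, hb⟩ := decomp x
    choose m0 x0 hm0 hx0 using fun i => hspan (fu F i)
    refine ⟨∑ i, ∑ g, single g (φ (b i) * ((m0 i : ℚ_[p])⁻¹ * (x0 i g : ℚ_[p]))), ?_⟩
    rw [map_sum, LinearMap.sum_apply, hb, map_sum]
    refine Finset.sum_congr rfl fun i _ => ?_
    rw [map_sum, LinearMap.sum_apply]
    have h1 : ∀ g, act p k F (single g (φ (b i) * ((m0 i : ℚ_[p])⁻¹ * (x0 i g : ℚ_[p]))))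
        ((1 : ℂ_[p]) ⊗ₜ[ℤ] u) = (φ (b i) * (m0 i : ℚ_[p])⁻¹) •
          ((1 : ℂ_[p]) ⊗ₜ[ℤ] (x0 i g • gu g u)) := by
      intro g
      rw [act_single, rho_tmul, tmul_zsmul', ← mul_assoc, mul_smul]
    have h2 : (1 : ℂ_[p]) ⊗ₜ[ℤ] (m0 i • fu F i) =
        ∑ g, (1 : ℂ_[p]) ⊗ₜ[ℤ] (x0 i g • gu g u) := by
      rw [hx0 i, TensorProduct.tmul_sum]
    have h4 : b i • ((1 : ℂ_[p]) ⊗ₜ[ℤ] fu F i : UM p F) = b i ⊗ₜ[ℤ] fu F i := by
      rw [TensorProduct.smul_tmul', smul_eq_mul, mul_one]
    have h5 : φ (b i) • ((1 : ℂ_[p]) ⊗ₜ[ℤ] fu F i : UM p F) =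
        (algebraMap ℚ_[p] ℂ_[p] (φ (b i))) ⊗ₜ[ℤ] fu F i := by
      rw [← algebraMap_smul ℂ_[p], TensorProduct.smul_tmul', smul_eq_mul, mul_one]
    rw [Finset.sum_congr rfl fun g _ => h1 g, ← Finset.smul_sum, ← h2, tmul_zsmul', smul_smul,
      mul_assoc, inv_mul_cancel₀ (by exact_mod_cast hm0 i), mul_one, h4, fmap_tmul, h5]
  have h3 : act p k F (f * X) ((1 : ℂ_[p]) ⊗ₜ[ℤ] u) = fmap φ x := by rw [act_mul, hX, h2]
  rw [← h3]
  refine kerS_trivial i₀ hL w hf hfc hred hu ?_ (by rw [h3]; exact h1)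
  rw [← mul_assoc, hf]

end Pool.Agent.X328.LP
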