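import Pool.Agent.X328.LP.Sig2
import Pool.Agent.X328.LP.Dic2

/-!
# Characters
-/

set_option autoImplicit false
set_option linter.unusedSectionVars false

namespace Pool.Agent.X328.LP

open NumberField Pool.Agent.W289.SL Pool.Agent.W332.SL6 TensorProduct Module MonoidAlgebra

section orders

variable {p : ℕ} [hp : Fact p.Prime]

open QuaternionGroup (a xa)

lemma order_two {q : QuaternionGroup p} (hq : orderOf q = 2) : q = a (p : ZMod (2 * p)) := by
  have hpn : NeZero p := ⟨hp.out.ne_zero⟩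
  have hpn2 : NeZero (2 * p) := ⟨by have := hp.out.pos; omega⟩
  rcases q with i | i
  · have h1 : (a i : QuaternionGroup p) ^ 2 = 1 := by rw [← hq]; exact pow_orderOf_eq_one _
    rw [a_pow] at h1
    have h2 : ((2 : ℕ) : ZMod (2 * p)) * i = 0 := QuaternionGroup.a.inj h1
    have h3 : ((2 * i.val : ℕ) : ZMod (2 * p)) = 0 := by
      rw [Nat.cast_mul, ZMod.natCast_zmod_val]
      exact h2
    rw [ZMod.natCast_eq_zero_iff] at h3
    have h4 : p ∣ i.val := Nat.dvd_of_mul_dvd_mul_left (by norm_num) h3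
    obtain ⟨m, hm⟩ := h4
    have h5 := ZMod.val_lt i
    have h6 : m < 2 := by
      by_contra h
      push Not at h
      rw [hm] at h5
      nlinarith [hp.out.pos]
    have h7 : m ≠ 0 := by
      rintro rfl
      rw [mul_zero, ZMod.val_eq_zero] at hm
      rw [hm] at hq
      have : orderOf (a (0 : ZMod (2 * p)) : QuaternionGroup p) = 1 := orderOf_one
      omega
    have h8 : m = 1 := by omega
    rw [h8, mul_one] at hm
    rw [← ZMod.natCast_zmod_val i, hm]
  · rw [QuaternionGroup.orderOf_xa] at hq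
    omega

lemma order_p {q : QuaternionGroup p} (hq : orderOf q = p) :
    a (2 : ZMod (2 * p)) ∈ Subgroup.zpowers q := by
  have hpn : NeZero p := ⟨hp.out.ne_zero⟩
  have hpn2 : NeZero (2 * p) := ⟨by have := hp.out.pos; omega⟩
  rcases q with i | i
  · have h1 : (a i : QuaternionGroup p) ^ p = 1 := by
      have h := pow_orderOf_eq_one (a i : QuaternionGroup p)
      rwa [hq] at h
    rw [a_pow] at h1
    have h2 : (p : ZMod (2 * p)) * i = 0 := QuaternionGroup.a.inj h1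
    have h3 : ((p * i.val : ℕ) : ZMod (2 * p)) = 0 := by
      rw [Nat.cast_mul, ZMod.natCast_zmod_val]
      exact h2
    rw [ZMod.natCast_eq_zero_iff] at h3
    have h3' : p * 2 ∣ p * i.val := by rwa [mul_comm p 2]
    have h4 : 2 ∣ i.val := Nat.dvd_of_mul_dvd_mul_left hp.out.pos h3'
    obtain ⟨m, hm⟩ := h4
    have h5 : (a i : QuaternionGroup p) = a 2 ^ m := by
      rw [a_pow, ← ZMod.natCast_zmod_val i, hm, Nat.cast_mul, mul_comm]
      rfl
    have h6 : Subgroup.zpowers (a i : QuaternionGroup p) ≤ Subgroup.zpowers (a 2) := by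
      rw [Subgroup.zpowers_le, h5]
      exact Subgroup.npow_mem_zpowers _ _
    have h7 : Subgroup.zpowers (a i : QuaternionGroup p) = Subgroup.zpowers (a 2) := by
      refine Subgroup.eq_of_le_of_card_ge h6 ?_
      rw [Nat.card_zpowers, Nat.card_zpowers, hq]
      exact Nat.le_of_dvd hp.out.pos (orderOf_dvd_of_pow_eq_one c_pow)
    rw [h7]
    exact Subgroup.mem_zpowers _
  · rw [QuaternionGroup.orderOf_xa] at hq
    have := hp.out
    rw [← hq] at this
    norm_num at this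

end orders

variable {p : ℕ} [hp : Fact p.Prime] {k K H : Type} [Field k] [NumberField k] [Field K]
  [NumberField K] [Field H] [NumberField H] [Algebra k K] [Algebra K H] [Algebra k H]
  [IsScalarTower k K H]

/-- the sum of the `χ(τ)⁻¹ τ` in the group algebra of `Gal(H / k)` -/
noncomputable def charSum (p : ℕ) [Fact p.Prime] (k K H : Type) [Field k] [NumberField k] [Field K]
    [NumberField K] [Field H] [NumberField H] [Algebra k K] [Algebra K H] [Algebra k H]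
    [IsScalarTower k K H] (χ : (H ≃ₐ[K] H) →* ℂ_[p]ˣ) : MonoidAlgebra ℂ_[p] (H ≃ₐ[k] H) :=
  ∑ τ : H ≃ₐ[K] H, single (τ.restrictScalars k) (((χ τ)⁻¹ : ℂ_[p]ˣ) : ℂ_[p])

/-- the action over `ℂ_p` -/
noncomputable def rhoC (p : ℕ) [Fact p.Prime] (k F : Type) [Field k] [NumberField k] [Field F]
    [NumberField F] [Algebra k F] : (F ≃ₐ[k] F) →* Module.End ℂ_[p] (UM p F) where
  toFun g := actLin p (g : F →+* F)
  map_one' := by
    refine LinearMap.ext fun x => ?_
    exact congrArg (fun f => f x) (map_one (rho p k F))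
  map_mul' g h := by
    refine LinearMap.ext fun x => ?_
    exact congrArg (fun f => f x) (map_mul (rho p k F) g h)

/-- the action of the group algebra over `ℂ_p` -/
noncomputable def actC (p : ℕ) [Fact p.Prime] (k F : Type) [Field k] [NumberField k] [Field F]
    [NumberField F] [Algebra k F] : MonoidAlgebra ℂ_[p] (F ≃ₐ[k] F) →ₐ[ℂ_[p]]
      Module.End ℂ_[p] (UM p F) := MonoidAlgebra.lift ℂ_[p] _ _ (rhoC p k F)

lemma actC_map (a : MonoidAlgebra ℚ_[p] (H ≃ₐ[k] H)) (x : UM p H) :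
    actC p k H (MonoidAlgebra.mapRingHom _ (algebraMap ℚ_[p] ℂ_[p]) a) x = act p k H a x := by
  induction a using MonoidAlgebra.induction_linear with
  | zero => rw [map_zero, map_zero, map_zero]; rfl
  | add a b ha hb =>
    rw [map_add, map_add, map_add, LinearMap.add_apply, LinearMap.add_apply, ha, hb]
  | single g c =>
    rw [act_single]
    have h1 : MonoidAlgebra.mapRingHom (H ≃ₐ[k] H) (algebraMap ℚ_[p] ℂ_[p]) (single g c) =
        single g (algebraMap ℚ_[p] ℂ_[p] c) := by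
      simp
    rw [h1]
    unfold actC
    rw [MonoidAlgebra.lift_single, LinearMap.smul_apply, algebraMap_smul]
    rfl

lemma actC_charSum {χ : (H ≃ₐ[K] H) →* ℂ_[p]ˣ} {x : UM p H}
    (hx : ∀ τ : H ≃ₐ[K] H, actLin p (τ : H →+* H) x = ((χ τ : ℂ_[p]ˣ) : ℂ_[p]) • x) :
    actC p k H (charSum p k K H χ) x = (Fintype.card (H ≃ₐ[K] H) : ℂ_[p]) • x := by
  unfold charSum
  rw [map_sum, LinearMap.sum_apply, Finset.sum_congr rfl (g := fun _ => x), Finset.sum_const,
    Finset.card_univ, ← Nat.cast_smul_eq_nsmul ℂ_[p]]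
  intro τ _
  unfold actC
  rw [MonoidAlgebra.lift_single, LinearMap.smul_apply]
  have h1 : rhoC p k H (τ.restrictScalars k) x = actLin p (τ : H →+* H) x := rfl
  rw [h1, hx, smul_smul, Units.inv_mul, one_smul]

/-- the condition on `χ` in terms of vectors -/
lemma act_of_charSum {χ : (H ≃ₐ[K] H) →* ℂ_[p]ˣ} {x : UM p H}
    (hx : ∀ τ : H ≃ₐ[K] H, actLin p (τ : H →+* H) x = ((χ τ : ℂ_[p]ˣ) : ℂ_[p]) • x)
    {f : MonoidAlgebra ℚ_[p] (H ≃ₐ[k] H)}
    (hf : MonoidAlgebra.mapRingHom _ (algebraMap ℚ_[p] ℂ_[p]) f * charSum p k K H χ =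
      charSum p k K H χ) : act p k H f x = x := by
  have h1 := congrArg (fun a => actC p k H a x) hf
  simp only [map_mul] at h1
  have h2 : actC p k H (MonoidAlgebra.mapRingHom _ (algebraMap ℚ_[p] ℂ_[p]) f)
      (actC p k H (charSum p k K H χ) x) = actC p k H (charSum p k K H χ) x := h1
  rw [actC_charSum hx, map_smul, actC_map] at h2
  have h3 : (Fintype.card (H ≃ₐ[K] H) : ℂ_[p]) ≠ 0 := Nat.cast_ne_zero.2 Fintype.card_ne_zero
  exact smul_right_injective _ h3 h2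

section main
variable [IsGalois k H] (i₀ : k →+* ℚ_[p]) {S : Set (K →+* ℂ_[p])}
  (hS : ∀ τ : K →+* ℂ_[p], τ ∈ S ↔
    τ.comp (algebraMap k K) = (algebraMap ℚ_[p] ℂ_[p]).comp i₀)

include hS in
lemma kerS_of {L : ℂ_[p] → ℂ_[p]} (hL : IsIwasawaLog p L) {x : UM p H}
    (h : ∀ σ : H →+* ℂ_[p], σ.comp (algebraMap K H) ∈ S → logLin hL σ x = 0) :
    KerS i₀ hL x := by
  intro σ hσ
  apply h
  rw [hS, RingHom.comp_assoc, ← IsScalarTower.algebraMap_eq]
  exact hσ

include hS in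
/-- **The criterion.** -/
theorem sigma_main (hk : Units.rank k = 0) {f : MonoidAlgebra ℚ_[p] (H ≃ₐ[k] H)}
    (hf : f * f = f) (hfc : ∀ r, f * r = r * f)
    (hred : ∀ x : MonoidAlgebra ℚ_[p] (H ≃ₐ[k] H), f * x = x → x * x = 0 → x = 0)
    (χ : (H ≃ₐ[K] H) →* ℂ_[p]ˣ)
    (hχ : ∀ x : UM p H, (∀ τ : H ≃ₐ[K] H,
      actLin p (τ : H →+* H) x = ((χ τ : ℂ_[p]ˣ) : ℂ_[p]) • x) → act p k H f x = x) :
    SigmaLeopoldt p K H S χ := by
  intro L hL x hx h
  have w : InfinitePlace H := Classical.arbitrary _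
  exact sigma_crit i₀ hk hL w hf hfc (fun x _ h1 h2 => hred x h1 h2) (kerS_of i₀ hS hL h) (hχ x hx)

/-- **Quaternion extensions at `2`.** -/
theorem sigma_quat (i₀ : k →+* ℚ_[2]) {S : Set (K →+* ℂ_[2])}
    (hS : ∀ τ : K →+* ℂ_[2], τ ∈ S ↔
      τ.comp (algebraMap k K) = (algebraMap ℚ_[2] ℂ_[2]).comp i₀)
    (hk : Units.rank k = 0) {m : ℕ}
    (φ : (H ≃ₐ[k] H) ≃* QuaternionGroup 2 × (Fin m → Multiplicative (ZMod 2)))
    (χ : (H ≃ₐ[K] H) →* ℂ_[2]ˣ) : SigmaLeopoldt 2 K H S χ := by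
  refine sigma_main i₀ hS hk (f := 1) (one_mul 1) (fun r => by rw [one_mul, mul_one])
    (fun x _ hxx => ?_) χ (fun x _ => by rw [map_one]; rfl)
  have h1 : MonoidAlgebra.mapDomainRingHom ℚ_[2] φ.toMonoidHom x = 0 := by
    refine reduced_prod (K := ℚ_[2]) quat_reduced
      (x := MonoidAlgebra.mapDomainRingHom ℚ_[2] φ.toMonoidHom x) ?_
    rw [← map_mul, hxx, map_zero]
  exact (MonoidAlgebra.mapDomain_injective φ.injective) (by simpa using h1)

include hS in
/-- **Dicyclic extensions at `p ≡ 3 (mod 4)`.** -/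
theorem sigma_dic (h34 : p % 4 = 3) (hk : Units.rank k = 0)
    (φ : (H ≃ₐ[k] H) ≃* QuaternionGroup p) (hdeg : finrank K H = 2 * p)
    (χ : (H ≃ₐ[K] H) →* ℂ_[p]ˣ) (hχ : Function.Injective χ) : SigmaLeopoldt p K H S χ := by
  classical
  have hpn : NeZero p := ⟨hp.out.ne_zero⟩
  have hp0 : (p : ℚ_[p]) ≠ 0 := Nat.cast_ne_zero.2 hp.out.ne_zero
  refine sigma_main i₀ hS hk (f := fD φ) (fD_mul_self φ) (fD_comm φ)
    (fun x h1 h2 => fD_reduced φ h34 h1 h2) χ fun x hx => ?_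
  have hfd : FiniteDimensional K H := Module.Finite.of_restrictScalars_finite ℚ K H
  have hgal : IsGalois K H := IsGalois.tower_top_of_isGalois k K H
  have hcard : Nat.card (H ≃ₐ[K] H) = 2 * p := by
    rw [IsGalois.card_aut_eq_finrank, hdeg]
  let res : (H ≃ₐ[K] H) →* (H ≃ₐ[k] H) := AlgEquiv.restrictScalarsHom k
  have hres : Function.Injective res := AlgEquiv.restrictScalarsHom_injective k
  have hact : ∀ τ : H ≃ₐ[K] H, rho p k H (res τ) x = ((χ τ : ℂ_[p]ˣ) : ℂ_[p]) • x := hx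
  have hord : ∀ τ : H ≃ₐ[K] H, orderOf (φ (res τ)) = orderOf τ := by
    intro τ
    rw [MulEquiv.orderOf_eq, orderOf_injective res hres]
  -- the involution
  obtain ⟨τ₂, hτ₂⟩ := exists_prime_orderOf_dvd_card' (G := H ≃ₐ[K] H) 2 (by rw [hcard]; exact ⟨p, rfl⟩)
  have e1 : φ.symm (QuaternionGroup.a (p : ZMod (2 * p))) = res τ₂ := by
    rw [← order_two (q := φ (res τ₂)) (by rw [hord, hτ₂]), φ.symm_apply_apply]
  have hτ₂1 : τ₂ ≠ 1 := by
    rintro rfl
    rw [orderOf_one] at hτ₂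
    omega
  have hχne : ∀ τ : H ≃ₐ[K] H, τ ≠ 1 → ((χ τ : ℂ_[p]ˣ) : ℂ_[p]) ≠ 1 := by
    intro τ hτ h
    apply hτ
    apply hχ
    rw [map_one]
    exact Units.ext h
  have hχ₂ : ((χ τ₂ : ℂ_[p]ˣ) : ℂ_[p]) = -1 := by
    have h1 : τ₂ ^ 2 = 1 := by rw [← hτ₂]; exact pow_orderOf_eq_one _
    have h2 : ((χ τ₂ : ℂ_[p]ˣ) : ℂ_[p]) ^ 2 = 1 := by
      rw [← Units.val_pow_eq_pow_val, ← map_pow, h1, map_one, Units.val_one]
    have h3 : (((χ τ₂ : ℂ_[p]ˣ) : ℂ_[p]) - 1) * (((χ τ₂ : ℂ_[p]ˣ) : ℂ_[p]) + 1) = 0 := by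
      linear_combination h2
    rcases mul_eq_zero.1 h3 with h | h
    · exact absurd (sub_eq_zero.1 h) (hχne _ hτ₂1)
    · exact eq_neg_of_add_eq_zero_left h
  have a1 : act p k H (E1 p (φ.symm (QuaternionGroup.a (p : ZMod (2 * p))))) x = x := by
    unfold E1
    rw [map_smul, LinearMap.smul_apply, map_sub, LinearMap.sub_apply, act_single, one_smul, e1,
      hact, hχ₂, map_one, neg_one_smul, sub_neg_eq_add, Module.End.one_apply, ← two_smul ℚ_[p],
      smul_smul]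
    norm_num
  -- the element of order `p`
  obtain ⟨τ₀, hτ₀⟩ := exists_prime_orderOf_dvd_card' (G := H ≃ₐ[K] H) p (by rw [hcard]; exact ⟨2, mul_comm _ _⟩)
  have e2 := order_p (q := φ (res τ₀)) (by rw [hord, hτ₀])
  obtain ⟨n, hn⟩ := Subgroup.mem_zpowers_iff.1 e2
  set τ₁ : H ≃ₐ[K] H := τ₀ ^ n with hτ₁
  have e3 : φ.symm (QuaternionGroup.a (2 : ZMod (2 * p))) = res τ₁ := by
    rw [← hn, map_zpow, φ.symm_apply_apply, hτ₁, map_zpow]
  have hτ₁1 : τ₁ ≠ 1 := by
    intro h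
    rw [h, map_one] at e3
    have h1 : QuaternionGroup.a (2 : ZMod (2 * p)) = 1 := by
      rw [← φ.apply_symm_apply (QuaternionGroup.a (2 : ZMod (2 * p))), e3, map_one]
    have h2 : (2 : ZMod (2 * p)) = 0 := QuaternionGroup.a.inj h1
    have h3 : ((2 : ℕ) : ZMod (2 * p)) = 0 := by exact_mod_cast h2
    rw [ZMod.natCast_eq_zero_iff] at h3
    have h4 := Nat.le_of_dvd (by norm_num) h3
    have h5 := hp.out.two_le
    omega
  have hτ₁p : τ₁ ^ p = 1 := by
    have h1 : τ₀ ^ p = 1 := by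
      have h := pow_orderOf_eq_one τ₀
      rwa [hτ₀] at h
    rw [hτ₁, ← zpow_natCast, ← zpow_mul, mul_comm, zpow_mul, zpow_natCast, h1, one_zpow]
  have hgeo : ∑ j : ZMod p, (((χ τ₁ : ℂ_[p]ˣ) : ℂ_[p])) ^ j.val = 0 := by
    have h1 : (((χ τ₁ : ℂ_[p]ˣ) : ℂ_[p])) ^ p = 1 := by
      rw [← Units.val_pow_eq_pow_val, ← map_pow, hτ₁p, map_one, Units.val_one]
    have h2 : ∑ j : ZMod p, (((χ τ₁ : ℂ_[p]ˣ) : ℂ_[p])) ^ j.val =
        ∑ j ∈ Finset.range p, (((χ τ₁ : ℂ_[p]ˣ) : ℂ_[p])) ^ j := by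
      rw [sum_zmod]
      refine Finset.sum_congr rfl fun j hj => ?_
      rw [ZMod.val_cast_of_lt (Finset.mem_range.1 hj)]
    rw [h2]
    have h3 := mul_geom_sum (((χ τ₁ : ℂ_[p]ˣ) : ℂ_[p])) p
    rw [h1, sub_self] at h3
    exact (mul_eq_zero.1 h3).resolve_left (sub_ne_zero.2 (hχne _ hτ₁1))
  have a2 : act p k H (E2 p (φ.symm (QuaternionGroup.a (2 : ZMod (2 * p))))) x = x := by
    have h1 : act p k H (sc p (res τ₁)) x = 0 := by
      unfold sc
      rw [map_sum, LinearMap.sum_apply]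
      have h2 : ∀ j : ZMod p, act p k H (single (res τ₁ ^ j.val) 1) x =
          (((χ τ₁ : ℂ_[p]ˣ) : ℂ_[p])) ^ j.val • x := by
        intro j
        rw [act_single, one_smul, ← map_pow, hact, map_pow, Units.val_pow_eq_pow_val]
      rw [Finset.sum_congr rfl fun j _ => h2 j, ← Finset.sum_smul, hgeo, zero_smul]
    unfold E2
    rw [e3, map_sub, LinearMap.sub_apply, map_smul, LinearMap.smul_apply, h1, smul_zero, sub_zero,
      map_one, Module.End.one_apply]
  unfold fD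
  rw [act_mul, a2, a1]

end main

end Pool.Agent.X328.LP
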